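import Mathlib

/-!
# Definitions: CNF formulas, local and sum of squares inference, solvers of PPSZ type
-/

namespace Pool.Agent.H13.PZ

open Finset

/-- A literal: a variable and the value that makes the literal true. -/
abbrev Lit (n : ℕ) := Fin n × Bool

/-- A clause is a finite set of literals. -/
abbrev Clause (n : ℕ) := Finset (Lit n)

/-- A CNF formula is a finite set of clauses. -/
abbrev CNF (n : ℕ) := Finset (Clause n)

/-- The assignment `a` satisfies the clause `C`. -/
def ClauseSat {n : ℕ} (a : Fin n → Bool) (C : Clause n) : Prop := ∃ l ∈ C, a l.1 = l.2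

/-- The assignment `a` satisfies the formula `F`. -/
def Sat {n : ℕ} (F : CNF n) (a : Fin n → Bool) : Prop := ∀ C ∈ F, ClauseSat a C

/-- A partial assignment: `none` for the variables without a value. -/
abbrev PAss (n : ℕ) := Fin n → Option Bool

/-- The assignment `a` extends the partial assignment `α`. -/
def Ext {n : ℕ} (α : PAss n) (a : Fin n → Bool) : Prop := ∀ v b, α v = some b → a v = b

/-- Among the assignments that extend `α`, whether `P` holds is determined by the values of some
`w` variables. -/
def Narrow {n : ℕ} (α : PAss n) (w : ℕ) (P : (Fin n → Bool) → Prop) : Prop :=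
  ∃ V : Finset (Fin n), V.card ≤ w ∧
    ∀ a a', Ext α a → Ext α a' → (∀ v ∈ V, a v = a' v) → (P a ↔ P a')

/-- Semantic reasoning of width `w` from the formula `F` under the partial assignment `α`: the
derived properties depend on at most `w` variables each; every one follows (for the assignments
that extend `α`) from at most `w` clauses of `F`, or from two properties derived before. -/
inductive Local {n : ℕ} (F : CNF n) (α : PAss n) (w : ℕ) : ((Fin n → Bool) → Prop) → Prop
  | base (G : CNF n) (P : (Fin n → Bool) → Prop) : G ⊆ F → G.card ≤ w → Narrow α w P →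
      (∀ a, Ext α a → Sat G a → P a) → Local F α w P
  | step (P Q R : (Fin n → Bool) → Prop) : Local F α w P → Local F α w Q → Narrow α w R →
      (∀ a, Ext α a → P a → Q a → R a) → Local F α w R

/-- `g` is a real polynomial of degree at most `d` in the variables, `true` being `1` and `false`
being `0`. -/
def DegLE {n : ℕ} (d : ℕ) (g : (Fin n → Bool) → ℝ) : Prop :=
  ∃ c : Finset (Fin n) → ℝ, (∀ T, d < T.card → c T = 0) ∧
    ∀ a, g a = ∑ T, c T * ∏ v ∈ T, (if a v = true then 1 else 0)

/-- A sum of squares refutation of degree `2 d` of `F` together with `α` and `x ≠ b`: for the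
assignments with these properties `-1` is a sum of squares of polynomials of degree at most `d`,
plus, for every clause `C` of `F`, a polynomial of degree at most `2 d` that vanishes wherever `C`
is satisfied. -/
def Sos {n : ℕ} (F : CNF n) (α : PAss n) (d : ℕ) (x : Fin n) (b : Bool) : Prop :=
  ∃ (m : ℕ) (q : Fin m → (Fin n → Bool) → ℝ) (g : Clause n → (Fin n → Bool) → ℝ),
    (∀ j, DegLE d (q j)) ∧
    (∀ C ∈ F, DegLE (2 * d) (g C) ∧ ∀ a, ClauseSat a C → g C a = 0) ∧
    ∀ a, Ext α a → a x ≠ b → (-1 : ℝ) = ∑ j, q j a ^ 2 + ∑ C ∈ F, g C a

/-- The value `b` of the variable `x` can be inferred from `F` and `α`, by local reasoning of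
width `w` or by sums of squares of degree `2 w`. -/
def Infer {n : ℕ} (F : CNF n) (α : PAss n) (w : ℕ) (x : Fin n) (b : Bool) : Prop :=
  Local F α w (fun a => a x = b) ∨ Sos F α w x b

/-- A solver of PPSZ type for `F`, with inference power `w`. It gives values to the variables one
after the other. The next variable may depend in any way on the values chosen so far; its value
may be inferred if `Infer` allows it, otherwise it is chosen at random. -/
structure Solver {n : ℕ} (F : CNF n) (w : ℕ) where
  /-- the next variable -/
  next : PAss n → Fin n
  /-- its value, if the solver infers it -/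
  infer : PAss n → Option Bool
  next_none : ∀ α : PAss n, (∃ v, α v = none) → α (next α) = none
  infer_sound : ∀ (α : PAss n) (b : Bool), infer α = some b → Infer F α w (next α) b

/-- The partial assignment after `i` steps, if the random value of `v` is `y v`. -/
def Solver.run {n : ℕ} {F : CNF n} {w : ℕ} (S : Solver F w) (y : Fin n → Bool) : ℕ → PAss n
  | 0 => fun _ => none
  | i + 1 => Function.update (S.run y i) (S.next (S.run y i))
      (some ((S.infer (S.run y i)).getD (y (S.next (S.run y i)))))

/-- The assignment found by the solver. -/
def Solver.out {n : ℕ} {F : CNF n} {w : ℕ} (S : Solver F w) (y : Fin n → Bool) : Fin n → Bool :=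
  fun v => (S.run y n v).getD false

/-- The probability that the solver finds a satisfying assignment. -/
noncomputable def Solver.success {n : ℕ} {F : CNF n} {w : ℕ} (S : Solver F w) : ℝ :=
  (Nat.card {y : Fin n → Bool // Sat F (S.out y)} : ℝ) / 2 ^ n

end Pool.Agent.H13.PZ
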