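import Mathlib
import Pool.Agent.H13.PP.Defs

/-! Solvers of PPSZ type, part Sys (systems, forcing, boundary and local reasoning): this file joins several modules to save build time. -/

section S_Sys

/-!
# The formula of a system of rows and triples; good sets; boundary
-/

namespace Pool.Agent.H13.PZ

open Finset

/-- The clause of the row `ρ` for `v`: if `v` is false then another variable of `ρ` is false. -/
def rowClause {n : ℕ} (ρ : Finset (Fin n)) (v : Fin n) : Clause n :=
  insert (v, true) ((ρ.erase v).image fun u => (u, false))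

/-- The variables of `t` are not all false. -/
def posClause {n : ℕ} (t : Finset (Fin n)) : Clause n := t.image fun v => (v, true)

/-- In no row exactly one variable is false, in no triple all variables are false. -/
def formula {n : ℕ} (rows trips : Finset (Finset (Fin n))) : CNF n :=
  (rows.biUnion fun ρ => ρ.image fun v => rowClause ρ v) ∪ trips.image posClause

/-- The set of false variables. -/
def zeros {n : ℕ} (a : Fin n → Bool) : Finset (Fin n) := univ.filter fun v => a v = false

/-- `u` and `v` are adjacent if they are the only elements of `K` in some row. -/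
def pairGraph {n : ℕ} (rows : Finset (Finset (Fin n))) (K : Finset (Fin n)) :
    SimpleGraph (Fin n) :=
  SimpleGraph.fromRel fun u v => ∃ ρ ∈ rows, ρ ∩ K = {u, v}

/-- No row has exactly one element in `K`, and the components of the pair graph that meet `K` have
at most `L` elements. -/
structure Good {n : ℕ} (rows : Finset (Finset (Fin n))) (L : ℕ) (K : Finset (Fin n)) : Prop where
  ne_one : ∀ ρ ∈ rows, (ρ ∩ K).card ≠ 1
  small : ∀ v ∈ K, ∃ Q : Finset (Fin n), Q.card ≤ L ∧
    ∀ u, (pairGraph rows K).Reachable v u → u ∈ Q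

open Classical in
/-- The union of the good subsets of `U`. -/
noncomputable def core {n : ℕ} (rows : Finset (Finset (Fin n))) (L : ℕ) (U : Finset (Fin n)) :
    Finset (Fin n) :=
  (U.powerset.filter (Good rows L)).sup id

/-- The number of entries `x` of the list that do not belong to `c U`, where `U` is the set of `x`
and the entries after it. -/
def badCount {n : ℕ} (c : Finset (Fin n) → Finset (Fin n)) : List (Fin n) → ℕ
  | [] => 0
  | x :: l => badCount c l + if x ∈ c (x :: l).toFinset then 0 else 1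

/-- The points that lie in exactly one of the sets `V i`, `i ∈ J`. -/
def bdry {n : ℕ} {ι : Type} (V : ι → Finset (Fin n)) (J : Finset ι) : Finset (Fin n) :=
  univ.filter fun v => (J.filter fun i => v ∈ V i).card = 1

/-- The assignments that are true outside `K` and false at `x`. -/
def InH {n : ℕ} (K : Finset (Fin n)) (x : Fin n) (a : Fin n → Bool) : Prop :=
  (∀ v, v ∉ K → a v = true) ∧ a x = false

/-- A system of parity constraints (an even number of false variables in `V i`) that implies the
formula `F` on `InH K x` and whose small subsystems have large boundary. -/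
structure ParSys {n : ℕ} (F : CNF n) (K : Finset (Fin n)) (x : Fin n) {ι : Type} (I : Finset ι)
    (V : ι → Finset (Fin n)) (m Γ : ℕ) : Prop where
  hx : x ∈ K
  sub : ∀ i ∈ I, V i ⊆ K
  bd : ∀ J ⊆ I, J.Nonempty → J.card ≤ 2 * m + 1 →
    2 ≤ (bdry V J).card ∧ J.card ≤ Γ * (bdry V J).card
  cl : ∀ C ∈ F, (∀ a, InH K x a → ClauseSat a C) ∨
    ∃ i ∈ I, ∀ a, InH K x a → ¬ ClauseSat a C → Odd (V i ∩ zeros a).card

/-- The sparsity and uniqueness properties of a system of rows and triples. -/
structure Sys {n : ℕ} (rows trips : Finset (Finset (Fin n))) (k q g N₀ : ℕ) : Prop where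
  row_card : ∀ ρ ∈ rows, ρ.Nonempty ∧ ρ.card ≤ k
  trip_card : ∀ t ∈ trips, t.Nonempty ∧ t.card ≤ 3 ∧ (t.card = 3 ∨ ∃ v ∈ t, {v} ∈ rows)
  uniq : ∀ Z : Finset (Fin n), Z.Nonempty → (∀ ρ ∈ rows, (ρ ∩ Z).card ≠ 1) → ∃ t ∈ trips, t ⊆ Z
  sparse : ∀ S ⊆ rows, ∀ T ⊆ trips, ∀ X : Finset (Fin n), (∀ ρ ∈ S, 2 ≤ ρ.card) →
    S.card + T.card + X.card ≤ N₀ →
    q * (∑ ρ ∈ S, (ρ ∩ X).card + ∑ t ∈ T, (t ∩ X).card) ≤ (q + 1) * (S.card + T.card + X.card)
  forest : ∀ S ⊆ rows, ∀ T ⊆ trips, ∀ X : Finset (Fin n), (∀ ρ ∈ S, 2 ≤ ρ.card) →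
    (∀ v ∈ X, {v} ∉ rows) → 0 < S.card + T.card + X.card → S.card + T.card + X.card ≤ g →
    (∑ ρ ∈ S, (ρ ∩ X).card + ∑ t ∈ T, (t ∩ X).card) + 1 ≤ S.card + T.card + X.card

/-- The nodes: colours, indices of triples, variables. -/
abbrev Node (n r M : ℕ) := Fin r ⊕ (Fin M ⊕ Fin n)

/-- The number of slots whose owner and whose value both belong to `W`. -/
def eW {n r M : ℕ} (f : Fin n × Fin 3 → Fin r) (h : Fin M × Fin 3 → Fin n)
    (W : Finset (Node n r M)) : ℕ :=
  (univ.filter fun p : Fin n × Fin 3 => Sum.inr (Sum.inr p.1) ∈ W ∧ Sum.inl (f p) ∈ W).card +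
  (univ.filter fun p : Fin M × Fin 3 =>
    Sum.inr (Sum.inl p.1) ∈ W ∧ Sum.inr (Sum.inr (h p)) ∈ W).card

end Pool.Agent.H13.PZ

end S_Sys

section S_Sp

/-!
# Sparse systems of sets (definition)
-/

namespace Pool.Agent.H13.PZ

open Finset

/-- A sparse system of sets `V i`, `i ∈ I`, in `K`. -/
structure SpSys {n : ℕ} {ι : Type} (V : ι → Finset (Fin n)) (I : Finset ι)
    (G : SimpleGraph (Fin n)) (K : Finset (Fin n)) (k L q N₀ : ℕ) : Prop where
  two_le : ∀ i ∈ I, 2 ≤ (V i).card
  le_k : ∀ i ∈ I, (V i).card ≤ k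
  sub : ∀ i ∈ I, V i ⊆ K
  adj : ∀ i ∈ I, (V i).card = 2 → ∀ u ∈ V i, ∀ v ∈ V i, u ≠ v → G.Adj u v
  small : ∀ v ∈ K, ∃ Q : Finset (Fin n), Q.card ≤ L ∧ ∀ u, G.Reachable v u → u ∈ Q
  sparse : ∀ J ⊆ I, ∀ X : Finset (Fin n), J.card + X.card ≤ N₀ →
    q * ∑ i ∈ J, (V i ∩ X).card ≤ (q + 1) * (J.card + X.card)
  forest : ∀ J ⊆ I, ∀ X ⊆ K, 0 < J.card + X.card → J.card + X.card ≤ 16 * L * k →
    ∑ i ∈ J, (V i ∩ X).card + 1 ≤ J.card + X.card

end Pool.Agent.H13.PZ

end S_Sp

section S_Snd

/-!
# Soundness of inference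
-/

namespace Pool.Agent.H13.PZ

open Finset

theorem local_sound {n : ℕ} {F : CNF n} {α : PAss n} {w : ℕ} {P : (Fin n → Bool) → Prop}
    (h : Local F α w P) (a : Fin n → Bool) (ha : Ext α a) (hF : Sat F a) : P a := by
  induction h with
  | base G P hG _ _ h => exact h a ha fun C hC => hF C (hG hC)
  | step P Q R _ _ _ h ih1 ih2 => exact h a ha ih1 ih2

theorem sos_sound {n : ℕ} {F : CNF n} {α : PAss n} {d : ℕ} {x : Fin n} {b : Bool}
    (h : Sos F α d x b) (a : Fin n → Bool) (ha : Ext α a) (hF : Sat F a) : a x = b := by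
  by_contra hne
  obtain ⟨m, q, g, _, hg, he⟩ := h
  have h1 := he a ha hne
  have h2 : ∑ C ∈ F, g C a = 0 := Finset.sum_eq_zero fun C hC => (hg C hC).2 a (hF C hC)
  have h3 : 0 ≤ ∑ j, q j a ^ 2 := Finset.sum_nonneg fun j _ => sq_nonneg _
  linarith

theorem infer_sound {n : ℕ} {F : CNF n} {α : PAss n} {w : ℕ} {x : Fin n} {b : Bool}
    (h : Infer F α w x b) (a : Fin n → Bool) (ha : Ext α a) (hF : Sat F a) : a x = b := by
  rcases h with h | h
  · exact local_sound h a ha hF
  · exact sos_sound h a ha hF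

end Pool.Agent.H13.PZ

end S_Snd

section S_Edg

/-!
# Edges of a connected graph that meet a set

`Q` is the component of `v` in `G`, `A ⊆ Q`. Choose the root `r`: an element of `Q \ A` if `A ≠ Q`,
and any element of `Q` (for example `v`) if `A = Q`. For `u ∈ Q`, `u ≠ r`, there is a neighbour
`p u` of `u` with `G.dist r (p u) < G.dist r u` (second last vertex of a shortest walk from `r` to
`u`; all elements of `Q` are reachable from `r`). The pairs `s(u, p u)`, `u ∈ A`, `u ≠ r`, are
distinct: if `s(u, p u) = s(u', p u')` with `u ≠ u'` then `u = p u'` and `u' = p u`, so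
`dist r u = dist r (p u') < dist r u' = dist r (p u) < dist r u`.
-/

namespace Pool.Agent.H13.PZ

open Finset

/-- a vertex reachable from `r` and different from it has a neighbour closer to `r` -/
theorem exists_closer {n : ℕ} (G : SimpleGraph (Fin n)) (r u : Fin n) (h : G.Reachable r u)
    (hne : u ≠ r) : ∃ v, G.Adj u v ∧ G.dist r v < G.dist r u := by
  obtain ⟨p, hp⟩ := h.exists_walk_length_eq_dist
  have hlen : p.length ≠ 0 := by
    intro h0
    exact hne (SimpleGraph.Walk.eq_of_length_eq_zero h0).symm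
  have hq : ¬ p.Nil := fun h0 => hlen (SimpleGraph.Walk.nil_iff_length_eq.1 h0)
  refine ⟨p.penultimate, (p.adj_penultimate hq).symm, ?_⟩
  have h1 : G.dist r p.penultimate ≤ p.dropLast.length := SimpleGraph.dist_le _
  have h2 : p.dropLast.length + 1 = p.length := p.length_dropLast_add_one hq
  omega

theorem exists_parent {n : ℕ} (G : SimpleGraph (Fin n)) (v : Fin n) (Q A : Finset (Fin n))
    (hQ : ∀ u, u ∈ Q ↔ G.Reachable v u) (hA : A ⊆ Q) :
    ∃ (r : Fin n) (p : Fin n → Fin n), r ∈ Q ∧ (A ≠ Q → r ∉ A) ∧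
      (∀ u ∈ A, u ≠ r → G.Adj u (p u)) ∧
      (∀ u ∈ A, u ≠ r → ∀ u' ∈ A, u' ≠ r → s(u, p u) = s(u', p u') → u = u') := by
  classical
  have hr : ∃ r ∈ Q, (A ≠ Q → r ∉ A) := by
    by_cases h : A = Q
    · exact ⟨v, (hQ v).2 (SimpleGraph.Reachable.refl v), fun h' => absurd h h'⟩
    · obtain ⟨r, hr1, hr2⟩ := Finset.exists_of_ssubset (Finset.ssubset_iff_subset_ne.2 ⟨hA, h⟩)
      exact ⟨r, hr1, fun _ => hr2⟩
  obtain ⟨r, hrQ, hrA⟩ := hr
  have hreach : ∀ u ∈ A, G.Reachable r u := fun u hu =>
    ((hQ r).1 hrQ).symm.trans ((hQ u).1 (hA hu))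
  have hp : ∀ u : Fin n, ∃ w : Fin n, u ∈ A → u ≠ r → G.Adj u w ∧ G.dist r w < G.dist r u := by
    intro u
    by_cases h1 : u ∈ A ∧ u ≠ r
    · obtain ⟨w, hw1, hw2⟩ := exists_closer G r u (hreach u h1.1) h1.2
      exact ⟨w, fun _ _ => ⟨hw1, hw2⟩⟩
    · exact ⟨u, fun h2 h3 => absurd ⟨h2, h3⟩ h1⟩
  choose p hp using hp
  refine ⟨r, p, hrQ, hrA, fun u hu hne => (hp u hu hne).1, ?_⟩
  intro u hu hur u' hu' hur' heq
  rw [Sym2.eq_iff] at heq
  rcases heq with ⟨h1, _⟩ | ⟨h1, h2⟩
  · exact h1
  · exfalso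
    have e1 := (hp u hu hur).2
    have e2 := (hp u' hu' hur').2
    rw [h2] at e1
    rw [← h1] at e2
    omega

end Pool.Agent.H13.PZ

end S_Edg

section S_For

/-!
# The formula of a system of rows and triples

`rowClause ρ v` (`v ∈ ρ`) is falsified by `a` iff `v` is false and all other elements of `ρ` are
true, i.e. iff `ρ ∩ zeros a = {v}`. `posClause t` is falsified iff `t ⊆ zeros a`. So `a` satisfies
the formula iff no row meets `zeros a` in exactly one element and no triple is contained in
`zeros a` (card of `ρ ∩ zeros a` is one iff `ρ ∩ zeros a = {v}` for some `v`, which lies in `ρ`).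
Cards: a row clause has at most `1 + (ρ.card - 1) ≤ k` literals, a triple clause at most `3 ≤ k`.
Uniqueness: `Sys.uniq` applied to `Z = zeros a` (if `zeros a` is empty then `a` is constantly true);
the constant `true` satisfies the formula because `zeros = ∅`, `(ρ ∩ ∅).card = 0 ≠ 1`, and triples
are nonempty.
-/

namespace Pool.Agent.H13.PZ

open Finset

theorem mem_zeros {n : ℕ} (a : Fin n → Bool) (v : Fin n) : v ∈ zeros a ↔ a v = false := by
  unfold zeros
  rw [Finset.mem_filter]
  exact ⟨fun h => h.2, fun h => ⟨Finset.mem_univ _, h⟩⟩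

theorem rowClause_unsat {n : ℕ} {ρ : Finset (Fin n)} {v : Fin n} (hv : v ∈ ρ)
    (a : Fin n → Bool) : ¬ ClauseSat a (rowClause ρ v) ↔ ρ ∩ zeros a = {v} := by
  unfold ClauseSat rowClause
  constructor
  · intro h
    push Not at h
    have h1 : a v = false := by
      have := h (v, true) (Finset.mem_insert_self _ _)
      simpa using this
    ext u
    rw [Finset.mem_inter, mem_zeros, Finset.mem_singleton]
    constructor
    · rintro ⟨hu, hu2⟩
      by_contra hne
      have := h (u, false) (Finset.mem_insert_of_mem (Finset.mem_image.2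
        ⟨u, Finset.mem_erase.2 ⟨hne, hu⟩, rfl⟩))
      exact this hu2
    · intro hu
      rw [hu]
      exact ⟨hv, h1⟩
  · intro h
    rintro ⟨l, hl, hl2⟩
    rw [Finset.mem_insert] at hl
    rcases hl with hl | hl
    · have h1 : v ∈ ρ ∩ zeros a := by rw [h]; exact Finset.mem_singleton_self _
      rw [Finset.mem_inter, mem_zeros] at h1
      rw [hl] at hl2
      simp only at hl2
      rw [h1.2] at hl2
      exact absurd hl2 (by simp)
    · rw [Finset.mem_image] at hl
      obtain ⟨u, hu, rfl⟩ := hl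
      rw [Finset.mem_erase] at hu
      have h1 : u ∈ ρ ∩ zeros a := by
        rw [Finset.mem_inter, mem_zeros]
        exact ⟨hu.2, hl2⟩
      rw [h, Finset.mem_singleton] at h1
      exact hu.1 h1

theorem posClause_unsat {n : ℕ} (t : Finset (Fin n)) (a : Fin n → Bool) :
    ¬ ClauseSat a (posClause t) ↔ t ⊆ zeros a := by
  unfold ClauseSat posClause
  constructor
  · intro h u hu
    push Not at h
    rw [mem_zeros]
    have := h (u, true) (Finset.mem_image.2 ⟨u, hu, rfl⟩)
    simpa using this
  · intro h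
    rintro ⟨l, hl, hl2⟩
    rw [Finset.mem_image] at hl
    obtain ⟨u, hu, rfl⟩ := hl
    have h1 := h hu
    rw [mem_zeros] at h1
    simp only at hl2
    rw [h1] at hl2
    exact absurd hl2 (by simp)

theorem mem_formula {n : ℕ} {rows trips : Finset (Finset (Fin n))} {C : Clause n} :
    C ∈ formula rows trips ↔
      (∃ ρ ∈ rows, ∃ v ∈ ρ, C = rowClause ρ v) ∨ ∃ t ∈ trips, C = posClause t := by
  unfold formula
  rw [Finset.mem_union, Finset.mem_biUnion, Finset.mem_image]
  constructor
  · rintro (⟨ρ, hρ, h⟩ | ⟨t, ht, h⟩)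
    · left
      rw [Finset.mem_image] at h
      obtain ⟨v, hv, h⟩ := h
      exact ⟨ρ, hρ, v, hv, h.symm⟩
    · right
      exact ⟨t, ht, h.symm⟩
  · rintro (⟨ρ, hρ, v, hv, h⟩ | ⟨t, ht, h⟩)
    · left
      exact ⟨ρ, hρ, Finset.mem_image.2 ⟨v, hv, h.symm⟩⟩
    · right
      exact ⟨t, ht, h.symm⟩

theorem sat_formula {n : ℕ} {rows trips : Finset (Finset (Fin n))} {a : Fin n → Bool} :
    Sat (formula rows trips) a ↔
      (∀ ρ ∈ rows, (ρ ∩ zeros a).card ≠ 1) ∧ ∀ t ∈ trips, ¬ t ⊆ zeros a := by
  unfold Sat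
  constructor
  · intro h
    constructor
    · intro ρ hρ hc
      rw [Finset.card_eq_one] at hc
      obtain ⟨v, hv⟩ := hc
      have hvρ : v ∈ ρ := by
        have : v ∈ ρ ∩ zeros a := by rw [hv]; exact Finset.mem_singleton_self _
        exact (Finset.mem_inter.1 this).1
      exact (rowClause_unsat hvρ a).2 hv (h _ (mem_formula.2 (Or.inl ⟨ρ, hρ, v, hvρ, rfl⟩)))
    · intro t ht hsub
      exact (posClause_unsat t a).2 hsub (h _ (mem_formula.2 (Or.inr ⟨t, ht, rfl⟩)))
  · rintro ⟨h1, h2⟩ C hC
    rw [mem_formula] at hC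
    by_contra hcon
    rcases hC with ⟨ρ, hρ, v, hv, rfl⟩ | ⟨t, ht, rfl⟩
    · rw [rowClause_unsat hv] at hcon
      exact h1 ρ hρ (by rw [hcon, Finset.card_singleton])
    · rw [posClause_unsat] at hcon
      exact h2 t ht hcon

theorem card_formula {n k : ℕ} {rows trips : Finset (Finset (Fin n))} (hk : 3 ≤ k)
    (h1 : ∀ ρ ∈ rows, ρ.card ≤ k) (h2 : ∀ t ∈ trips, t.card ≤ 3) :
    ∀ C ∈ formula rows trips, C.card ≤ k := by
  intro C hC
  rw [mem_formula] at hC
  rcases hC with ⟨ρ, hρ, v, hv, rfl⟩ | ⟨t, ht, rfl⟩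
  · unfold rowClause
    have h3 := Finset.card_insert_le (v, true) ((ρ.erase v).image fun u => (u, false))
    have h4 : ((ρ.erase v).image fun u => (u, false)).card ≤ (ρ.erase v).card := Finset.card_image_le
    have h5 := Finset.card_erase_of_mem hv
    have h6 := h1 ρ hρ
    have h7 : 0 < ρ.card := Finset.card_pos.2 ⟨v, hv⟩
    omega
  · unfold posClause
    exact Finset.card_image_le.trans ((h2 t ht).trans hk)

theorem uniq_formula {n k q g N₀ : ℕ} {rows trips : Finset (Finset (Fin n))}
    (h : Sys rows trips k q g N₀) :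
    Sat (formula rows trips) (fun _ => true) ∧
      ∀ a, Sat (formula rows trips) a → a = fun _ => true := by
  constructor
  · rw [sat_formula]
    have hz : zeros (fun _ : Fin n => true) = ∅ := by
      ext v
      rw [mem_zeros]
      simp
    rw [hz]
    constructor
    · intro ρ _
      rw [Finset.inter_empty]
      simp
    · intro t ht hsub
      have h1 := (h.trip_card t ht).1
      rw [Finset.subset_empty] at hsub
      rw [hsub] at h1
      exact Finset.not_nonempty_empty h1
  · intro a ha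
    rw [sat_formula] at ha
    by_cases hz : (zeros a).Nonempty
    · obtain ⟨t, ht, hsub⟩ := h.uniq (zeros a) hz ha.1
      exact absurd hsub (ha.2 t ht)
    · rw [Finset.not_nonempty_iff_eq_empty] at hz
      funext v
      have h1 : v ∉ zeros a := by rw [hz]; simp
      rw [mem_zeros] at h1
      simpa using h1

end Pool.Agent.H13.PZ

end S_For

section S_Gd

/-!
# Good sets and the core

`Good` is closed under unions. Let `K`, `K'` be good, `M = K ∪ K'`.
* If `(ρ ∩ M).card = 1` then `ρ ∩ K ⊆ ρ ∩ M` has card `0` (not `1`), the same for `K'`, so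
  `ρ ∩ M = (ρ ∩ K) ∪ (ρ ∩ K')` is empty, a contradiction.
* If `ρ ∩ M = {u, v}`, `u ≠ v`, and `u ∈ K`, then `ρ ∩ K ⊆ {u, v}` contains `u` and has not card
  `1`, so it is `{u, v}`. Hence if `u ∈ K` and `u`, `v` are adjacent in the pair graph of `M` then
  `v ∈ K` and they are adjacent in the pair graph of `K`. By induction on walks: everything
  reachable from `u ∈ K` in the pair graph of `M` is reachable in the pair graph of `K`. So the
  bound `L` carries over (the same for `K'`).
By induction on finite sets of good sets the core is good; it is the largest good subset of `U`.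
-/

namespace Pool.Agent.H13.PZ

open Finset

theorem pairGraph_adj {n : ℕ} {rows : Finset (Finset (Fin n))} {K : Finset (Fin n)}
    {u v : Fin n} :
    (pairGraph rows K).Adj u v ↔ u ≠ v ∧ ∃ ρ ∈ rows, ρ ∩ K = {u, v} := by
  unfold pairGraph
  rw [SimpleGraph.fromRel_adj]
  refine and_congr_right fun _ => ⟨?_, fun h => Or.inl h⟩
  rintro (h | ⟨ρ, hρ, e⟩)
  · exact h
  · exact ⟨ρ, hρ, by rw [e, Finset.pair_comm]⟩

theorem good_empty {n : ℕ} (rows : Finset (Finset (Fin n))) (L : ℕ) : Good rows L ∅ :=
  ⟨fun ρ _ => by simp, fun v hv => absurd hv (Finset.notMem_empty v)⟩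

/-- in a union of two sets without rows with one element, adjacency stays inside -/
theorem adj_inside {n : ℕ} {rows : Finset (Finset (Fin n))} {K M : Finset (Fin n)}
    (hK : ∀ ρ ∈ rows, (ρ ∩ K).card ≠ 1) (hKM : K ⊆ M) {u v : Fin n} (hu : u ∈ K)
    (h : (pairGraph rows M).Adj u v) : v ∈ K ∧ (pairGraph rows K).Adj u v := by
  rw [pairGraph_adj] at h
  obtain ⟨hne, ρ, hρ, e⟩ := h
  have huM : u ∈ ρ ∩ M := by rw [e]; simp
  have huρ : u ∈ ρ := (Finset.mem_inter.1 huM).1
  have hsub : ρ ∩ K ⊆ {u, v} := by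
    rw [← e]
    exact Finset.inter_subset_inter_left hKM
  have huK : u ∈ ρ ∩ K := Finset.mem_inter.2 ⟨huρ, hu⟩
  have hvK : v ∈ ρ ∩ K := by
    by_contra hv
    apply hK ρ hρ
    rw [Finset.card_eq_one]
    refine ⟨u, Finset.Subset.antisymm ?_ (Finset.singleton_subset_iff.2 huK)⟩
    intro z hz
    have := hsub hz
    simp only [Finset.mem_insert, Finset.mem_singleton] at this ⊢
    rcases this with h | h
    · exact h
    · exact absurd (h ▸ hz) hv
  have e2 : ρ ∩ K = {u, v} := Finset.Subset.antisymm hsub (by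
    intro z hz
    simp only [Finset.mem_insert, Finset.mem_singleton] at hz
    rcases hz with h | h
    · rw [h]; exact huK
    · rw [h]; exact hvK)
  exact ⟨(Finset.mem_inter.1 hvK).2, pairGraph_adj.2 ⟨hne, ρ, hρ, e2⟩⟩

theorem reach_inside {n : ℕ} {rows : Finset (Finset (Fin n))} {K M : Finset (Fin n)}
    (hK : ∀ ρ ∈ rows, (ρ ∩ K).card ≠ 1) (hKM : K ⊆ M) {u v : Fin n} (hu : u ∈ K)
    (h : (pairGraph rows M).Reachable u v) : v ∈ K ∧ (pairGraph rows K).Reachable u v := by
  obtain ⟨p⟩ := h
  induction p with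
  | nil => exact ⟨hu, SimpleGraph.Reachable.refl _⟩
  | cons hadj p ih =>
    obtain ⟨h1, h2⟩ := adj_inside hK hKM hu hadj
    obtain ⟨h3, h4⟩ := ih h1
    exact ⟨h3, h2.reachable.trans h4⟩

theorem good_union {n : ℕ} {rows : Finset (Finset (Fin n))} {L : ℕ} {K K' : Finset (Fin n)}
    (h : Good rows L K) (h' : Good rows L K') : Good rows L (K ∪ K') := by
  refine ⟨?_, ?_⟩
  · intro ρ hρ h1
    rw [Finset.card_eq_one] at h1
    obtain ⟨z, hz⟩ := h1
    have key : ∀ K₁ : Finset (Fin n), K₁ ⊆ K ∪ K' → (ρ ∩ K₁).card ≠ 1 → ρ ∩ K₁ = ∅ := by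
      intro K₁ hs hc
      have hs2 : ρ ∩ K₁ ⊆ {z} := by
        rw [← hz]
        exact Finset.inter_subset_inter_left hs
      rcases Finset.subset_singleton_iff.1 hs2 with h | h
      · exact h
      · exact absurd (by rw [h]; simp) hc
    have h2 := key K Finset.subset_union_left (h.ne_one ρ hρ)
    have h3 := key K' Finset.subset_union_right (h'.ne_one ρ hρ)
    rw [Finset.inter_union_distrib_left, h2, h3] at hz
    simp at hz
  · intro v hv
    rcases Finset.mem_union.1 hv with hv | hv
    · obtain ⟨Q, hQ, hr⟩ := h.small v hv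
      exact ⟨Q, hQ, fun u hu => hr u (reach_inside h.ne_one Finset.subset_union_left hv hu).2⟩
    · obtain ⟨Q, hQ, hr⟩ := h'.small v hv
      exact ⟨Q, hQ, fun u hu => hr u (reach_inside h'.ne_one Finset.subset_union_right hv hu).2⟩

theorem core_subset {n : ℕ} (rows : Finset (Finset (Fin n))) (L : ℕ) (U : Finset (Fin n)) :
    core rows L U ⊆ U := by
  classical
  unfold core
  rw [← Finset.le_iff_subset]
  refine Finset.sup_le fun K hK => ?_
  exact Finset.mem_powerset.1 (Finset.mem_filter.1 hK).1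

theorem core_good {n : ℕ} (rows : Finset (Finset (Fin n))) (L : ℕ) (U : Finset (Fin n)) :
    Good rows L (core rows L U) := by
  classical
  unfold core
  exact Finset.sup_induction (p := Good rows L) (good_empty rows L)
    (fun a ha b hb => good_union ha hb) (fun K hK => (Finset.mem_filter.1 hK).2)

theorem subset_core {n : ℕ} {rows : Finset (Finset (Fin n))} {L : ℕ} {K U : Finset (Fin n)}
    (h : Good rows L K) (hU : K ⊆ U) : K ⊆ core rows L U := by
  classical
  unfold core
  rw [← Finset.le_iff_subset]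
  exact Finset.le_sup (f := id) (Finset.mem_filter.2 ⟨Finset.mem_powerset.2 hU, h⟩)

theorem core_mono {n : ℕ} {rows : Finset (Finset (Fin n))} {L : ℕ} {U U' : Finset (Fin n)}
    (h : U ⊆ U') : core rows L U ⊆ core rows L U' :=
  subset_core (core_good rows L U) ((core_subset rows L U).trans h)

/-- If `W` contains `core U`, lies in `U` and is not `core U` then either some row meets `W` in
exactly one element, or some component of the pair graph of `W` that meets `W` has more than `L`
elements (otherwise `W` would be good, and larger than the core). -/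
theorem not_good {n : ℕ} {rows : Finset (Finset (Fin n))} {L : ℕ} {U W : Finset (Fin n)}
    (h1 : core rows L U ⊆ W) (h2 : W ⊆ U) (h3 : W ≠ core rows L U) :
    (∃ ρ ∈ rows, (ρ ∩ W).card = 1) ∨
      ∃ v ∈ W, ∃ Q : Finset (Fin n), (∀ u, u ∈ Q ↔ (pairGraph rows W).Reachable v u) ∧
        L < Q.card := by
  classical
  by_contra hcon
  push_neg at hcon
  obtain ⟨hc1, hc2⟩ := hcon
  apply h3
  refine Finset.Subset.antisymm (subset_core ⟨fun ρ hρ => hc1 ρ hρ, fun v hv => ?_⟩ h2) h1
  refine ⟨univ.filter fun u => (pairGraph rows W).Reachable v u, ?_, fun u hu => by simp [hu]⟩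
  exact hc2 v hv _ (fun u => by simp)

end Pool.Agent.H13.PZ

end S_Gd

section S_Chg

/-!
# Charging lemma

For `A ⊆ U \ core U`: `L |A| ≤ (L + 1) * #{rows that meet A and are disjoint from the core of U}`.

Write `c = core rows L U`. Claim, for all `W` with `c ⊆ W ⊆ U` (induction on the card of `W`):
`L |A ∩ W| ≤ (L + 1) * #{ρ ∈ rows | ρ meets A ∩ W and is disjoint from c}`. For `W = U` this is
the lemma. If `W = c` then `A ∩ W = ∅`. If `W ≠ c` use `not_good`.
* Case 1: `ρ₀ ∩ W = {v}`. Then `v ∉ c` (`ρ₀ ∩ c ⊆ {v}` has not card `1`, so it is empty; in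
  particular `ρ₀` is disjoint from `c`). Put `W' = W.erase v`. `ρ₀` does not meet `W'`. If `v ∉ A`
  then `A ∩ W = A ∩ W'`. If `v ∈ A` then `|A ∩ W| = |A ∩ W'| + 1` and the rows counted for `W`
  contain those counted for `W'` and `ρ₀`, which is not counted for `W'`. Use
  `L + (L + 1) N ≤ (L + 1) (N + 1)`.
* Case 2: `Q` is the component of `v ∈ W` in the pair graph of `W`, `|Q| ≥ L + 1`. `Q ⊆ W` (an edge
  of the pair graph of `W` has both ends in `W`). `Q` is disjoint from `c`: if some `u ∈ Q ∩ c`,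
  then for every edge `ρ ∩ W = {u, u'}` we have `ρ ∩ c ⊆ {u, u'}`, it contains `u` and has not card
  `1`, so `ρ ∩ c = {u, u'}`, i.e. `u' ∈ c` and `u`, `u'` are adjacent in the pair graph of `c`; by
  induction on walks all of `Q` is reachable from `u` in the pair graph of `c`, against the
  smallness of `c` (`core_good`). Put `W' = W \ Q`. Every row `ρ` with `ρ ∩ W = {u, u'} ⊆ Q` is
  disjoint from `c` and from `W'`. Apply `exists_parent` to `A ∩ Q`: every `u ∈ (A ∩ Q).erase r`
  gives a row `ρ_u` with `ρ_u ∩ W = {u, p u}`; these rows are distinct, meet `A ∩ W`, are disjoint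
  from `c` and are not counted for `W'`. So the count for `W` is at least the count for `W'` plus
  `|(A ∩ Q).erase r|`. If `A ∩ Q ≠ Q` this is `|A ∩ Q|`; otherwise it is `|Q| - 1` and
  `(L + 1) (|Q| - 1) ≥ L |Q|` because `|Q| ≥ L + 1`.
-/

namespace Pool.Agent.H13.PZ

open Finset

private theorem chg_step {n : ℕ} {rows : Finset (Finset (Fin n))} {L : ℕ} {U W : Finset (Fin n)}
    (hcW : core rows L U ⊆ W) {a b : Fin n} (ha : a ∈ core rows L U)
    (hab : (pairGraph rows W).Adj a b) :
    b ∈ core rows L U ∧ (pairGraph rows (core rows L U)).Adj a b := by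
  rw [pairGraph_adj] at hab
  obtain ⟨hne, ρ, hρ, hρW⟩ := hab
  have h1 : ρ ∩ core rows L U ⊆ {a, b} := by
    rw [← hρW]; exact inter_subset_inter_left hcW
  have haρ : a ∈ ρ := by
    have : a ∈ ρ ∩ W := by rw [hρW]; simp
    exact (mem_inter.1 this).1
  have hb : b ∈ core rows L U := by
    by_contra hb
    have h2 : ρ ∩ core rows L U = {a} := by
      ext x
      simp only [mem_singleton]
      constructor
      · intro hx
        have := h1 hx
        simp only [mem_insert, mem_singleton] at this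
        rcases this with h | h
        · exact h
        · subst h; exact absurd (mem_inter.1 hx).2 hb
      · rintro rfl; exact mem_inter.2 ⟨haρ, ha⟩
    exact (core_good rows L U).ne_one ρ hρ (by rw [h2]; simp)
  refine ⟨hb, pairGraph_adj.2 ⟨hne, ρ, hρ, ?_⟩⟩
  apply Subset.antisymm h1
  intro x hx
  simp only [mem_insert, mem_singleton] at hx
  have hbρ : b ∈ ρ := by
    have : b ∈ ρ ∩ W := by rw [hρW]; simp
    exact (mem_inter.1 this).1
  rcases hx with rfl | rfl
  · exact mem_inter.2 ⟨haρ, ha⟩
  · exact mem_inter.2 ⟨hbρ, hb⟩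

private theorem chg_reach {n : ℕ} {rows : Finset (Finset (Fin n))} {L : ℕ} {U W : Finset (Fin n)}
    (hcW : core rows L U ⊆ W) {a b : Fin n} (p : (pairGraph rows W).Walk a b)
    (ha : a ∈ core rows L U) :
    (pairGraph rows (core rows L U)).Reachable a b := by
  induction p with
  | nil => exact SimpleGraph.Reachable.refl _
  | cons h p ih =>
    obtain ⟨hb, hadj⟩ := chg_step hcW ha h
    exact hadj.reachable.trans (ih hb)

private theorem chg_mem {n : ℕ} {rows : Finset (Finset (Fin n))} {W : Finset (Fin n)}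
    {a b : Fin n} (p : (pairGraph rows W).Walk a b) (ha : a ∈ W) : b ∈ W := by
  induction p with
  | nil => exact ha
  | cons h p ih =>
    rw [pairGraph_adj] at h
    obtain ⟨hne, ρ, hρ, hρW⟩ := h
    apply ih
    refine (mem_inter.1 (?_ : _ ∈ ρ ∩ W)).2
    rw [hρW]; exact mem_insert_of_mem (mem_singleton_self _)

private theorem chg_main {n : ℕ} {rows : Finset (Finset (Fin n))} {L : ℕ} {U A : Finset (Fin n)} :
    ∀ (k : ℕ) (W : Finset (Fin n)), W.card = k → core rows L U ⊆ W → W ⊆ U →
    (∀ x ∈ A, x ∉ core rows L U) →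
    L * (A ∩ W).card ≤ (L + 1) *
      (rows.filter fun ρ => (ρ ∩ (A ∩ W)).Nonempty ∧ ρ ∩ core rows L U = ∅).card := by
  intro k
  induction k using Nat.strong_induction_on with
  | _ k ih =>
  intro W hWk hcW hWU hA
  by_cases hW : W = core rows L U
  · have : A ∩ W = ∅ := by
      rw [hW]
      ext x
      simp only [mem_inter, notMem_empty, iff_false, not_and]
      exact fun hx => hA x hx
    rw [this]; simp
  rcases not_good hcW hWU hW with ⟨ρ₀, hρ₀, h1⟩ | ⟨v, hvW, Q, hQ, hLQ⟩
  · obtain ⟨v, hv⟩ := card_eq_one.1 h1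
    have hvm : v ∈ ρ₀ ∩ W := by rw [hv]; simp
    have hdis : ρ₀ ∩ core rows L U = ∅ := by
      by_contra hne
      have hsub : ρ₀ ∩ core rows L U ⊆ {v} := by
        rw [← hv]; exact inter_subset_inter_left hcW
      rcases subset_singleton_iff.1 hsub with h | h
      · exact hne h
      · exact (core_good rows L U).ne_one ρ₀ hρ₀ (by rw [h]; simp)
    have hvc : v ∉ core rows L U := by
      intro hvc
      have : v ∈ ρ₀ ∩ core rows L U := mem_inter.2 ⟨(mem_inter.1 hvm).1, hvc⟩
      rw [hdis] at this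
      simp at this
    have hvW := (mem_inter.1 hvm).2
    have hcW' : core rows L U ⊆ W.erase v := fun x hx =>
      mem_erase.2 ⟨fun h => hvc (h ▸ hx), hcW hx⟩
    have hI := ih (W.erase v).card (by rw [← hWk]; exact card_erase_lt_of_mem hvW) (W.erase v) rfl
      hcW' ((erase_subset _ _).trans hWU) hA
    by_cases hvA : v ∈ A
    · have hins : A ∩ W = insert v (A ∩ W.erase v) := by
        ext x
        simp only [mem_inter, mem_insert, mem_erase]
        constructor
        · rintro ⟨ha, hb⟩
          by_cases hxv : x = v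
          · exact Or.inl hxv
          · exact Or.inr ⟨ha, hxv, hb⟩
        · rintro (rfl | ⟨ha, _, hb⟩)
          · exact ⟨hvA, hvW⟩
          · exact ⟨ha, hb⟩
      have hcard : (A ∩ W).card = (A ∩ W.erase v).card + 1 := by
        rw [hins, card_insert_of_notMem]
        simp
      set F' := rows.filter fun ρ => (ρ ∩ (A ∩ W.erase v)).Nonempty ∧ ρ ∩ core rows L U = ∅ with hF'
      have hnot : ρ₀ ∉ F' := by
        rw [hF', mem_filter]
        rintro ⟨_, ⟨x, hx⟩, _⟩
        simp only [mem_inter, mem_erase] at hx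
        have : x ∈ ρ₀ ∩ W := mem_inter.2 ⟨hx.1, hx.2.2.2⟩
        rw [hv, mem_singleton] at this
        exact hx.2.2.1 this
      have hsub : insert ρ₀ F' ⊆
          rows.filter fun ρ => (ρ ∩ (A ∩ W)).Nonempty ∧ ρ ∩ core rows L U = ∅ := by
        intro ρ hρ
        rw [mem_insert] at hρ
        rw [mem_filter]
        rcases hρ with rfl | hρ
        · exact ⟨hρ₀, ⟨v, mem_inter.2 ⟨(mem_inter.1 hvm).1, mem_inter.2 ⟨hvA, hvW⟩⟩⟩, hdis⟩
        · rw [hF', mem_filter] at hρ
          refine ⟨hρ.1, ?_, hρ.2.2⟩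
          obtain ⟨x, hx⟩ := hρ.2.1
          simp only [mem_inter, mem_erase] at hx
          exact ⟨x, mem_inter.2 ⟨hx.1, mem_inter.2 ⟨hx.2.1, hx.2.2.2⟩⟩⟩
      have hle := card_le_card hsub
      rw [card_insert_of_notMem hnot] at hle
      rw [hcard]
      calc L * ((A ∩ W.erase v).card + 1) = L * (A ∩ W.erase v).card + L := by ring
        _ ≤ (L + 1) * F'.card + (L + 1) := by omega
        _ = (L + 1) * (F'.card + 1) := by ring
        _ ≤ _ := Nat.mul_le_mul_left _ hle
    · have heq : A ∩ W = A ∩ W.erase v := by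
        ext x
        simp only [mem_inter, mem_erase]
        constructor
        · rintro ⟨ha, hb⟩
          exact ⟨ha, fun h => hvA (h ▸ ha), hb⟩
        · rintro ⟨ha, _, hb⟩
          exact ⟨ha, hb⟩
      rw [heq]
      exact hI
  · have hQW : Q ⊆ W := by
      intro u hu
      obtain ⟨p⟩ := (hQ u).1 hu
      exact chg_mem p hvW
    have hvQ : v ∈ Q := (hQ v).2 (SimpleGraph.Reachable.refl _)
    have hQc : ∀ u ∈ Q, u ∉ core rows L U := by
      intro u huQ huc
      obtain ⟨Q', hQ'L, hQ'⟩ := (core_good rows L U).small u huc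
      have : Q ⊆ Q' := by
        intro w hw
        apply hQ'
        have hr : (pairGraph rows W).Reachable u w := ((hQ u).1 huQ).symm.trans ((hQ w).1 hw)
        obtain ⟨p⟩ := hr
        exact chg_reach hcW p huc
      have := card_le_card this
      omega
    have hcW' : core rows L U ⊆ W \ Q := fun x hx =>
      mem_sdiff.2 ⟨hcW hx, fun h => hQc x h hx⟩
    have hlt : (W \ Q).card < k := by
      rw [← hWk]
      apply card_lt_card
      refine ⟨sdiff_subset, fun h => ?_⟩
      exact (mem_sdiff.1 (h hvW)).2 hvQ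
    have hI := ih (W \ Q).card hlt (W \ Q) rfl hcW' (sdiff_subset.trans hWU) hA
    obtain ⟨r, p, hrQ, hrA, hadj, hinj⟩ :=
      exists_parent (pairGraph rows W) v Q (A ∩ Q) hQ inter_subset_right
    have hex : ∀ u, ∃ ρ : Finset (Fin n), u ∈ A ∩ Q → u ≠ r → ρ ∈ rows ∧ ρ ∩ W = {u, p u} := by
      intro u
      by_cases hu : u ∈ A ∩ Q ∧ u ≠ r
      · obtain ⟨_, ρ, hρ, hρW⟩ := pairGraph_adj.1 (hadj u hu.1 hu.2)
        exact ⟨ρ, fun _ _ => ⟨hρ, hρW⟩⟩
      · exact ⟨∅, fun h1 h2 => absurd ⟨h1, h2⟩ hu⟩
    choose R hR using hex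
    set T := (A ∩ Q).erase r with hT
    have hRT : ∀ u ∈ T, R u ∈ rows ∧ R u ∩ W = {u, p u} := fun u hu =>
      hR u (mem_erase.1 hu).2 (mem_erase.1 hu).1
    have hinjR : Set.InjOn R T := by
      intro u hu u' hu' h
      have h1 := hRT u hu
      have h2 := hRT u' hu'
      have h3 : ({u, p u} : Finset (Fin n)) = {u', p u'} := by
        rw [← h1.2, ← h2.2, h]
      refine hinj u (mem_erase.1 hu).2 (mem_erase.1 hu).1 u' (mem_erase.1 hu').2
        (mem_erase.1 hu').1 ?_
      rw [Sym2.eq_iff]
      have h4 : (({u, p u} : Finset (Fin n)) : Set (Fin n)) = (({u', p u'} : Finset (Fin n)) :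
        Set (Fin n)) := by rw [h3]
      push_cast at h4
      exact Set.pair_eq_pair_iff.1 h4
    set F' := rows.filter fun ρ => (ρ ∩ (A ∩ (W \ Q))).Nonempty ∧ ρ ∩ core rows L U = ∅ with hF'
    have hpQ : ∀ u ∈ T, p u ∈ Q := by
      intro u hu
      have hu2 := (mem_erase.1 hu).2
      rw [hQ]
      exact ((hQ u).1 (mem_inter.1 hu2).2).trans (hadj u hu2 (mem_erase.1 hu).1).reachable
    have hdisj : Disjoint F' (T.image R) := by
      rw [disjoint_left]
      intro ρ hρ hρ'
      obtain ⟨u, hu, rfl⟩ := mem_image.1 hρ'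
      rw [hF', mem_filter] at hρ
      obtain ⟨x, hx⟩ := hρ.2.1
      simp only [mem_inter, mem_sdiff] at hx
      have h1 : x ∈ R u ∩ W := mem_inter.2 ⟨hx.1, hx.2.2.1⟩
      rw [(hRT u hu).2] at h1
      simp only [mem_insert, mem_singleton] at h1
      rcases h1 with rfl | rfl
      · exact hx.2.2.2 (mem_inter.1 (mem_erase.1 hu).2).2
      · exact hx.2.2.2 (hpQ u hu)
    have hsub : F' ∪ T.image R ⊆
        rows.filter fun ρ => (ρ ∩ (A ∩ W)).Nonempty ∧ ρ ∩ core rows L U = ∅ := by
      intro ρ hρ
      rw [mem_union] at hρ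
      rw [mem_filter]
      rcases hρ with hρ | hρ
      · rw [hF', mem_filter] at hρ
        refine ⟨hρ.1, ?_, hρ.2.2⟩
        obtain ⟨x, hx⟩ := hρ.2.1
        simp only [mem_inter, mem_sdiff] at hx
        exact ⟨x, mem_inter.2 ⟨hx.1, mem_inter.2 ⟨hx.2.1, hx.2.2.1⟩⟩⟩
      · obtain ⟨u, hu, rfl⟩ := mem_image.1 hρ
        have huA := (mem_erase.1 hu).2
        have huW : u ∈ R u ∩ W := by rw [(hRT u hu).2]; simp
        refine ⟨(hRT u hu).1, ⟨u, mem_inter.2 ⟨(mem_inter.1 huW).1,
          mem_inter.2 ⟨(mem_inter.1 huA).1, (mem_inter.1 huW).2⟩⟩⟩, ?_⟩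
        ext x
        simp only [mem_inter, notMem_empty, iff_false, not_and]
        intro hx hxc
        have h1 : x ∈ R u ∩ W := mem_inter.2 ⟨hx, hcW hxc⟩
        rw [(hRT u hu).2] at h1
        simp only [mem_insert, mem_singleton] at h1
        rcases h1 with rfl | rfl
        · exact hQc x (mem_inter.1 huA).2 hxc
        · exact hQc _ (hpQ u hu) hxc
    have hle := card_le_card hsub
    rw [card_union_of_disjoint hdisj, card_image_of_injOn hinjR] at hle
    have hcard : (A ∩ W).card = (A ∩ (W \ Q)).card + (A ∩ Q).card := by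
      rw [← card_union_of_disjoint]
      · congr 1
        ext x
        simp only [mem_inter, mem_union, mem_sdiff]
        constructor
        · rintro ⟨ha, hb⟩
          by_cases hx : x ∈ Q
          · exact Or.inr ⟨ha, hx⟩
          · exact Or.inl ⟨ha, hb, hx⟩
        · rintro (⟨ha, hb, _⟩ | ⟨ha, hb⟩)
          · exact ⟨ha, hb⟩
          · exact ⟨ha, hQW hb⟩
      · rw [disjoint_left]
        intro x hx hx'
        exact (mem_sdiff.1 (mem_inter.1 hx).2).2 (mem_inter.1 hx').2
    have hkey : L * (A ∩ Q).card ≤ (L + 1) * T.card := by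
      by_cases hAQ : A ∩ Q = Q
      · have hTc : T.card + 1 = Q.card := by
          rw [hT, hAQ]
          exact card_erase_add_one hrQ
        rw [hAQ]
        nlinarith
      · have : T = A ∩ Q := by
          rw [hT]
          exact erase_eq_of_notMem (hrA hAQ)
        rw [this]
        nlinarith
    rw [hcard]
    calc L * ((A ∩ (W \ Q)).card + (A ∩ Q).card)
        = L * (A ∩ (W \ Q)).card + L * (A ∩ Q).card := by ring
      _ ≤ (L + 1) * F'.card + (L + 1) * T.card := by omega
      _ = (L + 1) * (F'.card + T.card) := by ring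
      _ ≤ _ := Nat.mul_le_mul_left _ hle

theorem charge {n : ℕ} {rows : Finset (Finset (Fin n))} {L : ℕ} {U A : Finset (Fin n)}
    (hA : A ⊆ U \ core rows L U) :
    L * A.card ≤ (L + 1) *
      (rows.filter fun ρ => (ρ ∩ A).Nonempty ∧ ρ ∩ core rows L U = ∅).card := by
  have h := chg_main (rows := rows) (L := L) (U := U) (A := A) U.card U rfl (core_subset rows L U)
    (Subset.refl _) (fun x hx => (mem_sdiff.1 (hA hx)).2)
  have h2 : A ∩ U = A := inter_eq_left.2 fun x hx => (mem_sdiff.1 (hA hx)).1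
  rw [h2] at h
  exact h

end Pool.Agent.H13.PZ

end S_Chg

section S_Tel

/-!
# For every order, few variables are outside the core when they are added

Claim, by induction on the list `l` (without repetitions, `U = l.toFinset`, `c = core rows L`):
`L * badCount c l ≤ (L + 1) * #{ρ ∈ rows | ρ meets c U} + L * |U \ c U|`.
Step from `l` to `x :: l`, `U' = insert x U`.
* `x ∉ c U'`: then `c U' ⊆ U` so `c U' = c U` (`core_mono`, `subset_core`, `core_good`); the first
  term stays, the second grows by `L` (`U' \ c U = insert x (U \ c U)`), `badCount` grows by one.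
* `x ∈ c U'`: `badCount` stays. Put `A = c U' ∩ (U \ c U)`. Then `U \ c U` is the disjoint union of
  `A` and `U' \ c U'` (`c U ⊆ c U'`, and `x ∈ c U'`). By `charge` for `U` and `A`,
  `L |A| ≤ (L + 1) #{ρ | ρ meets A, ρ ∩ c U = ∅}`, and these rows meet `c U'` but not `c U`, so they
  are counted in the first term for `U'` and not in the one for `U`.
Finally `L |U \ c U| ≤ (L + 1) #{ρ | ρ ∩ c U = ∅}` by `charge` with `A = U \ c U`.
-/

namespace Pool.Agent.H13.PZ

open Finset

/-- the inductive bound -/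
theorem badCount_aux {n : ℕ} (rows : Finset (Finset (Fin n))) (L : ℕ) (l : List (Fin n))
    (hl : l.Nodup) : L * badCount (core rows L) l ≤
      (L + 1) * (rows.filter fun ρ => (ρ ∩ core rows L l.toFinset).Nonempty).card +
        L * (l.toFinset \ core rows L l.toFinset).card := by
  classical
  induction l with
  | nil => simp [badCount]
  | cons x l ih =>
    have hx : x ∉ l := (List.nodup_cons.1 hl).1
    have ih' := ih (List.nodup_cons.1 hl).2
    have hxU : x ∉ l.toFinset := by simpa using hx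
    set U := l.toFinset with hU
    have hcons : (x :: l).toFinset = insert x U := by simp [hU]
    have hmono : core rows L U ⊆ core rows L (insert x U) := core_mono (Finset.subset_insert x U)
    rw [badCount, hcons]
    by_cases hc : x ∈ core rows L (insert x U)
    · rw [if_pos hc, Nat.add_zero]
      set A := core rows L (insert x U) ∩ (U \ core rows L U) with hA
      have hAs : A ⊆ U \ core rows L U := Finset.inter_subset_right
      have hch := charge (rows := rows) (L := L) hAs
      have hcard : (U \ core rows L U).card =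
          A.card + (insert x U \ core rows L (insert x U)).card := by
        rw [← Finset.card_union_of_disjoint]
        · congr 1
          ext z
          simp only [hA, Finset.mem_union, Finset.mem_inter, Finset.mem_sdiff, Finset.mem_insert]
          constructor
          · rintro ⟨h1, h2⟩
            by_cases h3 : z ∈ core rows L (insert x U)
            · exact Or.inl ⟨h3, h1, h2⟩
            · exact Or.inr ⟨Or.inr h1, h3⟩
          · rintro (⟨_, h1, h2⟩ | ⟨h1, h2⟩)
            · exact ⟨h1, h2⟩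
            · rcases h1 with h1 | h1
              · exact absurd (h1 ▸ hc) h2
              · exact ⟨h1, fun h3 => h2 (hmono h3)⟩
        · rw [Finset.disjoint_left]
          intro z hz hz2
          exact (Finset.mem_sdiff.1 hz2).2 (Finset.mem_inter.1 hz).1
      have hrows : (rows.filter fun ρ => (ρ ∩ core rows L U).Nonempty).card +
          (rows.filter fun ρ => (ρ ∩ A).Nonempty ∧ ρ ∩ core rows L U = ∅).card ≤
          (rows.filter fun ρ => (ρ ∩ core rows L (insert x U)).Nonempty).card := by
        rw [← Finset.card_union_of_disjoint]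
        · refine Finset.card_le_card ?_
          intro ρ hρ
          rcases Finset.mem_union.1 hρ with hρ | hρ
          · obtain ⟨h1, h2⟩ := Finset.mem_filter.1 hρ
            exact Finset.mem_filter.2 ⟨h1, h2.mono (Finset.inter_subset_inter_left hmono)⟩
          · obtain ⟨h1, h2, _⟩ := Finset.mem_filter.1 hρ
            exact Finset.mem_filter.2 ⟨h1, h2.mono
              (Finset.inter_subset_inter_left Finset.inter_subset_left)⟩
        · rw [Finset.disjoint_left]
          intro ρ h1 h2
          have h3 := (Finset.mem_filter.1 h1).2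
          have h4 := (Finset.mem_filter.1 h2).2.2
          rw [h4] at h3
          exact Finset.not_nonempty_empty h3
      have e1 := Nat.mul_le_mul_left (L + 1) hrows
      have e2 : L * (U \ core rows L U).card =
          L * A.card + L * (insert x U \ core rows L (insert x U)).card := by
        rw [hcard]; ring
      rw [Nat.mul_add] at e1
      omega
    · rw [if_neg hc]
      have hsub : core rows L (insert x U) ⊆ U := by
        intro z hz
        have := core_subset rows L (insert x U) hz
        rcases Finset.mem_insert.1 this with h | h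
        · exact absurd (h ▸ hz) hc
        · exact h
      have heq : core rows L (insert x U) = core rows L U :=
        Finset.Subset.antisymm (subset_core (core_good rows L _) hsub) hmono
      rw [heq]
      have hxc : x ∉ core rows L U := fun h => hxU (core_subset rows L U h)
      have hcard : (insert x U \ core rows L U).card = (U \ core rows L U).card + 1 := by
        rw [Finset.insert_sdiff_of_notMem _ hxc, Finset.card_insert_of_notMem]
        exact fun h => hxU (Finset.mem_sdiff.1 h).1
      rw [hcard]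
      have e1 : L * (badCount (core rows L) l + 1) = L * badCount (core rows L) l + L := by ring
      have e2 : L * ((U \ core rows L U).card + 1) = L * (U \ core rows L U).card + L := by ring
      omega

theorem badCount_le {n : ℕ} (rows : Finset (Finset (Fin n))) (L : ℕ) (l : List (Fin n))
    (hl : l.Nodup) : L * badCount (core rows L) l ≤ (L + 1) * rows.card := by
  classical
  have h1 := badCount_aux rows L l hl
  set U := l.toFinset with hU
  have h2 := charge (rows := rows) (L := L) (U := U) (A := U \ core rows L U) (Finset.Subset.refl _)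
  have h3 : (rows.filter fun ρ => (ρ ∩ core rows L U).Nonempty).card +
      (rows.filter fun ρ => (ρ ∩ (U \ core rows L U)).Nonempty ∧ ρ ∩ core rows L U = ∅).card ≤
      rows.card := by
    rw [← Finset.card_union_of_disjoint]
    · refine Finset.card_le_card ?_
      intro ρ hρ
      rcases Finset.mem_union.1 hρ with hρ | hρ
      · exact (Finset.mem_filter.1 hρ).1
      · exact (Finset.mem_filter.1 hρ).1
    · rw [Finset.disjoint_left]
      intro ρ h1 h2
      have h3 := (Finset.mem_filter.1 h1).2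
      have h4 := (Finset.mem_filter.1 h2).2.2
      rw [h4] at h3
      exact Finset.not_nonempty_empty h3
  have h4 := Nat.mul_le_mul_left (L + 1) h3
  rw [Nat.mul_add] at h4
  omega

end Pool.Agent.H13.PZ

end S_Tel

section S_Bda

/-!
# Boundary: counting

Let `c v` be the number of `i ∈ J` with `v ∈ V i`, and `X = J.biUnion V`. Then
`∑ i ∈ J, (V i).card = ∑ v ∈ X, c v` (double counting), `c v ≥ 1` on `X`, and `c v = 1` on `X`
exactly on the boundary; so `∑ v ∈ X, c v ≥ 2 |X| - |bdry|`.
If `J = J₁ ∪ J₂` (disjoint) and every `V i`, `i ∈ J₁`, is disjoint from every `V j`, `j ∈ J₂`, then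
a point `v` of the union of the first kind has `c_J v = c_{J₁} v`, `c_{J₂} v = 0` and conversely;
so `bdry J` is the disjoint union of `bdry J₁` and `bdry J₂`.
-/

namespace Pool.Agent.H13.PZ

open Finset

theorem bdry_subset {n : ℕ} {ι : Type} [DecidableEq ι] (V : ι → Finset (Fin n))
    (J : Finset ι) : bdry V J ⊆ J.biUnion V := by
  unfold bdry
  intro v hv
  simp only [Finset.mem_filter] at hv
  have h1 : (J.filter fun i => v ∈ V i).Nonempty := by
    rw [← Finset.card_pos]; omega
  obtain ⟨i, hi⟩ := h1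
  rw [Finset.mem_filter] at hi
  exact Finset.mem_biUnion.2 ⟨i, hi.1, hi.2⟩

theorem two_mul_card_le {n : ℕ} {ι : Type} [DecidableEq ι] (V : ι → Finset (Fin n))
    (J : Finset ι) :
    2 * (J.biUnion V).card ≤ (bdry V J).card + ∑ i ∈ J, (V i).card := by
  have h1 : ∑ i ∈ J, (V i).card = ∑ v ∈ J.biUnion V, (J.filter fun i => v ∈ V i).card := by
    have h2 : ∀ i ∈ J, (V i).card = ∑ v ∈ J.biUnion V, if v ∈ V i then 1 else 0 := by
      intro i hi
      rw [← Finset.card_filter]
      congr 1
      ext v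
      rw [Finset.mem_filter, Finset.mem_biUnion]
      constructor
      · intro h; exact ⟨⟨i, hi, h⟩, h⟩
      · intro h; exact h.2
    rw [Finset.sum_congr rfl h2, Finset.sum_comm]
    refine Finset.sum_congr rfl fun v _ => ?_
    rw [← Finset.card_filter]
  have h3 : (bdry V J).card = ∑ v ∈ J.biUnion V, if v ∈ bdry V J then 1 else 0 := by
    rw [← Finset.card_filter]
    congr 1
    ext v
    rw [Finset.mem_filter]
    exact ⟨fun h => ⟨bdry_subset V J h, h⟩, fun h => h.2⟩
  rw [h1, h3, ← Finset.sum_add_distrib, mul_comm, ← smul_eq_mul, ← Finset.sum_const]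
  refine Finset.sum_le_sum fun v hv => ?_
  have h4 : 0 < (J.filter fun i => v ∈ V i).card := by
    rw [Finset.card_pos]
    obtain ⟨i, hi, hvi⟩ := Finset.mem_biUnion.1 hv
    exact ⟨i, Finset.mem_filter.2 ⟨hi, hvi⟩⟩
  by_cases h5 : (J.filter fun i => v ∈ V i).card = 1
  · have : v ∈ bdry V J := by unfold bdry; exact Finset.mem_filter.2 ⟨Finset.mem_univ _, h5⟩
    rw [if_pos this, h5]
  · omega

theorem bdry_add {n : ℕ} {ι : Type} [DecidableEq ι] (V : ι → Finset (Fin n))
    (J₁ J₂ : Finset ι) (hd : Disjoint J₁ J₂)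
    (h : ∀ i ∈ J₁, ∀ j ∈ J₂, Disjoint (V i) (V j)) :
    (bdry V (J₁ ∪ J₂)).card = (bdry V J₁).card + (bdry V J₂).card := by
  have hkey : ∀ v, ((J₁ ∪ J₂).filter fun i => v ∈ V i).card =
      (J₁.filter fun i => v ∈ V i).card + (J₂.filter fun i => v ∈ V i).card := by
    intro v
    rw [Finset.filter_union, Finset.card_union_of_disjoint]
    exact Finset.disjoint_filter_filter hd
  have hor : ∀ v, (J₁.filter fun i => v ∈ V i).card = 0 ∨
      (J₂.filter fun i => v ∈ V i).card = 0 := by
    intro v
    by_contra hc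
    push Not at hc
    obtain ⟨i, hi⟩ := Finset.card_pos.1 (Nat.pos_of_ne_zero hc.1)
    obtain ⟨j, hj⟩ := Finset.card_pos.1 (Nat.pos_of_ne_zero hc.2)
    rw [Finset.mem_filter] at hi hj
    exact (Finset.disjoint_left.1 (h i hi.1 j hj.1)) hi.2 hj.2
  rw [← Finset.card_union_of_disjoint]
  · congr 1
    ext v
    unfold bdry
    simp only [Finset.mem_union, Finset.mem_filter, Finset.mem_univ, true_and]
    have h1 := hkey v
    have h2 := hor v
    constructor
    · intro h3
      rw [h1] at h3
      omega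
    · intro h3
      rw [h1]
      omega
  · rw [Finset.disjoint_left]
    intro v hv1 hv2
    unfold bdry at hv1 hv2
    simp only [Finset.mem_filter, Finset.mem_univ, true_and] at hv1 hv2
    have h2 := hor v
    omega

end Pool.Agent.H13.PZ

end S_Bda

section S_Bdc

/-!
# Boundary of connected subsystems

`J ⊆ I` is nonempty and connected: it has no nonempty proper subset `J₁` such that all `V i`,
`i ∈ J₁`, are disjoint from all `V j`, `j ∈ J \ J₁`. Let `X = J.biUnion V`, `x = |X|`, `s = |J|`,
`e = ∑ i ∈ J, |V i| = ∑ i ∈ J, |V i ∩ X|`, `b = |bdry V J|`. Then `x ≤ k s`, `s + x ≤ (k + 1) s ≤ N₀`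
and `2 x ≤ b + e` (`two_mul_card_le`), `2 s ≤ e`.

Case `s + x ≤ 16 L k`: by `forest` (`X ⊆ K`) `e + 1 ≤ s + x`, so
`b ≥ 2 x - e ≥ 2 (e + 1 - s) - e = e + 2 - 2 s ≥ 2`, and `s ≤ 16 L k ≤ 8 L k b`.

Case `s + x > 16 L k`: let `B = {i ∈ J | 3 ≤ |V i|}`, `t = |B|`.
(A) For `v ∈ X` let `J₁ = {i ∈ J | some u ∈ V i is reachable from v in G}`; it is nonempty. If no
`i ∈ J₁` lies in `B` then all `V i`, `i ∈ J₁`, have two elements, which are adjacent, so all
elements of `V i` are reachable from `v`; no element of `V j`, `j ∈ J \ J₁`, is reachable; so all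
these `V i` and `V j` are disjoint, and by connectedness `J₁ = J`.
(B) `t ≥ 1`: otherwise by (A), for one `v ∈ X`, all elements of `X` are reachable from `v`, so
`x ≤ L` (`small`, `X ⊆ K`). By `sparse`, `2 q s ≤ (q + 1) (s + x)`, so `(q - 1) s ≤ (q + 1) x` and
`s ≤ 2 x` because `q ≥ 3`. So `s + x ≤ 3 L ≤ 16 L k`, a contradiction.
(C) `x ≤ L k t`: by (A) and `t ≥ 1` every `v ∈ X` is reachable from some `u ∈ V i`, `i ∈ B` (if
`J₁ ∩ B = ∅` then `J₁ = J ⊇ B`, impossible as `B` is nonempty; reachability is symmetric), so `X` is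
covered by the at most `k t` sets `Q` (of at most `L` elements) of the elements of `V i`, `i ∈ B`.
(D) Put `s₂ = |J \ B|`. `sparse` for `J \ B`: `2 q s₂ ≤ (q + 1) (s₂ + x)` so `s₂ ≤ 2 x`, and
`s = t + s₂ ≤ t + 2 L k t ≤ 3 L k t`.
(E) `e ≥ 2 s + t`. `sparse`: `q e ≤ (q + 1) (s + x)`. With `2 x ≤ b + e`:
`(q + 1) b ≥ 2 (q + 1) x - (q + 1) e ≥ 2 q e - 2 (q + 1) s - (q + 1) e = (q - 1) e - 2 (q + 1) s
≥ (q - 1) (2 s + t) - 2 (q + 1) s = (q - 1) t - 4 s ≥ (q - 1 - 12 L k) t`.
If `2 b ≤ t - 1` then `(q + 1) (t - 1) ≥ 2 (q - 1 - 12 L k) t`, so `(24 L k + 3 - q) t ≥ q + 1`,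
impossible since `q ≥ 28 L k ≥ 24 L k + 4`. So `t ≤ 2 b`.
(F) `s ≤ 3 L k t ≤ 6 L k b ≤ 8 L k b`. `16 L k < s + x ≤ 4 L k t` so `t ≥ 5`, `b ≥ 3 ≥ 2`.
-/

namespace Pool.Agent.H13.PZ

open Finset

theorem bdry_connected {n : ℕ} {ι : Type} [DecidableEq ι] {V : ι → Finset (Fin n)}
    {I : Finset ι} {G : SimpleGraph (Fin n)} {K : Finset (Fin n)} {k L q N₀ : ℕ}
    (h : SpSys V I G K k L q N₀) (hk : 1 ≤ k) (hL : 1 ≤ L) (hq : 28 * L * k ≤ q)
    (J : Finset ι) (hJ : J ⊆ I) (hne : J.Nonempty) (hN : (k + 1) * J.card ≤ N₀)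
    (hconn : ∀ J₁ ⊆ J, J₁.Nonempty → J₁ ≠ J →
      ∃ i ∈ J₁, ∃ j ∈ J \ J₁, ¬ Disjoint (V i) (V j)) :
    2 ≤ (bdry V J).card ∧ J.card ≤ 8 * L * k * (bdry V J).card := by
  classical
  have h2x := two_mul_card_le V J
  have hXK : J.biUnion V ⊆ K := by
    intro v hv
    obtain ⟨i, hi, hvi⟩ := Finset.mem_biUnion.1 hv
    exact h.sub i (hJ hi) hvi
  have hVX : ∀ i ∈ J, V i ∩ J.biUnion V = V i := by
    intro i hi
    exact Finset.inter_eq_left.2 (fun v hv => Finset.mem_biUnion.2 ⟨i, hi, hv⟩)
  have hxle : (J.biUnion V).card ≤ J.card * k :=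
    Finset.card_biUnion_le_card_mul _ _ _ (fun i hi => h.le_k i (hJ hi))
  have hsum : ∀ J' ⊆ J, ∑ i ∈ J', (V i ∩ J.biUnion V).card = ∑ i ∈ J', (V i).card := by
    intro J' hJ'
    exact Finset.sum_congr rfl (fun i hi => by rw [hVX i (hJ' hi)])
  have h2e : ∀ J' ⊆ J, 2 * J'.card ≤ ∑ i ∈ J', (V i).card := by
    intro J' hJ'
    have := Finset.card_nsmul_le_sum J' (fun i => (V i).card) 2
      (fun i hi => h.two_le i (hJ (hJ' hi)))
    simpa [mul_comm] using this
  have hspos : 0 < J.card := Finset.card_pos.2 hne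
  have hsN : J.card + (J.biUnion V).card ≤ N₀ := by
    refine le_trans ?_ hN
    have h5 : (k + 1) * J.card = J.card * k + J.card := by ring
    omega
  have hLk : 1 ≤ L * k := Nat.mul_pos hL hk
  have hq28 : 28 * (L * k) ≤ q := by
    have e1 : 28 * L * k = 28 * (L * k) := by ring
    omega
  -- sparse consequence: `|J'| ≤ 2 x`
  have hsp2 : ∀ J' ⊆ J, J'.card ≤ 2 * (J.biUnion V).card := by
    intro J' hJ'
    have h1 := h.sparse J' (hJ'.trans hJ) (J.biUnion V)
      ((Nat.add_le_add_right (Finset.card_le_card hJ') _).trans hsN)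
    rw [hsum J' hJ'] at h1
    have h2 := h2e J' hJ'
    have h3 : q * (2 * J'.card) ≤ (q + 1) * (J'.card + (J.biUnion V).card) :=
      (Nat.mul_le_mul_left q h2).trans h1
    obtain ⟨q', hq'⟩ : ∃ q', q = q' + 3 := ⟨q - 3, by omega⟩
    subst hq'
    by_contra hcon
    push Not at hcon
    have h4 : (q' + 3 + 1) * (2 * (J.biUnion V).card + 1) ≤ (q' + 3 + 1) * J'.card :=
      Nat.mul_le_mul_left _ hcon
    have h5 : 0 ≤ q' * J'.card := Nat.zero_le _
    linarith
  set X := J.biUnion V with hX
  set b := (bdry V J).card with hb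
  have hL8 : 8 * L * k = 8 * (L * k) := by ring
  rw [hL8]
  by_cases hcase : J.card + X.card ≤ 16 * L * k
  · have h1 := h.forest J hJ X hXK (by omega) hcase
    rw [hsum J (Finset.Subset.refl _)] at h1
    have h2 := h2e J (Finset.Subset.refl _)
    have hb2 : 2 ≤ b := by omega
    refine ⟨hb2, ?_⟩
    have h3 : 16 * L * k = 8 * (L * k) * 2 := by ring
    have h4 : 8 * (L * k) * 2 ≤ 8 * (L * k) * b := Nat.mul_le_mul_left _ hb2
    omega
  · push Not at hcase
    have h16 : 16 * L * k = 16 * (L * k) := by ring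
    rw [h16] at hcase
    -- the reachable members
    have hA : ∀ v ∈ X, (∀ i ∈ J, (∃ u ∈ V i, G.Reachable v u) → (V i).card < 3) →
        ∀ i ∈ J, ∃ u ∈ V i, G.Reachable v u := by
      intro v hv hlt
      obtain ⟨i0, hi0, hvi0⟩ := Finset.mem_biUnion.1 hv
      by_contra hcon
      push Not at hcon
      obtain ⟨j0, hj0, hj0'⟩ := hcon
      obtain ⟨i, hi, j, hj, hij⟩ := hconn (J.filter (fun i => ∃ u ∈ V i, G.Reachable v u))
        (Finset.filter_subset _ _)
        ⟨i0, Finset.mem_filter.2 ⟨hi0, v, hvi0, SimpleGraph.Reachable.refl _⟩⟩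
        (by
          intro heq
          have : j0 ∈ J.filter (fun i => ∃ u ∈ V i, G.Reachable v u) := by
            rw [heq]; exact hj0
          obtain ⟨_, u, hu, hr⟩ := Finset.mem_filter.1 this
          exact hj0' u hu hr)
      obtain ⟨hiJ, u, hu, hr⟩ := Finset.mem_filter.1 hi
      obtain ⟨hjJ, hj2⟩ := Finset.mem_sdiff.1 hj
      obtain ⟨w, hwi, hwj⟩ := Finset.not_disjoint_iff.1 hij
      have hc2 : (V i).card = 2 := by
        have := hlt i hiJ ⟨u, hu, hr⟩
        have := h.two_le i (hJ hiJ)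
        omega
      have hrw : G.Reachable v w := by
        by_cases huw : u = w
        · rw [← huw]; exact hr
        · exact hr.trans (h.adj i (hJ hiJ) hc2 u hu w hwi huw).reachable
      exact hj2 (Finset.mem_filter.2 ⟨hjJ, w, hwj, hrw⟩)
    set B := J.filter (fun i => 3 ≤ (V i).card) with hB
    have hBJ : B ⊆ J := Finset.filter_subset _ _
    have hBne : B.Nonempty := by
      by_contra hBe
      rw [Finset.not_nonempty_iff_eq_empty] at hBe
      have hall : ∀ i ∈ J, (V i).card < 3 := by
        intro i hi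
        by_contra hcon
        push Not at hcon
        have : i ∈ B := Finset.mem_filter.2 ⟨hi, hcon⟩
        rw [hBe] at this
        exact absurd this (Finset.notMem_empty _)
      obtain ⟨i0, hi0⟩ := hne
      have hV0 : (V i0).Nonempty := Finset.card_pos.1 (by have := h.two_le i0 (hJ hi0); omega)
      obtain ⟨v, hv⟩ := hV0
      have hvX : v ∈ X := Finset.mem_biUnion.2 ⟨i0, hi0, hv⟩
      have hr := hA v hvX (fun i hi _ => hall i hi)
      obtain ⟨Q, hQL, hQ⟩ := h.small v (hXK hvX)
      have hXQ : X ⊆ Q := by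
        intro w hw
        obtain ⟨j, hj, hwj⟩ := Finset.mem_biUnion.1 hw
        obtain ⟨u, hu, hru⟩ := hr j hj
        have hc2 : (V j).card = 2 := by
          have := hall j hj
          have := h.two_le j (hJ hj)
          omega
        apply hQ
        by_cases huw : u = w
        · rw [← huw]; exact hru
        · exact hru.trans (h.adj j (hJ hj) hc2 u hu w hwj huw).reachable
      have hxL : X.card ≤ L := (Finset.card_le_card hXQ).trans hQL
      have hs2 := hsp2 J (Finset.Subset.refl _)
      have : L ≤ L * k := Nat.le_mul_of_pos_right L hk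
      omega
    -- (C)
    have hreach : ∀ v ∈ X, ∃ i ∈ B, ∃ u ∈ V i, G.Reachable v u := by
      intro v hv
      by_contra hcon
      push Not at hcon
      have hr := hA v hv (by
        rintro i hi ⟨u, hu, hru⟩
        by_contra h3
        push Not at h3
        exact hcon i (Finset.mem_filter.2 ⟨hi, h3⟩) u hu hru)
      obtain ⟨i, hi⟩ := hBne
      obtain ⟨u, hu, hru⟩ := hr i (hBJ hi)
      exact hcon i hi u hu hru
    choose! Q hQL hQ using h.small
    have hXsub : X ⊆ B.biUnion (fun i => (V i).biUnion Q) := by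
      intro v hv
      obtain ⟨i, hi, u, hu, hru⟩ := hreach v hv
      refine Finset.mem_biUnion.2 ⟨i, hi, Finset.mem_biUnion.2 ⟨u, hu, ?_⟩⟩
      exact hQ u (h.sub i (hJ (hBJ hi)) hu) v hru.symm
    have hxt : X.card ≤ B.card * (k * L) := by
      refine (Finset.card_le_card hXsub).trans ?_
      refine Finset.card_biUnion_le_card_mul _ _ _ (fun i hi => ?_)
      refine (Finset.card_biUnion_le_card_mul _ _ L (fun u hu => hQL u (h.sub i (hJ (hBJ hi)) hu))).trans ?_
      exact Nat.mul_le_mul_right L (h.le_k i (hJ (hBJ hi)))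
    -- (D)
    have hs2 := hsp2 (J \ B) Finset.sdiff_subset
    have hst : (J \ B).card + B.card = J.card := Finset.card_sdiff_add_card_eq_card hBJ
    -- (E)
    have hE : 2 * J.card + B.card ≤ ∑ i ∈ J, (V i).card := by
      have e1 : ∑ i ∈ J \ B, (V i).card + ∑ i ∈ B, (V i).card = ∑ i ∈ J, (V i).card :=
        Finset.sum_sdiff hBJ
      have e2 := h2e (J \ B) Finset.sdiff_subset
      have e3 : 3 * B.card ≤ ∑ i ∈ B, (V i).card := by
        have := Finset.card_nsmul_le_sum B (fun i => (V i).card) 3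
          (fun i hi => (Finset.mem_filter.1 hi).2)
        simpa [mul_comm] using this
      omega
    have hS := h.sparse J hJ X hsN
    rw [hsum J (Finset.Subset.refl _)] at hS
    set e := ∑ i ∈ J, (V i).card with he
    set s := J.card with hs
    set x := X.card with hx
    set t := B.card with ht
    set s₂ := (J \ B).card with hs₂
    obtain ⟨m, hm⟩ : ∃ m, m = L * k := ⟨_, rfl⟩
    have hkL : k * L = m := by rw [hm]; ring
    rw [hkL] at hxt
    rw [← hm] at hLk hq28 hcase ⊢
    have htpos : 0 < t := Finset.card_pos.2 hBne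
    have hs3 : s ≤ 3 * m * t := by
      have h5 : t * 1 ≤ t * m := Nat.mul_le_mul_left _ hLk
      have h6 : 3 * m * t = t * m + t * m + t * m := by ring
      rw [h6]
      omega
    have ht2 : t ≤ 2 * b := by
      by_contra hcon
      push Not at hcon
      have hcon' : 2 * b + 1 ≤ t := hcon
      have z1 : 2 * (x : ℤ) ≤ b + e := by exact_mod_cast h2x
      have z2 : (q : ℤ) * e ≤ (q + 1) * (s + x) := by exact_mod_cast hS
      have z3 : 2 * (s : ℤ) + t ≤ e := by exact_mod_cast hE
      have z4 : (s : ℤ) ≤ 3 * m * t := by exact_mod_cast hs3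
      have z5 : 28 * (m : ℤ) ≤ q := by exact_mod_cast hq28
      have z6 : (1 : ℤ) ≤ m := by exact_mod_cast hLk
      have z7 : (1 : ℤ) ≤ t := by exact_mod_cast htpos
      have z8 : 2 * (b : ℤ) + 1 ≤ t := by exact_mod_cast hcon'
      clear_value e s x t b
      clear h2x hS hE hs3 hq28 hcon hcon' hxt hs2 hst hsN hcase
      have w1 : ((q : ℤ) + 1) * (2 * x) ≤ (q + 1) * (b + e) :=
        mul_le_mul_of_nonneg_left z1 (by linarith)
      have w2 : ((q : ℤ) - 1) * (2 * s + t) ≤ (q - 1) * e :=
        mul_le_mul_of_nonneg_left z3 (by linarith)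
      have w3 : ((q : ℤ) + 1) * (2 * b + 1) ≤ (q + 1) * t :=
        mul_le_mul_of_nonneg_left z8 (by linarith)
      have w4 : ((q : ℤ) - 1) * t - 4 * s ≤ (q + 1) * b := by linarith
      have w5 : ((24 : ℤ) * m + 3 - q) * t ≤ (-1) * t :=
        mul_le_mul_of_nonneg_right (by linarith) (by linarith)
      have w6 : 2 * (((q : ℤ) - 1) * t - 12 * m * t) ≤ (q + 1) * t - (q + 1) := by linarith
      linarith
    constructor
    · by_contra hcon
      push Not at hcon
      have h5 : m * t ≤ m * 2 := Nat.mul_le_mul_left _ (by omega)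
      have h6 : 3 * m * t = m * t + m * t + m * t := by ring
      have h7 : t * m = m * t := by ring
      rw [h6] at hs3
      rw [h7] at hxt
      omega
    · have h5 : m * t ≤ m * (2 * b) := Nat.mul_le_mul_left _ ht2
      have h6 : 3 * m * t = m * t + m * t + m * t := by ring
      have h7 : m * (2 * b) = m * b + m * b := by ring
      have h8 : 8 * m * b = 8 * (m * b) := by ring
      rw [h6] at hs3
      rw [h7] at h5
      rw [h8]
      omega

end Pool.Agent.H13.PZ

end S_Bdc

section S_Bdi

/-!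
# Boundary of all small subsystems

Strong induction on `|J|`. If `J` is connected in the sense of `bdry_connected`, use it. Otherwise
there is a nonempty proper `J₁ ⊆ J` with all `V i`, `i ∈ J₁`, disjoint from all `V j`,
`j ∈ J \ J₁`; use the induction hypothesis for `J₁` and `J \ J₁` and `bdry_add`.
-/

namespace Pool.Agent.H13.PZ

open Finset

theorem bdry_le {n : ℕ} {ι : Type} [DecidableEq ι] {V : ι → Finset (Fin n)}
    {I : Finset ι} {G : SimpleGraph (Fin n)} {K : Finset (Fin n)} {k L q N₀ : ℕ}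
    (h : SpSys V I G K k L q N₀) (hk : 1 ≤ k) (hL : 1 ≤ L) (hq : 28 * L * k ≤ q)
    (J : Finset ι) (hJ : J ⊆ I) (hne : J.Nonempty) (hN : (k + 1) * J.card ≤ N₀) :
    2 ≤ (bdry V J).card ∧ J.card ≤ 8 * L * k * (bdry V J).card := by
  suffices H : ∀ m : ℕ, ∀ J : Finset ι, J.card = m → J ⊆ I → J.Nonempty → (k + 1) * J.card ≤ N₀ →
      2 ≤ (bdry V J).card ∧ J.card ≤ 8 * L * k * (bdry V J).card from H J.card J rfl hJ hne hN
  intro m
  induction m using Nat.strong_induction_on with
  | _ m ih =>
    intro J hJm hJ hne hN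
    by_cases hconn : ∀ J₁ ⊆ J, J₁.Nonempty → J₁ ≠ J →
        ∃ i ∈ J₁, ∃ j ∈ J \ J₁, ¬ Disjoint (V i) (V j)
    · exact bdry_connected h hk hL hq J hJ hne hN hconn
    · push Not at hconn
      obtain ⟨J₁, h1, h1n, h1J, hdis⟩ := hconn
      have hss : J₁ ⊂ J := Finset.ssubset_iff_subset_ne.mpr ⟨h1, h1J⟩
      have hc1 : J₁.card < J.card := Finset.card_lt_card hss
      have h2n : (J \ J₁).Nonempty := Finset.sdiff_nonempty.mpr hss.2
      have hcs : (J \ J₁).card + J₁.card = J.card := Finset.card_sdiff_add_card_eq_card h1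
      have hc1p : 0 < J₁.card := h1n.card_pos
      have hc2 : (J \ J₁).card < J.card := by omega
      have hN1 : (k + 1) * J₁.card ≤ N₀ :=
        le_trans (Nat.mul_le_mul_left _ hc1.le) hN
      have hN2 : (k + 1) * (J \ J₁).card ≤ N₀ :=
        le_trans (Nat.mul_le_mul_left _ hc2.le) hN
      obtain ⟨a1, a2⟩ := ih J₁.card (by omega) J₁ rfl (h1.trans hJ) h1n hN1
      obtain ⟨b1, b2⟩ := ih (J \ J₁).card (by omega) (J \ J₁) rfl
        (Finset.sdiff_subset.trans hJ) h2n hN2
      have hu : J₁ ∪ (J \ J₁) = J := Finset.union_sdiff_of_subset h1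
      have hadd := bdry_add V J₁ (J \ J₁) Finset.disjoint_sdiff hdis
      rw [hu] at hadd
      refine ⟨by omega, ?_⟩
      rw [hadd, Nat.mul_add]
      omega

end Pool.Agent.H13.PZ

end S_Bdi

section S_Par

/-!
# The parity system on a good set

`K` good, `x ∈ K`. Index set: the rows `ρ` (tag `inl`) that meet `K`, with `V = ρ ∩ K`, and the
triples `t ⊆ K` (tag `inr`), with `V = t`.
`SpSys` (with `G = pairGraph rows K`):
* `two_le`: `ρ ∩ K` is nonempty and has not card `1`. A triple `t ⊆ K` has card `3`: otherwise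
  `trip_card` gives `v ∈ t ⊆ K` with `{v} ∈ rows`, and `({v} ∩ K).card = 1`, against `K` good.
* `le_k`: `row_card`, `3 ≤ k`. `adj`: `(ρ ∩ K).card = 2` and `u ≠ v` in `ρ ∩ K` give
  `ρ ∩ K = {u, v}`; a triple has card `3`. `small`: `Good.small`.
* `sparse`: with `S = J.toLeft`, `T = J.toRight` (`Finset.toLeft`, `Finset.toRight`):
  `∑ i ∈ J, |V i ∩ X| ≤ ∑ ρ ∈ S, |ρ ∩ X| + ∑ t ∈ T, |t ∩ X|`, the rows in `S` have card `≥ 2`; use
  `Sys.sparse`. `forest`: the same with `Sys.forest`; for `v ∈ X ⊆ K`, `{v} ∉ rows` as `K` is good.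
Then `bd` is `bdry_le`. `cl`: let `C = rowClause ρ v`, `v ∈ ρ`. If `v ∉ K` every `a` in `InH K x` has
`a v = true` and satisfies `C`. If `v ∈ K` take `i = inl ρ`: `C` falsified means
`ρ ∩ zeros a = {v}`, so `(ρ ∩ K) ∩ zeros a = {v}` has card `1`. Let `C = posClause t`. If `t ⊆ K`
take `inr t`: falsified means `t ⊆ zeros a`, so `t ∩ zeros a = t` has card `3`. Otherwise some
`v ∈ t` is not in `K`, `a v = true`, and `C` is satisfied.
-/

namespace Pool.Agent.H13.PZ

open Finset

open Classical in
theorem Par_sum {n : ℕ} {K X : Finset (Fin n)} (J : Finset (Finset (Fin n) ⊕ Finset (Fin n))) :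
    ∑ i ∈ J, ((Sum.elim (fun ρ => ρ ∩ K) id i : Finset (Fin n)) ∩ X).card ≤
      ∑ ρ ∈ J.toLeft, (ρ ∩ X).card + ∑ t ∈ J.toRight, (t ∩ X).card := by
  rw [Finset.sum_sum_eq_sum_toLeft_add_sum_toRight J]
  refine Nat.add_le_add (Finset.sum_le_sum fun ρ _ => ?_) (Finset.sum_le_sum fun t _ => le_rfl)
  exact card_le_card (inter_subset_inter_right inter_subset_left)

open Classical in
theorem parSys {n k L q N₀ m : ℕ} {rows trips : Finset (Finset (Fin n))}
    (h : Sys rows trips k q (16 * L * k) N₀) (hk : 3 ≤ k) (hL : 1 ≤ L) (hq : 28 * L * k ≤ q)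
    (hm : (k + 1) * (2 * m + 1) ≤ N₀) {K : Finset (Fin n)} (hK : Good rows L K) {x : Fin n}
    (hx : x ∈ K) :
    ParSys (formula rows trips) K x
      ((rows.filter fun ρ => (ρ ∩ K).Nonempty).disjSum (trips.filter fun t => t ⊆ K))
      (Sum.elim (fun ρ => ρ ∩ K) id) m (8 * L * k) := by
  have hrow : ∀ ρ ∈ rows, (ρ ∩ K).Nonempty → 2 ≤ (ρ ∩ K).card := by
    intro ρ hρ hne
    have h1 := hK.ne_one ρ hρ
    have h2 := hne.card_pos
    omega
  have hnoK : ∀ v ∈ K, {v} ∉ rows := by
    intro v hv hmem
    apply hK.ne_one _ hmem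
    rw [singleton_inter_of_mem hv, card_singleton]
  have htrip : ∀ t ∈ trips, t ⊆ K → t.card = 3 := by
    intro t ht htK
    rcases (h.trip_card t ht).2.2 with h3 | ⟨v, hv, hmem⟩
    · exact h3
    · exact absurd hmem (hnoK v (htK hv))
  have hI : ∀ {J : Finset (Finset (Fin n) ⊕ Finset (Fin n))},
      J ⊆ (rows.filter fun ρ => (ρ ∩ K).Nonempty).disjSum (trips.filter fun t => t ⊆ K) →
      J.toLeft ⊆ rows ∧ J.toRight ⊆ trips ∧ ∀ ρ ∈ J.toLeft, 2 ≤ ρ.card := by
    intro J hJ
    refine ⟨fun ρ hρ => ?_, fun t ht => ?_, fun ρ hρ => ?_⟩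
    · have := hJ (mem_toLeft.1 hρ)
      rw [inl_mem_disjSum, mem_filter] at this
      exact this.1
    · have := hJ (mem_toRight.1 ht)
      rw [inr_mem_disjSum, mem_filter] at this
      exact this.1
    · have := hJ (mem_toLeft.1 hρ)
      rw [inl_mem_disjSum, mem_filter] at this
      exact (hrow ρ this.1 this.2).trans (card_le_card inter_subset_left)
  have hsp : SpSys (Sum.elim (fun ρ => ρ ∩ K) id)
      ((rows.filter fun ρ => (ρ ∩ K).Nonempty).disjSum (trips.filter fun t => t ⊆ K))
      (pairGraph rows K) K k L q N₀ := by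
    refine ⟨?_, ?_, ?_, ?_, hK.small, ?_, ?_⟩
    · rintro (ρ | t) hi
      · rw [inl_mem_disjSum, mem_filter] at hi
        exact hrow ρ hi.1 hi.2
      · rw [inr_mem_disjSum, mem_filter] at hi
        change 2 ≤ t.card
        rw [htrip t hi.1 hi.2]
        norm_num
    · rintro (ρ | t) hi
      · rw [inl_mem_disjSum, mem_filter] at hi
        exact (card_le_card inter_subset_left).trans (h.row_card ρ hi.1).2
      · rw [inr_mem_disjSum, mem_filter] at hi
        exact (h.trip_card t hi.1).2.1.trans hk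
    · rintro (ρ | t) hi
      · exact inter_subset_right
      · rw [inr_mem_disjSum, mem_filter] at hi
        exact hi.2
    · rintro (ρ | t) hi hc u hu v hv huv
      · rw [inl_mem_disjSum, mem_filter] at hi
        refine pairGraph_adj.2 ⟨huv, ρ, hi.1, ?_⟩
        change (ρ ∩ K).card = 2 at hc
        change u ∈ ρ ∩ K at hu
        change v ∈ ρ ∩ K at hv
        symm
        refine eq_of_subset_of_card_le ?_ ?_
        · intro w hw
          rcases mem_insert.1 hw with rfl | hw
          · exact hu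
          · rw [mem_singleton.1 hw]
            exact hv
        · rw [hc, card_pair huv]
      · rw [inr_mem_disjSum, mem_filter] at hi
        change t.card = 2 at hc
        rw [htrip t hi.1 hi.2] at hc
        omega
    · intro J hJ X hX
      obtain ⟨h1, h2, h3⟩ := hI hJ
      have hc : J.toLeft.card + J.toRight.card = J.card := card_toLeft_add_card_toRight
      have := h.sparse J.toLeft h1 J.toRight h2 X h3 (by rw [hc]; exact hX)
      rw [hc] at this
      exact (Nat.mul_le_mul_left q (Par_sum J)).trans this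
    · intro J hJ X hXK h0 hle
      obtain ⟨h1, h2, h3⟩ := hI hJ
      have hc : J.toLeft.card + J.toRight.card = J.card := card_toLeft_add_card_toRight
      have := h.forest J.toLeft h1 J.toRight h2 X h3 (fun v hv => hnoK v (hXK hv))
        (by rw [hc]; exact h0) (by rw [hc]; exact hle)
      rw [hc] at this
      exact (Nat.add_le_add_right (Par_sum J) 1).trans this
  refine ⟨hx, hsp.sub, ?_, ?_⟩
  · intro J hJ hne hcard
    exact bdry_le hsp (by omega) hL hq J hJ hne ((Nat.mul_le_mul_left _ hcard).trans hm)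
  · intro C hC
    rcases mem_formula.1 hC with ⟨ρ, hρ, v, hv, rfl⟩ | ⟨t, ht, rfl⟩
    · by_cases hvK : v ∈ K
      · right
        refine ⟨Sum.inl ρ, ?_, fun a _ hun => ?_⟩
        · rw [inl_mem_disjSum, mem_filter]
          exact ⟨hρ, v, mem_inter.2 ⟨hv, hvK⟩⟩
        · have h1 := (rowClause_unsat hv a).1 hun
          change Odd ((ρ ∩ K) ∩ zeros a).card
          rw [inter_right_comm, h1, singleton_inter_of_mem hvK, card_singleton]
          exact odd_one
      · left
        intro a ha
        exact ⟨(v, true), mem_insert_self _ _, ha.1 v hvK⟩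
    · by_cases htK : t ⊆ K
      · right
        refine ⟨Sum.inr t, ?_, fun a _ hun => ?_⟩
        · rw [inr_mem_disjSum, mem_filter]
          exact ⟨ht, htK⟩
        · have h1 := (posClause_unsat t a).1 hun
          change Odd (t ∩ zeros a).card
          rw [inter_eq_left.2 h1, htrip t ht htK]
          decide
      · left
        intro a ha
        obtain ⟨v, hv, hvK⟩ := not_subset.1 htK
        exact ⟨(v, true), mem_image.2 ⟨v, hv, rfl⟩, ha.1 v hvK⟩

end Pool.Agent.H13.PZ

end S_Par

section S_Loc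

/-!
# Local reasoning does not infer `x`

Say that `J ⊆ I` implies `P` if every `a` in `InH K x` with `(V i ∩ zeros a).card` even for all
`i ∈ J` satisfies `P`. All `a` in `InH K x` extend `α`.
(1) Boundary: if `J ⊆ I` implies `P` and no proper subset of `J` does, then `P` depends on every
`v ∈ bdry V J`, `v ≠ x`: if `W` is a set as in `Narrow` for `P` then `v ∈ W`. Indeed let `i ∈ J` be
the only index in `J` with `v ∈ V i`. `J.erase i` does not imply `P`: there is `a` in `InH K x`,
even on all `j ∈ J`, `j ≠ i`, with `¬ P a`. It is odd on `i`. Flip `v`: `a' = update a v (!a v)` lies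
in `InH K x` (`v ∈ V i ⊆ K`, `v ≠ x`), it is even on `i` (`v ∈ V i`) and unchanged on the others.
So `P a'`. If `v ∉ W` then `P a ↔ P a'`, a contradiction. So `(bdry V J).card ≤ w + 1`.
(2) Every derived `P` is implied by some `J ⊆ I` with `|J| ≤ m`. Base: each of the at most `w ≤ m`
clauses of `G` is satisfied on `InH K x` or falsified only where one parity constraint fails
(`ParSys.cl`); take these constraints. Step: the union `J` for `P` and `Q` implies `R` and has at
most `2 m` elements; take a minimal subset of `J` that implies `R`; it is empty or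
`|J| ≤ Γ |bdry| ≤ Γ (w + 1) ≤ m` by (1) and `ParSys.bd`.
(3) If `a x = true` were derived, some `J`, `|J| ≤ m`, would imply it; take `J` minimal. `J` is not
empty (`InH K x` is not empty: true everywhere but at `x`). The property `False` is what `a x = true`
says on `InH K x`; by (1) with `P` constantly `False` (which `J` also implies minimally, and which
is narrow with `W = ∅`), `bdry V J ⊆ {x}`, against `2 ≤ |bdry|`.
-/

namespace Pool.Agent.H13.PZ

open Finset

/-- the constraints `J` imply `P` -/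
def LocImp {n : ℕ} (K : Finset (Fin n)) (x : Fin n) {ι : Type} (V : ι → Finset (Fin n))
    (J : Finset ι) (P : (Fin n → Bool) → Prop) : Prop :=
  ∀ a, InH K x a → (∀ i ∈ J, Even (V i ∩ zeros a).card) → P a

theorem Loc_zeros_true {n : ℕ} {a : Fin n → Bool} {v : Fin n} (hv : a v = true)
    {W : Finset (Fin n)} (hW : v ∈ W) :
    (W ∩ zeros (Function.update a v (!a v))).card = (W ∩ zeros a).card + 1 := by
  have h : W ∩ zeros (Function.update a v (!a v)) = insert v (W ∩ zeros a) := by
    ext u
    rw [mem_inter, mem_zeros, mem_insert, mem_inter, mem_zeros]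
    by_cases hu : u = v
    · rw [hu, Function.update_self, hv]
      simp [hW]
    · rw [Function.update_of_ne hu]
      simp [hu]
  rw [h, card_insert_of_notMem]
  rw [mem_inter, mem_zeros, hv]
  simp

theorem Loc_flip {n : ℕ} {a : Fin n → Bool} {v : Fin n} {W : Finset (Fin n)} (hW : v ∈ W)
    (ho : ¬ Even (W ∩ zeros a).card) : Even (W ∩ zeros (Function.update a v (!a v))).card := by
  cases hv : a v with
  | true =>
    rw [← hv, Loc_zeros_true hv hW, Nat.even_add_one]
    exact ho
  | false =>
    have h1 : (Function.update a v (!a v)) v = true := by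
      rw [Function.update_self, hv]
      rfl
    have h2 := Loc_zeros_true h1 hW
    have h3 : Function.update (Function.update a v (!a v)) v
        (!(Function.update a v (!a v)) v) = a := by
      rw [Function.update_self, Bool.not_not, Function.update_idem, Function.update_eq_self]
    rw [h3] at h2
    rw [h2, Nat.even_add_one, not_not, hv] at ho
    exact ho

theorem Loc_same {n : ℕ} {a : Fin n → Bool} {v : Fin n} {W : Finset (Fin n)} (hW : v ∉ W) :
    W ∩ zeros (Function.update a v (!a v)) = W ∩ zeros a := by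
  ext u
  rw [mem_inter, mem_inter, mem_zeros, mem_zeros]
  by_cases hu : u = v
  · rw [hu]
    simp [hW]
  · rw [Function.update_of_ne hu]

theorem Loc_bd {n : ℕ} {K : Finset (Fin n)} {x : Fin n} {ι : Type}
    {V : ι → Finset (Fin n)} {J : Finset ι} (hV : ∀ i ∈ J, V i ⊆ K)
    {α : PAss n} (hα : ∀ a, InH K x a → Ext α a) {P : (Fin n → Bool) → Prop} {W : Finset (Fin n)}
    (hJ : LocImp K x V J P) (hmin : ∀ J' ⊂ J, ¬ LocImp K x V J' P)
    (hP : ∀ a a', Ext α a → Ext α a' → (∀ v ∈ W, a v = a' v) → (P a ↔ P a')) :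
    bdry V J ⊆ insert x W := by
  classical
  intro v hv
  rw [mem_insert]
  by_contra hcon
  rw [not_or] at hcon
  obtain ⟨hvx, hvW⟩ := hcon
  unfold bdry at hv
  rw [mem_filter, card_eq_one] at hv
  obtain ⟨_, i, hi⟩ := hv
  have hmem : ∀ j, j ∈ J → v ∈ V j → j = i := by
    intro j hj hvj
    have h1 : j ∈ J.filter (fun i => v ∈ V i) := mem_filter.2 ⟨hj, hvj⟩
    rw [hi, mem_singleton] at h1
    exact h1
  have hiJ : i ∈ J ∧ v ∈ V i := by
    have h1 : i ∈ J.filter (fun i => v ∈ V i) := by
      rw [hi]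
      exact mem_singleton_self i
    exact mem_filter.1 h1
  have h1 := hmin (J.erase i) (erase_ssubset hiJ.1)
  unfold LocImp at h1
  push Not at h1
  obtain ⟨a, ha1, ha2, ha3⟩ := h1
  have hodd : ¬ Even (V i ∩ zeros a).card := by
    intro he
    refine ha3 (hJ a ha1 fun j hj => ?_)
    by_cases hji : j = i
    · rw [hji]
      exact he
    · exact ha2 j (mem_erase.2 ⟨hji, hj⟩)
  have ha' : InH K x (Function.update a v (!a v)) := by
    constructor
    · intro u hu
      have huv : u ≠ v := by
        rintro rfl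
        exact hu (hV i hiJ.1 hiJ.2)
      rw [Function.update_of_ne huv]
      exact ha1.1 u hu
    · rw [Function.update_of_ne (Ne.symm hvx)]
      exact ha1.2
  have hPa' : P (Function.update a v (!a v)) := by
    refine hJ _ ha' fun j hj => ?_
    by_cases hji : j = i
    · rw [hji]
      exact Loc_flip hiJ.2 hodd
    · have hvj : v ∉ V j := fun h => hji (hmem j hj h)
      rw [Loc_same hvj]
      exact ha2 j (mem_erase.2 ⟨hji, hj⟩)
  refine ha3 ((hP a _ (hα a ha1) (hα _ ha') fun u hu => ?_).2 hPa')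
  have huv : u ≠ v := by
    rintro rfl
    exact hvW hu
  rw [Function.update_of_ne huv]

theorem Loc_min {n : ℕ} {K : Finset (Fin n)} {x : Fin n} {ι : Type}
    {V : ι → Finset (Fin n)} {P : (Fin n → Bool) → Prop} (J : Finset ι) (hJ : LocImp K x V J P) :
    ∃ J' ⊆ J, LocImp K x V J' P ∧ ∀ J'' ⊂ J', ¬ LocImp K x V J'' P := by
  induction J using Finset.strongInduction with
  | H J ih =>
    by_cases h : ∃ J'' ⊂ J, LocImp K x V J'' P
    · obtain ⟨J'', h1, h2⟩ := h
      obtain ⟨J', h3, h4⟩ := ih J'' h1 h2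
      exact ⟨J', h3.trans h1.subset, h4⟩
    · push Not at h
      exact ⟨J, Subset.refl _, hJ, h⟩

theorem Loc_all {n : ℕ} {F : CNF n} {K : Finset (Fin n)} {x : Fin n} {ι : Type}
    {I : Finset ι} {V : ι → Finset (Fin n)} {m Γ w : ℕ} (h : ParSys F K x I V m Γ)
    {α : PAss n} (hα : ∀ a, InH K x a → Ext α a) (hw : w ≤ m) (hm : Γ * (w + 1) ≤ m)
    {P : (Fin n → Bool) → Prop} (hP : Local F α w P) :
    ∃ J ⊆ I, J.card ≤ m ∧ LocImp K x V J P := by
  classical
  induction hP with
  | base G P hGF hGw hN hGP =>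
    have h1 : ∀ C, ∃ S : Finset ι, C ∈ G → (S ⊆ I ∧ S.card ≤ 1 ∧
        ∀ a, InH K x a → (∀ i ∈ S, Even (V i ∩ zeros a).card) → ClauseSat a C) := by
      intro C
      by_cases hC : C ∈ G
      · rcases h.cl C (hGF hC) with h2 | ⟨i, hi, h2⟩
        · exact ⟨∅, fun _ => ⟨empty_subset _, by simp, fun a ha _ => h2 a ha⟩⟩
        · refine ⟨{i}, fun _ => ⟨singleton_subset_iff.2 hi, by simp, fun a ha hev => ?_⟩⟩
          by_contra hns
          have h3 := h2 a ha hns
          exact (Nat.not_even_iff_odd.2 h3) (hev i (mem_singleton_self i))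
      · exact ⟨∅, fun h => absurd h hC⟩
    choose S hS using h1
    refine ⟨G.biUnion S, ?_, ?_, ?_⟩
    · intro i hi
      rw [mem_biUnion] at hi
      obtain ⟨C, hC, hi⟩ := hi
      exact (hS C hC).1 hi
    · calc (G.biUnion S).card ≤ ∑ C ∈ G, (S C).card := card_biUnion_le
        _ ≤ ∑ _C ∈ G, 1 := sum_le_sum fun C hC => (hS C hC).2.1
        _ = G.card := by simp
        _ ≤ m := hGw.trans hw
    · intro a ha hev
      refine hGP a (hα a ha) fun C hC => ?_
      exact (hS C hC).2.2 a ha fun i hi => hev i (mem_biUnion.2 ⟨C, hC, hi⟩)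
  | step P Q R _ _ hN hR ih1 ih2 =>
    obtain ⟨J1, h1, h2, h3⟩ := ih1
    obtain ⟨J2, h4, h5, h6⟩ := ih2
    have h7 : LocImp K x V (J1 ∪ J2) R := by
      intro a ha hev
      refine hR a (hα a ha) (h3 a ha fun i hi => hev i (mem_union_left _ hi))
        (h6 a ha fun i hi => hev i (mem_union_right _ hi))
    obtain ⟨J, h8, h9, h10⟩ := Loc_min _ h7
    have hJI : J ⊆ I := h8.trans (union_subset h1 h4)
    refine ⟨J, hJI, ?_, h9⟩
    have hcard : J.card ≤ 2 * m + 1 := by
      have e1 := card_le_card h8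
      have e2 := card_union_le J1 J2
      omega
    rcases J.eq_empty_or_nonempty with he | hne
    · rw [he]
      simp
    · obtain ⟨W, hW1, hW2⟩ := hN
      have h11 := Loc_bd (fun i hi => h.sub i (hJI hi)) hα h9 h10 hW2
      have h12 : (bdry V J).card ≤ w + 1 := by
        have e1 := card_le_card h11
        have e2 := card_insert_le x W
        omega
      have h13 := (h.bd J hJI hne hcard).2
      calc J.card ≤ Γ * (bdry V J).card := h13
        _ ≤ Γ * (w + 1) := Nat.mul_le_mul_left _ h12
        _ ≤ m := hm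

theorem not_local {n : ℕ} {F : CNF n} {K : Finset (Fin n)} {x : Fin n} {ι : Type}
    {I : Finset ι} {V : ι → Finset (Fin n)} {m Γ w : ℕ} (h : ParSys F K x I V m Γ)
    {α : PAss n} (hα : ∀ a, InH K x a → Ext α a) (hw : w ≤ m) (hm : Γ * (w + 1) ≤ m) :
    ¬ Local F α w (fun a => a x = true) := by
  classical
  intro hL
  obtain ⟨J, h1, h2, h3⟩ := Loc_all h hα hw hm hL
  have h4 : LocImp K x V J (fun _ => False) := by
    intro a ha hev
    have h5 : a x = true := h3 a ha hev
    rw [ha.2] at h5
    exact Bool.false_ne_true h5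
  obtain ⟨J', h5, h6, h7⟩ := Loc_min _ h4
  have hJI : J' ⊆ I := h5.trans h1
  have hne : J'.Nonempty := by
    rw [nonempty_iff_ne_empty]
    rintro rfl
    refine h6 (fun v => if v = x then false else true) ⟨?_, by simp⟩ (by simp)
    intro v hv
    have hvx : v ≠ x := by
      rintro rfl
      exact hv h.hx
    simp [hvx]
  have hcard : J'.card ≤ 2 * m + 1 := by
    have := card_le_card h5
    omega
  have h8 := Loc_bd (W := ∅) (fun i hi => h.sub i (hJI hi)) hα h6 h7 (fun _ _ _ _ _ => Iff.rfl)
  have h9 := (h.bd J' hJI hne hcard).1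
  have h10 := card_le_card h8
  simp at h10
  omega

end Pool.Agent.H13.PZ

end S_Loc
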