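import Mathlib
import Pool.Agent.H13.PP.Sys

/-! Solvers of PPSZ type, part Exi (existence of the systems): this file joins several modules to save build time. -/

section S_Num

/-!
# Numerical bounds

(1) `v.choose N ≤ v ^ N / N! ≤ (v / N) ^ N * exp N` (`Nat.choose_le_pow_div`, and
`N ^ N / N! ≤ exp N` from `Real.pow_div_factorial_le_exp`).
(2) `(3 N).choose e ≤ 2 ^ (3 N) = 8 ^ N`.
(3) `N ≤ r` and `q e ≥ (q + 1) N` imply `(N / r) ^ e ≤ (N / r) ^ (N (1 + 1 / q)) =
((N / r) * (N / r) ^ (1 / q)) ^ N` (real powers, base at most `1`).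
Product: at most `(8 exp 1 (v / r) (N / r) ^ (1 / q)) ^ N ≤ (8 exp 1 C δ ^ (1 / q)) ^ N ≤ (1 / 16) ^ N`.
For `e = N`: at most `(8 exp 1 (v / r)) ^ N ≤ (8 exp 1 C) ^ N`.
-/

namespace Pool.Agent.H13.PZ

theorem choose_le_exp {v N : ℕ} (hN : 1 ≤ N) :
    (v.choose N : ℝ) ≤ ((v : ℝ) / N * Real.exp 1) ^ N := by
  have h1 : (v.choose N : ℝ) ≤ (v : ℝ) ^ N / (N.factorial : ℝ) := Nat.choose_le_pow_div N v
  have h2 : (N : ℝ) ^ N / (N.factorial : ℝ) ≤ Real.exp N :=
    Real.pow_div_factorial_le_exp (N : ℝ) (Nat.cast_nonneg N) N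
  have hN0 : (0 : ℝ) < N := by exact_mod_cast hN
  have hf : (0 : ℝ) < (N.factorial : ℝ) := by exact_mod_cast Nat.factorial_pos N
  have h3 : Real.exp 1 ^ N = Real.exp N := by
    rw [← Real.exp_nat_mul, mul_one]
  rw [mul_pow, div_pow, h3]
  refine h1.trans ?_
  have h4 : (v : ℝ) ^ N / (N.factorial : ℝ) =
      (v : ℝ) ^ N / (N : ℝ) ^ N * ((N : ℝ) ^ N / (N.factorial : ℝ)) := by
    have : (N : ℝ) ^ N ≠ 0 := (pow_pos hN0 N).ne'
    field_simp
  rw [h4]
  exact mul_le_mul_of_nonneg_left h2 (by positivity)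

theorem Num_choose (N e : ℕ) : ((3 * N).choose e : ℝ) ≤ 8 ^ N := by
  have h := Nat.choose_le_two_pow (3 * N) e
  have h2 : (2 : ℕ) ^ (3 * N) = 8 ^ N := by
    rw [pow_mul]
    norm_num
  rw [h2] at h
  exact_mod_cast h

theorem num_sparse {C δ : ℝ} {q v r N e : ℕ} (hC : 0 ≤ C) (hδ0 : 0 ≤ δ) (hδ : δ ≤ 1)
    (hq : 1 ≤ q) (hr : 0 < r) (hv : (v : ℝ) ≤ C * r) (hN : 1 ≤ N) (hNr : (N : ℝ) ≤ δ * r)
    (hCδ : 8 * Real.exp 1 * C * δ ^ ((1 : ℝ) / q) ≤ 1 / 16) (he : (q + 1) * N ≤ q * e) :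
    (v.choose N : ℝ) * (((3 * N).choose e : ℝ) * ((N : ℝ) / r) ^ e) ≤ (1 / 16) ^ N := by
  have hN0 : (0 : ℝ) < N := by exact_mod_cast hN
  have hr0 : (0 : ℝ) < r := by exact_mod_cast hr
  have hq0 : (0 : ℝ) < q := by exact_mod_cast hq
  have hx0 : 0 < (N : ℝ) / r := div_pos hN0 hr0
  have hxδ : (N : ℝ) / r ≤ δ := (div_le_iff₀ hr0).2 hNr
  have hx1 : (N : ℝ) / r ≤ 1 := hxδ.trans hδ
  have hδq : 0 ≤ δ ^ ((1 : ℝ) / q) := Real.rpow_nonneg hδ0 _
  have h3 : ((N : ℝ) / r) ^ e ≤ ((N : ℝ) / r * δ ^ ((1 : ℝ) / q)) ^ N := by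
    have a1 : ((N : ℝ) / r) ^ e ≤ ((N : ℝ) / r) ^ ((1 + 1 / (q : ℝ)) * N) := by
      rw [← Real.rpow_natCast]
      refine Real.rpow_le_rpow_of_exponent_ge hx0 hx1 ?_
      have he' : ((q : ℝ) + 1) * N ≤ q * e := by exact_mod_cast he
      have : (1 + 1 / (q : ℝ)) * N = ((q : ℝ) + 1) * N / q := by field_simp
      rw [this, div_le_iff₀ hq0]
      linarith
    have a2 : ((N : ℝ) / r) ^ ((1 + 1 / (q : ℝ)) * N) =
        ((N : ℝ) / r * ((N : ℝ) / r) ^ ((1 : ℝ) / q)) ^ N := by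
      rw [Real.rpow_mul hx0.le, Real.rpow_natCast, Real.rpow_add hx0, Real.rpow_one]
    rw [a2] at a1
    refine a1.trans ?_
    refine pow_le_pow_left₀ (by positivity) ?_ N
    exact mul_le_mul_of_nonneg_left (Real.rpow_le_rpow hx0.le hxδ (by positivity)) hx0.le
  have h1 := choose_le_exp (v := v) hN
  have h2 := Num_choose N e
  have hv0 : (0 : ℝ) ≤ v := Nat.cast_nonneg v
  calc (v.choose N : ℝ) * (((3 * N).choose e : ℝ) * ((N : ℝ) / r) ^ e)
      ≤ ((v : ℝ) / N * Real.exp 1) ^ N * (8 ^ N * ((N : ℝ) / r * δ ^ ((1 : ℝ) / q)) ^ N) := by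
        refine mul_le_mul h1 (mul_le_mul h2 h3 (by positivity) (by positivity)) (by positivity)
          (by positivity)
    _ = (8 * Real.exp 1 * ((v : ℝ) / r) * δ ^ ((1 : ℝ) / q)) ^ N := by
        rw [← mul_pow, ← mul_pow]
        congr 1
        field_simp
    _ ≤ (1 / 16) ^ N := by
        refine pow_le_pow_left₀ (by positivity) ?_ N
        refine le_trans ?_ hCδ
        have hvr : (v : ℝ) / r ≤ C := (div_le_iff₀ hr0).2 hv
        exact mul_le_mul_of_nonneg_right (mul_le_mul_of_nonneg_left hvr (by positivity)) hδq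

theorem num_bad {C : ℝ} {v r N : ℕ} (hC : 0 ≤ C) (hr : 0 < r) (hv : (v : ℝ) ≤ C * r)
    (hN : 1 ≤ N) :
    (v.choose N : ℝ) * (((3 * N).choose N : ℝ) * ((N : ℝ) / r) ^ N) ≤
      (8 * Real.exp 1 * C) ^ N := by
  have hN0 : (0 : ℝ) < N := by exact_mod_cast hN
  have hr0 : (0 : ℝ) < r := by exact_mod_cast hr
  have h1 := choose_le_exp (v := v) hN
  have h2 := Num_choose N N
  have hv0 : (0 : ℝ) ≤ v := Nat.cast_nonneg v
  calc (v.choose N : ℝ) * (((3 * N).choose N : ℝ) * ((N : ℝ) / r) ^ N)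
      ≤ ((v : ℝ) / N * Real.exp 1) ^ N * (8 ^ N * ((N : ℝ) / r) ^ N) := by
        refine mul_le_mul h1 (mul_le_mul_of_nonneg_right h2 (by positivity)) (by positivity)
          (by positivity)
    _ = (8 * Real.exp 1 * ((v : ℝ) / r)) ^ N := by
        rw [← mul_pow, ← mul_pow]
        congr 1
        field_simp
    _ ≤ (8 * Real.exp 1 * C) ^ N := by
        refine pow_le_pow_left₀ (by positivity) ?_ N
        have hvr : (v : ℝ) / r ≤ C := (div_le_iff₀ hr0).2 hv
        exact mul_le_mul_of_nonneg_left hvr (by positivity)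

end Pool.Agent.H13.PZ

end S_Num

section S_PrA

/-!
# Counting slots: a fixed set of nodes

`Ω = (Fin n × Fin 3 → Fin r) × (Fin M × Fin 3 → Fin n)`, `0 < r ≤ n`. For a set `W` of nodes let `O₁`
be the set of `p : Fin n × Fin 3` with `inr (inr p.1) ∈ W` and `O₂` the set of `p : Fin M × Fin 3`
with `inr (inl p.1) ∈ W`; `|O₁| + |O₂| ≤ 3 |W|` (every node in `W` owns at most three of them).
(1) `card_maps`: the number of `f : α → β` with `f p ∈ B` for all `p ∈ E` is
`|B| ^ |E| * |β| ^ (|α| - |E|)` (`Fintype.card_pi` / `Fintype.piFinset`).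
(2) For `E₁ ⊆ O₁`, `E₂ ⊆ O₂` with `|E₁| + |E₂| = e`: the number of `(f, h) ∈ Ω` with
`inl (f p) ∈ W` for `p ∈ E₁` and `inr (inr (h p)) ∈ W` for `p ∈ E₂` is at most
`(|W| / r) ^ e * |Ω|`, because at most `|W|` colours and at most `|W|` variables are in `W` and
`|W| / n ≤ |W| / r`.
(3) If `e ≤ eW f h W` then the slots counted in `eW` contain a pair `(E₁, E₂)` as in (2), i.e. a
subset of card `e` of `O₁.disjSum O₂` (`Finset.powersetCard`; there are
`(|O₁| + |O₂|).choose e ≤ (3 |W|).choose e` of them). Union bound.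
-/

namespace Pool.Agent.H13.PZ

open Finset

theorem card_maps {α β : Type} [Fintype α] [DecidableEq α] [Fintype β] [DecidableEq β]
    (E : Finset α) (B : Finset β) :
    (univ.filter fun f : α → β => ∀ p ∈ E, f p ∈ B).card =
      B.card ^ E.card * Fintype.card β ^ (Fintype.card α - E.card) := by
  have h1 : (univ.filter fun f : α → β => ∀ p ∈ E, f p ∈ B) =
      Fintype.piFinset (fun p => if p ∈ E then B else univ) := by
    ext f
    rw [mem_filter, Fintype.mem_piFinset]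
    constructor
    · rintro ⟨-, h⟩ p
      split_ifs with hp
      · exact h p hp
      · exact mem_univ _
    · intro h
      refine ⟨mem_univ _, fun p hp => ?_⟩
      have := h p
      rwa [if_pos hp] at this
  rw [h1, Fintype.card_piFinset]
  have h2 : ∀ p : α, (if p ∈ E then B else (univ : Finset β)).card =
      if p ∈ E then B.card else Fintype.card β := by
    intro p
    split_ifs
    · rfl
    · exact card_univ
  rw [prod_congr rfl (fun p _ => h2 p), prod_ite, prod_const, prod_const]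
  have h3 : (univ.filter fun p : α => p ∈ E) = E := by
    ext p
    simp
  have h4 : (univ.filter fun p : α => p ∉ E) = Eᶜ := by
    ext p
    simp
  rw [h3, h4, card_compl]

/-- The number of maps in the second step, as a real number. -/
theorem PrA_maps {α β : Type} [Fintype α] [DecidableEq α] [Fintype β] [DecidableEq β]
    (E : Finset α) (B : Finset β) (hβ : 0 < Fintype.card β) {y : ℝ}
    (hy : (B.card : ℝ) / Fintype.card β ≤ y) :
    ((univ.filter fun f : α → β => ∀ p ∈ E, f p ∈ B).card : ℝ) ≤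
      y ^ E.card * (Fintype.card β : ℝ) ^ Fintype.card α := by
  rw [card_maps]
  push_cast
  have hb : (0 : ℝ) < Fintype.card β := by exact_mod_cast hβ
  have hle : E.card ≤ Fintype.card α := card_le_univ E
  have h1 : (B.card : ℝ) ^ E.card * (Fintype.card β : ℝ) ^ (Fintype.card α - E.card) =
      ((B.card : ℝ) / Fintype.card β) ^ E.card * (Fintype.card β : ℝ) ^ Fintype.card α := by
    rw [div_pow]
    have h2 : (Fintype.card β : ℝ) ^ Fintype.card α =
        (Fintype.card β : ℝ) ^ E.card * (Fintype.card β : ℝ) ^ (Fintype.card α - E.card) := by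
      rw [← pow_add]
      congr 1
      omega
    rw [h2]
    field_simp
  rw [h1]
  exact mul_le_mul_of_nonneg_right (pow_le_pow_left₀ (by positivity) hy _) (by positivity)

theorem PrA_two {n r M : ℕ} (hr : 0 < r) (hrn : r ≤ n) (W : Finset (Node n r M))
    (E : Finset ((Fin n × Fin 3) ⊕ (Fin M × Fin 3))) :
    (((univ : Finset ((Fin n × Fin 3 → Fin r) × (Fin M × Fin 3 → Fin n))).filter
      fun ω => (∀ p ∈ E.toLeft, (Sum.inl (ω.1 p) : Node n r M) ∈ W) ∧
        (∀ p ∈ E.toRight, (Sum.inr (Sum.inr (ω.2 p)) : Node n r M) ∈ W)).card : ℝ) ≤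
      ((W.card : ℝ) / r) ^ E.card *
        (Fintype.card ((Fin n × Fin 3 → Fin r) × (Fin M × Fin 3 → Fin n)) : ℝ) := by
  classical
  set B₁ : Finset (Fin r) := univ.filter fun c => (Sum.inl c : Node n r M) ∈ W with hB₁
  set B₂ : Finset (Fin n) := univ.filter fun v => (Sum.inr (Sum.inr v) : Node n r M) ∈ W with hB₂
  have hc1 : B₁.card ≤ W.card := by
    refine card_le_card_of_injOn (fun c => (Sum.inl c : Node n r M)) (fun c hc => ?_)
      (fun a _ b _ h => Sum.inl_injective h)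
    exact (mem_filter.1 hc).2
  have hc2 : B₂.card ≤ W.card := by
    refine card_le_card_of_injOn (fun c => (Sum.inr (Sum.inr c) : Node n r M)) (fun c hc => ?_)
      (fun a _ b _ h => Sum.inr_injective (Sum.inr_injective h))
    exact (mem_filter.1 hc).2
  have hset : ((univ : Finset ((Fin n × Fin 3 → Fin r) × (Fin M × Fin 3 → Fin n))).filter
      fun ω => (∀ p ∈ E.toLeft, (Sum.inl (ω.1 p) : Node n r M) ∈ W) ∧
        (∀ p ∈ E.toRight, (Sum.inr (Sum.inr (ω.2 p)) : Node n r M) ∈ W)) =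
      (univ.filter fun f : Fin n × Fin 3 → Fin r => ∀ p ∈ E.toLeft, f p ∈ B₁) ×ˢ
      (univ.filter fun f : Fin M × Fin 3 → Fin n => ∀ p ∈ E.toRight, f p ∈ B₂) := by
    ext ω
    rw [mem_product, mem_filter, mem_filter, mem_filter, hB₁, hB₂]
    simp only [mem_univ, true_and, mem_filter]
  rw [hset, card_product]
  push_cast
  have hr0 : (0 : ℝ) < r := by exact_mod_cast hr
  have hn0 : 0 < n := lt_of_lt_of_le hr hrn
  have hy1 : (B₁.card : ℝ) / Fintype.card (Fin r) ≤ (W.card : ℝ) / r := by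
    rw [Fintype.card_fin]
    have : (B₁.card : ℝ) ≤ W.card := by exact_mod_cast hc1
    gcongr
  have hy2 : (B₂.card : ℝ) / Fintype.card (Fin n) ≤ (W.card : ℝ) / r := by
    rw [Fintype.card_fin]
    have h1 : (B₂.card : ℝ) ≤ W.card := by exact_mod_cast hc2
    have h2 : (r : ℝ) ≤ n := by exact_mod_cast hrn
    gcongr
  have h1 := PrA_maps E.toLeft B₁ (by rw [Fintype.card_fin]; exact hr) hy1
  have h2 := PrA_maps E.toRight B₂ (by rw [Fintype.card_fin]; exact hn0) hy2
  have h3 := mul_le_mul h1 h2 (Nat.cast_nonneg _) (by positivity)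
  refine h3.trans (le_of_eq ?_)
  have hcd : (Fintype.card ((Fin n × Fin 3 → Fin r) × (Fin M × Fin 3 → Fin n)) : ℝ) =
      (Fintype.card (Fin r) : ℝ) ^ Fintype.card (Fin n × Fin 3) *
        (Fintype.card (Fin n) : ℝ) ^ Fintype.card (Fin M × Fin 3) := by
    rw [Fintype.card_prod (Fin n × Fin 3 → Fin r), Fintype.card_fun, Fintype.card_fun]
    push_cast
    ring
  rw [hcd, ← card_toLeft_add_card_toRight (u := E), pow_add]
  ring

theorem card_eW_ge {n r M : ℕ} (hr : 0 < r) (hrn : r ≤ n) (W : Finset (Node n r M)) (e : ℕ) :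
    (((univ : Finset ((Fin n × Fin 3 → Fin r) × (Fin M × Fin 3 → Fin n))).filter
      fun ω => e ≤ eW ω.1 ω.2 W).card : ℝ) ≤
      ((3 * W.card).choose e : ℝ) * ((W.card : ℝ) / r) ^ e *
        (Fintype.card ((Fin n × Fin 3 → Fin r) × (Fin M × Fin 3 → Fin n)) : ℝ) := by
  classical
  set own : (Fin n × Fin 3) ⊕ (Fin M × Fin 3) → Node n r M := fun s =>
    Sum.elim (fun p => Sum.inr (Sum.inr p.1)) (fun p => Sum.inr (Sum.inl p.1)) s with hown
  set O : Finset ((Fin n × Fin 3) ⊕ (Fin M × Fin 3)) := univ.filter fun s => own s ∈ W with hO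
  have hOc : O.card ≤ 3 * W.card := by
    have h1 : O.card ≤ (W ×ˢ (univ : Finset (Fin 3))).card := by
      refine card_le_card_of_injOn
        (fun s => (own s, Sum.elim (fun p => p.2) (fun p => p.2) s)) (fun s hs => ?_) ?_
      · have h := (mem_filter.1 hs).2
        exact mem_coe.2 (mem_product.2 ⟨h, mem_univ _⟩)
      · rintro (⟨a, a'⟩ | ⟨a, a'⟩) _ (⟨b, b'⟩ | ⟨b, b'⟩) _ h
        all_goals
          rw [hown] at h
          simp only [Sum.elim_inl, Sum.elim_inr, Prod.mk.injEq, Sum.inr.injEq, Sum.inl.injEq,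
            reduceCtorEq, false_and] at h
        · obtain ⟨rfl, rfl⟩ := h
          rfl
        · obtain ⟨rfl, rfl⟩ := h
          rfl
    rw [card_product, card_univ, Fintype.card_fin] at h1
    omega
  set T : Finset ((Fin n × Fin 3) ⊕ (Fin M × Fin 3)) →
      Finset ((Fin n × Fin 3 → Fin r) × (Fin M × Fin 3 → Fin n)) := fun E =>
    (univ : Finset ((Fin n × Fin 3 → Fin r) × (Fin M × Fin 3 → Fin n))).filter
      fun ω => (∀ p ∈ E.toLeft, (Sum.inl (ω.1 p) : Node n r M) ∈ W) ∧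
        (∀ p ∈ E.toRight, (Sum.inr (Sum.inr (ω.2 p)) : Node n r M) ∈ W) with hT
  have hsub : ((univ : Finset ((Fin n × Fin 3 → Fin r) × (Fin M × Fin 3 → Fin n))).filter
      fun ω => e ≤ eW ω.1 ω.2 W) ⊆ (powersetCard e O).biUnion T := by
    intro ω hω
    have he := (mem_filter.1 hω).2
    set S : Finset ((Fin n × Fin 3) ⊕ (Fin M × Fin 3)) := O.filter fun s =>
      (Sum.elim (fun p => (Sum.inl (ω.1 p) : Node n r M))
        (fun p => (Sum.inr (Sum.inr (ω.2 p)) : Node n r M)) s) ∈ W with hS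
    have hl : S.toLeft = (univ.filter fun p : Fin n × Fin 3 =>
        Sum.inr (Sum.inr p.1) ∈ W ∧ Sum.inl (ω.1 p) ∈ W) := by
      ext p
      rw [mem_toLeft, hS, mem_filter, hO, mem_filter, mem_filter, hown]
      simp only [mem_univ, true_and, Sum.elim_inl]
    have hr' : S.toRight = (univ.filter fun p : Fin M × Fin 3 =>
        Sum.inr (Sum.inl p.1) ∈ W ∧ Sum.inr (Sum.inr (ω.2 p)) ∈ W) := by
      ext p
      rw [mem_toRight, hS, mem_filter, hO, mem_filter, mem_filter, hown]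
      simp only [mem_univ, true_and, Sum.elim_inr]
    have hSc : S.card = eW ω.1 ω.2 W := by
      rw [← card_toLeft_add_card_toRight (u := S), hl, hr']
      rfl
    obtain ⟨E, hE1, hE2⟩ := exists_subset_card_eq (s := S) (n := e) (by rw [hSc]; exact he)
    rw [mem_biUnion]
    refine ⟨E, mem_powersetCard.2 ⟨hE1.trans (filter_subset _ _), hE2⟩, ?_⟩
    rw [hT]
    simp only [mem_filter, mem_univ, true_and]
    constructor
    · intro p hp
      have h1 := hE1 (mem_toLeft.1 hp)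
      have h2 := (mem_filter.1 h1).2
      simpa only [Sum.elim_inl] using h2
    · intro p hp
      have h1 := hE1 (mem_toRight.1 hp)
      have h2 := (mem_filter.1 h1).2
      simpa only [Sum.elim_inr] using h2
  have h1 : (((univ : Finset ((Fin n × Fin 3 → Fin r) × (Fin M × Fin 3 → Fin n))).filter
      fun ω => e ≤ eW ω.1 ω.2 W).card : ℝ) ≤ ∑ E ∈ powersetCard e O, ((T E).card : ℝ) := by
    exact_mod_cast (card_le_card hsub).trans card_biUnion_le
  refine h1.trans ?_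
  have h2 : ∀ E ∈ powersetCard e O, ((T E).card : ℝ) ≤ ((W.card : ℝ) / r) ^ e *
        (Fintype.card ((Fin n × Fin 3 → Fin r) × (Fin M × Fin 3 → Fin n)) : ℝ) := by
    intro E hE
    have h3 := PrA_two hr hrn W E
    rw [(mem_powersetCard.1 hE).2] at h3
    exact h3
  refine (sum_le_sum h2).trans ?_
  rw [sum_const, card_powersetCard, nsmul_eq_mul, ← mul_assoc]
  refine mul_le_mul_of_nonneg_right (mul_le_mul_of_nonneg_right ?_ (by positivity))
    (Nat.cast_nonneg _)
  exact_mod_cast Nat.choose_le_choose e hOc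

end Pool.Agent.H13.PZ

end S_PrA

section S_PrS

/-!
# Few choices of slots are dense somewhere

`P` is a set of nodes with `|P| ≤ C r`. If some nonempty `W ⊆ P` with `|W| ≤ δ r` has
`(q + 1) |W| ≤ q * eW f h W`, let `N = |W|` and `e_N` the least natural number with
`(q + 1) N ≤ q * e_N`; then `e_N ≤ eW f h W`. Union bound over `N` with `1 ≤ N ≤ δ r` (so `N ≤ r`) and
`W ∈ P.powersetCard N` (`|P|.choose N` sets), `card_eW_ge` for `e = e_N` and `num_sparse`: at most
`∑ N ≥ 1, (1 / 16) ^ N = 1 / 15` of all `(f, h)`.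
-/

namespace Pool.Agent.H13.PZ

open Finset

theorem PrS_geo (R : ℕ) : ∑ N ∈ Icc 1 R, ((1 : ℝ) / 16) ^ N ≤ 1 / 15 - 1 / 15 * (1 / 16) ^ R := by
  induction R with
  | zero => simp
  | succ R ih =>
    rw [Finset.sum_Icc_succ_top (by omega)]
    have h : ((1 : ℝ) / 16) ^ (R + 1) = 1 / 16 * (1 / 16) ^ R := by ring
    rw [h]
    linarith

open Classical in
theorem frac_sparse {n r M q : ℕ} {C δ : ℝ} (hr : 0 < r) (hrn : r ≤ n) (hC : 0 ≤ C)
    (hδ0 : 0 ≤ δ) (hδ : δ ≤ 1) (hq : 1 ≤ q)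
    (hCδ : 8 * Real.exp 1 * C * δ ^ ((1 : ℝ) / q) ≤ 1 / 16)
    (P : Finset (Node n r M)) (hP : (P.card : ℝ) ≤ C * r) :
    (((univ : Finset ((Fin n × Fin 3 → Fin r) × (Fin M × Fin 3 → Fin n))).filter
      fun ω => ∃ W ⊆ P, 1 ≤ W.card ∧ (W.card : ℝ) ≤ δ * r ∧
        (q + 1) * W.card ≤ q * eW ω.1 ω.2 W).card : ℝ) ≤
      1 / 15 * (Fintype.card ((Fin n × Fin 3 → Fin r) × (Fin M × Fin 3 → Fin n)) : ℝ) := by
  have hex : ∀ N : ℕ, ∃ e : ℕ, (q + 1) * N ≤ q * e := fun N =>
    ⟨(q + 1) * N, Nat.le_mul_of_pos_left _ hq⟩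
  set eN : ℕ → ℕ := fun N => Nat.find (hex N) with heN
  have he1 : ∀ N, (q + 1) * N ≤ q * eN N := fun N => Nat.find_spec (hex N)
  have he2 : ∀ N e, (q + 1) * N ≤ q * e → eN N ≤ e := fun N e h => Nat.find_min' (hex N) h
  set Ωc : ℝ := (Fintype.card ((Fin n × Fin 3 → Fin r) × (Fin M × Fin 3 → Fin n)) : ℝ) with hΩ
  have hΩ0 : 0 ≤ Ωc := Nat.cast_nonneg _
  set Ns : Finset ℕ := (Icc 1 r).filter (fun N => (N : ℝ) ≤ δ * r) with hNs
  set bad : ℕ → Finset (Node n r M) → Finset ((Fin n × Fin 3 → Fin r) × (Fin M × Fin 3 → Fin n)) :=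
    fun N W => univ.filter (fun ω => eN N ≤ eW ω.1 ω.2 W) with hbad
  have hsub : ((univ : Finset ((Fin n × Fin 3 → Fin r) × (Fin M × Fin 3 → Fin n))).filter
      fun ω => ∃ W ⊆ P, 1 ≤ W.card ∧ (W.card : ℝ) ≤ δ * r ∧
        (q + 1) * W.card ≤ q * eW ω.1 ω.2 W) ⊆
      Ns.biUnion (fun N => (P.powersetCard N).biUnion (fun W => bad N W)) := by
    intro ω hω
    obtain ⟨W, hW, h1, h2, h3⟩ := (Finset.mem_filter.mp hω).2
    rw [Finset.mem_biUnion]
    refine ⟨W.card, ?_, ?_⟩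
    · rw [hNs, Finset.mem_filter, Finset.mem_Icc]
      refine ⟨⟨h1, ?_⟩, h2⟩
      have hr0 : (0 : ℝ) ≤ r := Nat.cast_nonneg r
      have h4 : (W.card : ℝ) ≤ r := by nlinarith
      exact_mod_cast h4
    · rw [Finset.mem_biUnion]
      refine ⟨W, Finset.mem_powersetCard.mpr ⟨hW, rfl⟩, ?_⟩
      exact Finset.mem_filter.mpr ⟨Finset.mem_univ _, he2 _ _ h3⟩
  have hc1 := Finset.card_le_card hsub
  have hc2 : (Ns.biUnion (fun N => (P.powersetCard N).biUnion (fun W => bad N W))).card ≤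
      ∑ N ∈ Ns, ∑ W ∈ P.powersetCard N, (bad N W).card :=
    Finset.card_biUnion_le.trans (Finset.sum_le_sum fun N _ => Finset.card_biUnion_le)
  have hc3 : ((∑ N ∈ Ns, ∑ W ∈ P.powersetCard N, (bad N W).card : ℕ) : ℝ) ≤
      ∑ N ∈ Ns, (1 / 16 : ℝ) ^ N * Ωc := by
    push_cast
    apply Finset.sum_le_sum
    intro N hN
    rw [hNs, Finset.mem_filter, Finset.mem_Icc] at hN
    have h1 : ∀ W ∈ P.powersetCard N, ((bad N W).card : ℝ) ≤
        ((3 * N).choose (eN N) : ℝ) * ((N : ℝ) / r) ^ (eN N) * Ωc := by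
      intro W hW
      have h2 := card_eW_ge (M := M) hr hrn W (eN N)
      rw [(Finset.mem_powersetCard.mp hW).2] at h2
      have e1 : bad N W = ((univ : Finset ((Fin n × Fin 3 → Fin r) × (Fin M × Fin 3 → Fin n))).filter
          fun ω => eN N ≤ eW ω.1 ω.2 W) := rfl
      rw [e1]
      convert h2 using 2
    refine (Finset.sum_le_sum h1).trans ?_
    rw [Finset.sum_const, Finset.card_powersetCard, nsmul_eq_mul]
    have h3 := num_sparse (v := P.card) hC hδ0 hδ hq hr hP hN.1.1 hN.2 hCδ (he1 N)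
    calc (P.card.choose N : ℝ) * (((3 * N).choose (eN N) : ℝ) * ((N : ℝ) / r) ^ (eN N) * Ωc)
        = (P.card.choose N : ℝ) * (((3 * N).choose (eN N) : ℝ) * ((N : ℝ) / r) ^ (eN N)) * Ωc := by
          ring
      _ ≤ (1 / 16 : ℝ) ^ N * Ωc := mul_le_mul_of_nonneg_right h3 hΩ0
  have hc4 : ∑ N ∈ Ns, (1 / 16 : ℝ) ^ N * Ωc ≤ 1 / 15 * Ωc := by
    rw [← Finset.sum_mul]
    apply mul_le_mul_of_nonneg_right _ hΩ0
    have h1 : ∑ N ∈ Ns, (1 / 16 : ℝ) ^ N ≤ ∑ N ∈ Icc 1 r, (1 / 16 : ℝ) ^ N :=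
      Finset.sum_le_sum_of_subset_of_nonneg (Finset.filter_subset _ _) (fun _ _ _ => by positivity)
    have h2 := PrS_geo r
    have h3 : (0 : ℝ) ≤ 1 / 15 * (1 / 16) ^ r := by positivity
    linarith
  have hc5 : (((univ : Finset ((Fin n × Fin 3 → Fin r) × (Fin M × Fin 3 → Fin n))).filter
      fun ω => ∃ W ⊆ P, 1 ≤ W.card ∧ (W.card : ℝ) ≤ δ * r ∧
        (q + 1) * W.card ≤ q * eW ω.1 ω.2 W).card : ℝ) ≤
      ((∑ N ∈ Ns, ∑ W ∈ P.powersetCard N, (bad N W).card : ℕ) : ℝ) := by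
    exact_mod_cast hc1.trans hc2
  exact hc5.trans (hc3.trans hc4)

end Pool.Agent.H13.PZ

end S_PrS

section S_PrD

/-!
# Few choices of slots have many small dense sets

The nonempty sets `W` of at most `g` nodes with `|W| ≤ eW f h W`: the sum over all `(f, h)` of their
number is (exchange the sums), by `card_eW_ge` with `e = |W|` and `num_bad` (`v` = number of nodes,
`v.choose N` sets of card `N`), at most `∑ N ∈ [1, g], (8 exp 1 C) ^ N * |Ω|`; so by Markov's
inequality the number exceeds `B` for at most `1 / 15` of the `(f, h)` if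
`B ≥ 15 ∑ N ∈ [1, g], (8 exp 1 C) ^ N` (use that a number `> B` is `≥ B + 1`).
-/

namespace Pool.Agent.H13.PZ

open Finset

theorem PrD_group {v : ℕ} {α : Type} [Fintype α] [DecidableEq α] (hv : Fintype.card α = v)
    (g : ℕ) (φ : ℕ → ℝ) :
    ∑ W ∈ (univ : Finset (Finset α)).filter (fun W => 1 ≤ W.card ∧ W.card ≤ g), φ W.card =
      ∑ N ∈ Icc 1 g, (v.choose N : ℝ) * φ N := by
  rw [← sum_fiberwise_of_maps_to (s := (univ : Finset (Finset α)).filter
    (fun W => 1 ≤ W.card ∧ W.card ≤ g)) (t := Icc 1 g) (g := fun W => W.card)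
    (fun W hW => mem_Icc.2 (mem_filter.1 hW).2)]
  refine sum_congr rfl fun N hN => ?_
  have h1 : ((univ : Finset (Finset α)).filter (fun W => 1 ≤ W.card ∧ W.card ≤ g)).filter
      (fun W => W.card = N) = powersetCard N univ := by
    ext W
    rw [mem_filter, mem_filter, mem_powersetCard]
    have := mem_Icc.1 hN
    constructor
    · rintro ⟨-, h⟩
      exact ⟨subset_univ _, h⟩
    · rintro ⟨-, h⟩
      exact ⟨⟨mem_univ _, by omega⟩, h⟩
  rw [h1]
  have h2 : ∑ W ∈ powersetCard N (univ : Finset α), φ W.card =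
      ∑ W ∈ powersetCard N (univ : Finset α), φ N :=
    sum_congr rfl fun W hW => by rw [(mem_powersetCard.1 hW).2]
  rw [h2, sum_const, card_powersetCard, card_univ, hv, nsmul_eq_mul]

theorem frac_bad {n r M g B : ℕ} {C : ℝ} (hr : 0 < r) (hrn : r ≤ n) (hC : 0 ≤ C)
    (hP : (Fintype.card (Node n r M) : ℝ) ≤ C * r)
    (hB : 15 * ∑ N ∈ Icc 1 g, (8 * Real.exp 1 * C) ^ N ≤ B) :
    (((univ : Finset ((Fin n × Fin 3 → Fin r) × (Fin M × Fin 3 → Fin n))).filter
      fun ω => B < ((univ : Finset (Finset (Node n r M))).filter fun W =>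
        1 ≤ W.card ∧ W.card ≤ g ∧ W.card ≤ eW ω.1 ω.2 W).card).card : ℝ) ≤
      1 / 15 * (Fintype.card ((Fin n × Fin 3 → Fin r) × (Fin M × Fin 3 → Fin n)) : ℝ) := by
  classical
  set cnt : (Fin n × Fin 3 → Fin r) × (Fin M × Fin 3 → Fin n) → ℕ := fun ω =>
    ((univ : Finset (Finset (Node n r M))).filter fun W =>
        1 ≤ W.card ∧ W.card ≤ g ∧ W.card ≤ eW ω.1 ω.2 W).card with hcnt
  set S : ℝ := ∑ N ∈ Icc 1 g, (8 * Real.exp 1 * C) ^ N with hS
  set Om : ℝ := (Fintype.card ((Fin n × Fin 3 → Fin r) × (Fin M × Fin 3 → Fin n)) : ℝ) with hOm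
  have hOm0 : 0 ≤ Om := Nat.cast_nonneg _
  set U : Finset (Finset (Node n r M)) :=
    univ.filter (fun W => 1 ≤ W.card ∧ W.card ≤ g) with hU
  have h1 : ∀ ω, (cnt ω : ℝ) = ∑ W ∈ U, if W.card ≤ eW ω.1 ω.2 W then (1 : ℝ) else 0 := by
    intro ω
    rw [sum_boole, hcnt, hU, filter_filter]
    simp only [and_assoc]
  have hsum : ∑ ω, (cnt ω : ℝ) ≤ S * Om := by
    rw [sum_congr rfl (fun ω _ => h1 ω), sum_comm]
    have h2 : ∀ W ∈ U, ∑ ω : (Fin n × Fin 3 → Fin r) × (Fin M × Fin 3 → Fin n),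
        (if W.card ≤ eW ω.1 ω.2 W then (1 : ℝ) else 0) ≤
        ((3 * W.card).choose W.card : ℝ) * ((W.card : ℝ) / r) ^ W.card * Om := by
      intro W _
      rw [sum_boole]
      exact card_eW_ge hr hrn W W.card
    refine (sum_le_sum h2).trans ?_
    rw [hU, PrD_group (v := Fintype.card (Node n r M)) rfl g
      (fun N => ((3 * N).choose N : ℝ) * ((N : ℝ) / r) ^ N * Om), hS, sum_mul]
    refine sum_le_sum fun N hN => ?_
    have h3 := num_bad hC hr hP (mem_Icc.1 hN).1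
    have h4 := mul_le_mul_of_nonneg_right h3 hOm0
    refine le_trans (le_of_eq ?_) h4
    ring
  set bad := (univ : Finset ((Fin n × Fin 3 → Fin r) × (Fin M × Fin 3 → Fin n))).filter
      (fun ω => B < cnt ω) with hbad
  have h5 : ((B : ℝ) + 1) * bad.card ≤ ∑ ω, (cnt ω : ℝ) := by
    calc ((B : ℝ) + 1) * bad.card = ∑ ω ∈ bad, ((B : ℝ) + 1) := by
          rw [sum_const, nsmul_eq_mul]
          ring
      _ ≤ ∑ ω ∈ bad, (cnt ω : ℝ) := by
          refine sum_le_sum fun ω hω => ?_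
          have := (mem_filter.1 hω).2
          exact_mod_cast this
      _ ≤ ∑ ω, (cnt ω : ℝ) := by
          refine sum_le_sum_of_subset_of_nonneg (subset_univ _) fun ω _ _ => Nat.cast_nonneg _
  have hB0 : (0 : ℝ) ≤ B := Nat.cast_nonneg _
  have h6 : S ≤ B / 15 := by linarith
  have h7 : ((B : ℝ) + 1) * bad.card ≤ B / 15 * Om :=
    (h5.trans hsum).trans (mul_le_mul_of_nonneg_right h6 hOm0)
  have h8 : ((B : ℝ) + 1) * bad.card ≤ ((B : ℝ) + 1) * (1 / 15 * Om) := by
    refine h7.trans ?_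
    nlinarith
  exact le_of_mul_le_mul_left h8 (by positivity)

end Pool.Agent.H13.PZ

end S_PrD

section S_PrC

/-!
# Random triples hit every large set

Let `ζ ^ 3 * M ≥ n + 2`, `0 < ζ ≤ 1`. For a set `Z` of `z ≥ ζ n` variables the number of
`h : Fin M × Fin 3 → Fin n` such that for no `b : Fin M` all `h (b, j)` lie in `Z` is
`(n ^ 3 - z ^ 3) ^ M` (curry: every `b` chooses one of the `n ^ 3 - z ^ 3` triples not in `Z ^ 3`),
a fraction of at most `(1 - ζ ^ 3) ^ M ≤ exp (- ζ ^ 3 * M) ≤ exp (- (n + 2))` of all `h`. There are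
`2 ^ n` sets `Z`, and `2 ^ n * exp (- n) * exp (- 2) ≤ exp (- 2) ≤ 1 / 6` (`2 ≤ exp 1`,
`exp 2 ≥ 6` from `Real.exp_one_gt_d9`). The first component `f` is free.
-/

namespace Pool.Agent.H13.PZ

open Finset

theorem frac_hit_card {n M : ℕ} (Z : Finset (Fin n)) :
    ((univ : Finset (Fin M × Fin 3 → Fin n)).filter
      fun h => ∀ b, ∃ j, h (b, j) ∉ Z).card = (n ^ 3 - Z.card ^ 3) ^ M := by
  classical
  have h1 : ((univ : Finset (Fin 3 → Fin n)).filter fun g => ∃ j, g j ∉ Z).card =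
      n ^ 3 - Z.card ^ 3 := by
    have h2 : ((univ : Finset (Fin 3 → Fin n)).filter fun g => ∃ j, g j ∉ Z) =
        (Fintype.piFinset fun _ : Fin 3 => Z)ᶜ := by
      ext g
      simp [Fintype.mem_piFinset]
    rw [h2, card_compl, Fintype.card_piFinset_const]
    simp
  rw [← h1]
  have h3 : (Fintype.piFinset fun _ : Fin M =>
      ((univ : Finset (Fin 3 → Fin n)).filter fun g => ∃ j, g j ∉ Z)).card =
      ((univ : Finset (Fin 3 → Fin n)).filter fun g => ∃ j, g j ∉ Z).card ^ M := by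
    rw [Fintype.card_piFinset_const]
  rw [← h3]
  refine card_bij (fun h _ => Function.curry h) ?_ ?_ ?_
  · intro h hh
    simpa [Fintype.mem_piFinset, Function.curry] using hh
  · intro a _ b _ hab
    have := congrArg Function.uncurry hab
    simpa using this
  · intro g hg
    refine ⟨Function.uncurry g, ?_, ?_⟩
    · simpa [Fintype.mem_piFinset, Function.uncurry] using hg
    · simp

theorem frac_hit_one {n M : ℕ} {ζ : ℝ} (hζ : 0 < ζ) (hn : 0 < n)
    (hM : (n : ℝ) + 2 ≤ ζ ^ 3 * M) (Z : Finset (Fin n)) (hZ : ζ * n ≤ Z.card) :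
    (((n ^ 3 - Z.card ^ 3) ^ M : ℕ) : ℝ) ≤ Real.exp (-((n : ℝ) + 2)) * ((n : ℝ) ^ (M * 3)) := by
  have hn' : (0 : ℝ) < n := by exact_mod_cast hn
  have hzn : Z.card ≤ n := by simpa using card_le_univ Z
  have hz3 : Z.card ^ 3 ≤ n ^ 3 := Nat.pow_le_pow_left hzn 3
  have h0 : (((n ^ 3 - Z.card ^ 3 : ℕ)) : ℝ) = (n : ℝ) ^ 3 - (Z.card : ℝ) ^ 3 := by
    rw [Nat.cast_sub hz3]; push_cast; ring
  have h1 : (ζ * n) ^ 3 ≤ (Z.card : ℝ) ^ 3 := pow_le_pow_left₀ (by positivity) hZ 3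
  have h2 : (n : ℝ) ^ 3 - (Z.card : ℝ) ^ 3 ≤ (n : ℝ) ^ 3 * Real.exp (-(ζ ^ 3)) := by
    have h3 : 1 - ζ ^ 3 ≤ Real.exp (-(ζ ^ 3)) := by
      have := Real.add_one_le_exp (-(ζ ^ 3))
      linarith
    have h4 : (n : ℝ) ^ 3 * (1 - ζ ^ 3) ≤ (n : ℝ) ^ 3 * Real.exp (-(ζ ^ 3)) :=
      mul_le_mul_of_nonneg_left h3 (by positivity)
    have h5 : (ζ * n) ^ 3 = (n : ℝ) ^ 3 * ζ ^ 3 := by ring
    nlinarith
  have h3 : (0 : ℝ) ≤ (n : ℝ) ^ 3 - (Z.card : ℝ) ^ 3 := by
    rw [← h0]; positivity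
  calc (((n ^ 3 - Z.card ^ 3) ^ M : ℕ) : ℝ) = ((n : ℝ) ^ 3 - (Z.card : ℝ) ^ 3) ^ M := by
        rw [Nat.cast_pow, h0]
    _ ≤ ((n : ℝ) ^ 3 * Real.exp (-(ζ ^ 3))) ^ M := pow_le_pow_left₀ h3 h2 M
    _ = Real.exp (-(ζ ^ 3 * M)) * ((n : ℝ) ^ (M * 3)) := by
        rw [mul_pow, ← Real.exp_nat_mul, ← pow_mul]
        rw [show (M : ℝ) * -(ζ ^ 3) = -(ζ ^ 3 * M) by ring, show 3 * M = M * 3 by ring]
        ring
    _ ≤ Real.exp (-((n : ℝ) + 2)) * ((n : ℝ) ^ (M * 3)) := by
        apply mul_le_mul_of_nonneg_right _ (by positivity)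
        apply Real.exp_le_exp.mpr
        linarith

theorem frac_hit {n r M : ℕ} {ζ : ℝ} (hζ : 0 < ζ) (hζ1 : ζ ≤ 1) (hn : 0 < n)
    (hM : (n : ℝ) + 2 ≤ ζ ^ 3 * M) :
    (((univ : Finset ((Fin n × Fin 3 → Fin r) × (Fin M × Fin 3 → Fin n))).filter
      fun ω => ∃ Z : Finset (Fin n), ζ * n ≤ Z.card ∧ ∀ b, ∃ j, ω.2 (b, j) ∉ Z).card : ℝ) ≤
      1 / 6 * (Fintype.card ((Fin n × Fin 3 → Fin r) × (Fin M × Fin 3 → Fin n)) : ℝ) := by
  classical
  have hn' : (0 : ℝ) < n := by exact_mod_cast hn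
  -- split off the first component
  have hsplit : ((univ : Finset ((Fin n × Fin 3 → Fin r) × (Fin M × Fin 3 → Fin n))).filter
      fun ω => ∃ Z : Finset (Fin n), ζ * n ≤ Z.card ∧ ∀ b, ∃ j, ω.2 (b, j) ∉ Z) =
      (univ : Finset (Fin n × Fin 3 → Fin r)) ×ˢ
        ((univ : Finset (Fin M × Fin 3 → Fin n)).filter
          fun h => ∃ Z : Finset (Fin n), ζ * n ≤ Z.card ∧ ∀ b, ∃ j, h (b, j) ∉ Z) := by
    ext ω
    simp
  rw [hsplit, card_product, Fintype.card_prod]
  push_cast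
  have hU : (((univ : Finset (Fin M × Fin 3 → Fin n)).filter
          fun h => ∃ Z : Finset (Fin n), ζ * n ≤ Z.card ∧ ∀ b, ∃ j, h (b, j) ∉ Z).card : ℝ) ≤
      1 / 6 * (Fintype.card (Fin M × Fin 3 → Fin n) : ℝ) := by
    have hsub : ((univ : Finset (Fin M × Fin 3 → Fin n)).filter
          fun h => ∃ Z : Finset (Fin n), ζ * n ≤ Z.card ∧ ∀ b, ∃ j, h (b, j) ∉ Z) ⊆
        ((univ : Finset (Finset (Fin n))).filter fun Z => ζ * n ≤ Z.card).biUnion fun Z =>
          (univ : Finset (Fin M × Fin 3 → Fin n)).filter fun h => ∀ b, ∃ j, h (b, j) ∉ Z := by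
      intro h hh
      simp only [mem_filter, mem_univ, true_and, mem_biUnion] at hh ⊢
      exact hh
    have h1 : (((univ : Finset (Fin M × Fin 3 → Fin n)).filter
          fun h => ∃ Z : Finset (Fin n), ζ * n ≤ Z.card ∧ ∀ b, ∃ j, h (b, j) ∉ Z).card : ℝ) ≤
        ∑ Z ∈ (univ : Finset (Finset (Fin n))).filter fun Z => ζ * n ≤ Z.card,
          Real.exp (-((n : ℝ) + 2)) * ((n : ℝ) ^ (M * 3)) := by
      refine (Nat.cast_le.mpr ((card_le_card hsub).trans card_biUnion_le)).trans ?_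
      rw [Nat.cast_sum]
      refine sum_le_sum fun Z hZ => ?_
      rw [frac_hit_card]
      exact frac_hit_one hζ hn hM Z (by simpa using hZ)
    refine h1.trans ?_
    rw [sum_const, nsmul_eq_mul]
    have h2 : ((((univ : Finset (Finset (Fin n))).filter fun Z => ζ * n ≤ Z.card).card : ℕ) : ℝ) ≤
        (2 : ℝ) ^ n := by
      have : ((univ : Finset (Finset (Fin n))).filter fun Z => ζ * n ≤ Z.card).card ≤ 2 ^ n := by
        refine (card_filter_le _ _).trans ?_
        simp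
      exact_mod_cast this
    have h3 : (Fintype.card (Fin M × Fin 3 → Fin n) : ℝ) = (n : ℝ) ^ (M * 3) := by
      simp
    rw [h3]
    have h4 : (2 : ℝ) ^ n ≤ Real.exp n := by
      have : (2 : ℝ) ≤ Real.exp 1 := by
        have := Real.exp_one_gt_d9
        linarith
      calc (2 : ℝ) ^ n ≤ (Real.exp 1) ^ n := pow_le_pow_left₀ (by norm_num) this n
        _ = Real.exp n := by rw [← Real.exp_nat_mul]; simp
    have h5 : Real.exp (-2) ≤ 1 / 6 := by
      have h6 : (6 : ℝ) ≤ Real.exp 2 := by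
        have h7 := Real.exp_one_gt_d9
        have h8 : Real.exp 2 = Real.exp 1 * Real.exp 1 := by
          rw [← Real.exp_add]; norm_num
        rw [h8]
        nlinarith
      rw [Real.exp_neg, one_div]
      exact inv_anti₀ (by norm_num) h6
    have h9 : ((((univ : Finset (Finset (Fin n))).filter fun Z => ζ * n ≤ Z.card).card : ℕ) : ℝ) *
        Real.exp (-((n : ℝ) + 2)) ≤ 1 / 6 := by
      calc ((((univ : Finset (Finset (Fin n))).filter fun Z => ζ * n ≤ Z.card).card : ℕ) : ℝ) *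
          Real.exp (-((n : ℝ) + 2)) ≤ Real.exp n * Real.exp (-((n : ℝ) + 2)) :=
            mul_le_mul_of_nonneg_right (h2.trans h4) (Real.exp_pos _).le
        _ = Real.exp (-2) := by rw [← Real.exp_add]; ring_nf
        _ ≤ 1 / 6 := h5
    calc _ = (((((univ : Finset (Finset (Fin n))).filter fun Z => ζ * n ≤ Z.card).card : ℕ) : ℝ) *
          Real.exp (-((n : ℝ) + 2))) * ((n : ℝ) ^ (M * 3)) := by ring
      _ ≤ 1 / 6 * ((n : ℝ) ^ (M * 3)) := mul_le_mul_of_nonneg_right h9 (by positivity)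
  have hA : (0 : ℝ) ≤ ((univ : Finset (Fin n × Fin 3 → Fin r)).card : ℝ) := by positivity
  have := mul_le_mul_of_nonneg_left hU hA
  calc _ ≤ _ := this
    _ = _ := by
      rw [card_univ]; ring

end Pool.Agent.H13.PZ

end S_PrC

section S_Ex

/-!
# Existence of the slots

Given `0 < β ≤ 1`, `q ≥ 1`, `g`. For `n` large put `r = ⌊β n⌋₊`, so `β n / 2 ≤ r ≤ β n ≤ n`, `0 < r`.
* `C₁ = 1 + 2 / β`: the set `P₁` of all colours and variables has `r + n ≤ C₁ r` elements. Choose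
  `0 < δ₁ ≤ 1` with `8 exp 1 C₁ δ₁ ^ (1 / 5) ≤ 1 / 16` (`δ₁` small, `δ₁ ^ (1/5) → 0`).
* `ζ = δ₁ β / 5 ∈ (0, 1]`, `M = ⌈(n + 2) / ζ ^ 3⌉₊ ≤ C' n` for `n ≥ 2`, `C' = 3 / ζ ^ 3 + 1`.
* `C₂ = 1 + 2 (C' + 1) / β`: all nodes, `r + M + n ≤ C₂ r`. Choose `0 < δ₂ ≤ 1` with
  `8 exp 1 C₂ δ₂ ^ (1 / q) ≤ 1 / 16`; `δ = δ₂ β / 2`, so `δ n ≤ δ₂ r`.
* `B₀ = ⌈15 ∑ N ∈ [1, g], (8 exp 1 C₂) ^ N⌉₊`, `B = g B₀`.
The events of `frac_sparse` (`P₁`, `δ₁`, `5`), `frac_sparse` (all nodes, `δ₂`, `q`), `frac_bad`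
(`C₂`, `B₀`), `frac_hit` (`ζ`) have together at most `1/15 + 1/15 + 1/15 + 1/6 < 1` of all `(f, h)`;
take `(f, h)` outside all of them.
(a) Let `Z` be nonempty, `c` the number of colours of its slots, `2 c ≤ 3 |Z|`. Let `W` consist of
these colours and the variables of `Z`: `|W| = c + |Z|`, all `3 |Z|` slots of `Z` are counted in
`eW f h W`. If `|W| ≤ δ₁ r` then `5 * eW < 6 |W|`, so `15 |Z| < 6 (c + |Z|) ≤ 15 |Z|`, a
contradiction. So `(5/2) |Z| ≥ c + |Z| > δ₁ r ≥ δ₁ β n / 2`, `|Z| ≥ ζ n`, and `frac_hit` gives `b`.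
(b) outside the second event. (c) `Bad` is the set of the variables in the at most `B₀` sets `W`
with `1 ≤ |W| ≤ g`, `|W| ≤ eW f h W`; it has at most `g B₀` elements.
-/

namespace Pool.Agent.H13.PZ

open Finset

theorem Ex_four {Ω : Type} [Fintype Ω] [Nonempty Ω] (E1 E2 E3 E4 : Finset Ω)
    (h1 : (E1.card : ℝ) ≤ 1 / 15 * (Fintype.card Ω : ℝ))
    (h2 : (E2.card : ℝ) ≤ 1 / 15 * (Fintype.card Ω : ℝ))
    (h3 : (E3.card : ℝ) ≤ 1 / 15 * (Fintype.card Ω : ℝ))
    (h4 : (E4.card : ℝ) ≤ 1 / 6 * (Fintype.card Ω : ℝ)) :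
    ∃ ω, ω ∉ E1 ∧ ω ∉ E2 ∧ ω ∉ E3 ∧ ω ∉ E4 := by
  classical
  by_contra hcon
  push Not at hcon
  have hsub : (univ : Finset Ω) ⊆ E1 ∪ (E2 ∪ (E3 ∪ E4)) := by
    intro ω _
    by_cases a1 : ω ∈ E1
    · simp [a1]
    · by_cases a2 : ω ∈ E2
      · simp [a2]
      · by_cases a3 : ω ∈ E3
        · simp [a3]
        · simp [hcon ω a1 a2 a3]
  have h5 := Finset.card_le_card hsub
  have h6 : (E1 ∪ (E2 ∪ (E3 ∪ E4))).card ≤ E1.card + (E2.card + (E3.card + E4.card)) :=
    (Finset.card_union_le _ _).trans (Nat.add_le_add_left ((Finset.card_union_le _ _).trans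
      (Nat.add_le_add_left (Finset.card_union_le _ _) _)) _)
  rw [Finset.card_univ] at h5
  have h7 : (Fintype.card Ω : ℝ) ≤ E1.card + (E2.card + (E3.card + E4.card)) := by
    exact_mod_cast h5.trans h6
  have h8 : 0 < (Fintype.card Ω : ℝ) := by exact_mod_cast Fintype.card_pos
  linarith

theorem Ex_delta (C : ℝ) (hC : 0 ≤ C) (q : ℕ) (hq : 1 ≤ q) :
    ∃ δ : ℝ, 0 < δ ∧ δ ≤ 1 ∧ 8 * Real.exp 1 * C * δ ^ ((1 : ℝ) / q) ≤ 1 / 16 := by
  have he : 1 ≤ Real.exp 1 := Real.one_le_exp zero_le_one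
  set y : ℝ := 128 * Real.exp 1 * (C + 1) with hy
  have hy1 : 1 ≤ y := by
    rw [hy]; nlinarith [mul_nonneg (sub_nonneg.2 he) hC]
  have hy0 : 0 < y := by linarith
  refine ⟨(1 / y) ^ q, by positivity, pow_le_one₀ (by positivity) ((div_le_one hy0).2 hy1), ?_⟩
  have h1 : ((1 / y) ^ q) ^ ((1 : ℝ) / q) = 1 / y := by
    rw [one_div (q : ℝ)]
    exact Real.pow_rpow_inv_natCast (by positivity) (by omega)
  rw [h1, mul_one_div, div_le_div_iff₀ hy0 (by norm_num), hy]
  nlinarith [mul_nonneg (sub_nonneg.2 he) hC]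

/-- the nodes of a set of colours and a set of variables -/
def Ex_W {n r M : ℕ} (A : Finset (Fin r)) (Z : Finset (Fin n)) : Finset (Node n r M) :=
  A.disjSum ((∅ : Finset (Fin M)).disjSum Z)

theorem Ex_W_card {n r M : ℕ} (A : Finset (Fin r)) (Z : Finset (Fin n)) :
    (Ex_W (M := M) A Z).card = A.card + Z.card := by
  simp [Ex_W, Finset.card_disjSum]

theorem Ex_W_sub {n r M : ℕ} (A : Finset (Fin r)) (Z : Finset (Fin n)) :
    Ex_W (M := M) A Z ⊆ Ex_W univ univ := by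
  intro w hw
  rcases w with a | b | v
  · simp [Ex_W]
  · simp [Ex_W] at hw
  · simp [Ex_W]

theorem Ex_eW {n r M : ℕ} (f : Fin n × Fin 3 → Fin r) (h : Fin M × Fin 3 → Fin n)
    (Z : Finset (Fin n)) :
    3 * Z.card ≤ eW f h (Ex_W (M := M) ((Z ×ˢ (univ : Finset (Fin 3))).image f) Z) := by
  have h1 : (Z ×ˢ (univ : Finset (Fin 3))) ⊆ univ.filter fun p : Fin n × Fin 3 =>
      (Sum.inr (Sum.inr p.1) : Node n r M) ∈ Ex_W ((Z ×ˢ (univ : Finset (Fin 3))).image f) Z ∧
      (Sum.inl (f p) : Node n r M) ∈ Ex_W ((Z ×ˢ (univ : Finset (Fin 3))).image f) Z := by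
    intro p hp
    have hp1 : p.1 ∈ Z := (Finset.mem_product.1 hp).1
    rw [Finset.mem_filter]
    refine ⟨Finset.mem_univ _, ?_, ?_⟩
    · simp [Ex_W, hp1]
    · simp only [Ex_W, Finset.inl_mem_disjSum]
      exact Finset.mem_image_of_mem f hp
  have h2 := Finset.card_le_card h1
  rw [Finset.card_product, Finset.card_univ, Fintype.card_fin] at h2
  unfold eW
  omega

theorem exists_slots (β : ℝ) (hβ : 0 < β) (hβ1 : β ≤ 1) (q g : ℕ) (hq : 1 ≤ q) :
    ∃ δ : ℝ, 0 < δ ∧ ∃ B n₀ : ℕ, ∀ n ≥ n₀, ∃ (r M : ℕ) (f : Fin n × Fin 3 → Fin r)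
      (h : Fin M × Fin 3 → Fin n), (r : ℝ) ≤ β * n ∧
      (∀ Z : Finset (Fin n), Z.Nonempty →
        2 * ((Z ×ˢ (univ : Finset (Fin 3))).image f).card ≤ 3 * Z.card →
        ∃ b, ∀ j, h (b, j) ∈ Z) ∧
      (∀ W : Finset (Node n r M), (W.card : ℝ) ≤ δ * n → q * eW f h W ≤ (q + 1) * W.card) ∧
      ∃ Bad : Finset (Fin n), Bad.card ≤ B ∧ ∀ W : Finset (Node n r M), 1 ≤ W.card →
        W.card ≤ g → W.card ≤ eW f h W → ∀ v, Sum.inr (Sum.inr v) ∈ W → v ∈ Bad := by
  obtain ⟨δ₁, hδ₁, hδ₁1, hC₁δ⟩ := Ex_delta (1 + 2 / β) (by positivity) 5 (by norm_num)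
  set ζ : ℝ := δ₁ * β / 5 with hζ
  have hζ0 : 0 < ζ := by positivity
  have hζ1 : ζ ≤ 1 := by
    have : δ₁ * β ≤ 1 := mul_le_one₀ hδ₁1 hβ.le hβ1
    rw [hζ]; linarith
  set C' : ℝ := 2 / ζ ^ 3 + 1 with hC'
  have hC'0 : 0 < C' := by positivity
  obtain ⟨δ₂, hδ₂, hδ₂1, hC₂δ⟩ := Ex_delta (1 + 2 * (C' + 1) / β) (by positivity) q hq
  set B₀ : ℕ := ⌈15 * ∑ N ∈ Icc 1 g, (8 * Real.exp 1 * (1 + 2 * (C' + 1) / β)) ^ N⌉₊ with hB₀
  refine ⟨δ₂ * β / 2, by positivity, B₀ * g, max 2 ⌈2 / β⌉₊, fun n hn => ?_⟩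
  have hn2 : 2 ≤ n := (le_max_left _ _).trans hn
  have hn2' : (2 : ℝ) ≤ n := by exact_mod_cast hn2
  have hnβ : 2 ≤ β * n := by
    have h1 : ⌈2 / β⌉₊ ≤ n := (le_max_right _ _).trans hn
    have h2 : 2 / β ≤ n := Nat.ceil_le.1 h1
    rw [div_le_iff₀ hβ] at h2
    linarith
  set r : ℕ := ⌊β * n⌋₊ with hr
  have hr1 : (r : ℝ) ≤ β * n := Nat.floor_le (by positivity)
  have hr2 : β * n / 2 ≤ (r : ℝ) := by
    have := Nat.lt_floor_add_one (β * n)
    rw [← hr] at this
    linarith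
  have hr0 : 0 < r := by
    have : (0 : ℝ) < r := by linarith
    exact_mod_cast this
  have hrn : r ≤ n := by
    have : (r : ℝ) ≤ n := hr1.trans (by nlinarith)
    exact_mod_cast this
  have hnr : (n : ℝ) ≤ 2 / β * r := by
    rw [div_mul_eq_mul_div, le_div_iff₀ hβ]; linarith
  set M : ℕ := ⌈((n : ℝ) + 2) / ζ ^ 3⌉₊ with hM
  have hM1 : (n : ℝ) + 2 ≤ ζ ^ 3 * M := by
    have h1 : ((n : ℝ) + 2) / ζ ^ 3 ≤ M := Nat.le_ceil _
    rw [div_le_iff₀ (by positivity)] at h1
    linarith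
  have hM2 : (M : ℝ) ≤ C' * n := by
    have h1 : (M : ℝ) < ((n : ℝ) + 2) / ζ ^ 3 + 1 := Nat.ceil_lt_add_one (by positivity)
    have h2 : ((n : ℝ) + 2) / ζ ^ 3 ≤ 2 * n / ζ ^ 3 :=
      div_le_div_of_nonneg_right (by linarith) (by positivity)
    have h3 : C' * n = 2 * n / ζ ^ 3 + n := by rw [hC']; ring
    linarith
  have hcP : ((Ex_W (M := M) (univ : Finset (Fin r)) (univ : Finset (Fin n))).card : ℝ) ≤
      (1 + 2 / β) * r := by
    rw [Ex_W_card, Finset.card_univ, Finset.card_univ, Fintype.card_fin, Fintype.card_fin]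
    push_cast
    linarith
  have hcN : (Fintype.card (Node n r M) : ℝ) ≤ (1 + 2 * (C' + 1) / β) * r := by
    rw [Fintype.card_sum, Fintype.card_sum, Fintype.card_fin, Fintype.card_fin, Fintype.card_fin]
    push_cast
    have h1 : (C' + 1) * n ≤ (C' + 1) * (2 / β * r) := mul_le_mul_of_nonneg_left hnr (by positivity)
    have h2 : (1 + 2 * (C' + 1) / β) * r = r + (C' + 1) * (2 / β * r) := by ring
    rw [h2]
    linarith
  have hne : Nonempty ((Fin n × Fin 3 → Fin r) × (Fin M × Fin 3 → Fin n)) :=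
    ⟨(fun _ => ⟨0, hr0⟩, fun _ => ⟨0, by omega⟩)⟩
  obtain ⟨ω, w1, w2, w3, w4⟩ := Ex_four _ _ _ _
    (frac_sparse (n := n) (r := r) (M := M) (q := 5) hr0 hrn (by positivity) hδ₁.le hδ₁1
      (by norm_num) hC₁δ (Ex_W univ univ) hcP)
    (frac_sparse (n := n) (r := r) (M := M) (q := q) hr0 hrn (by positivity) hδ₂.le hδ₂1
      hq hC₂δ univ (by rw [Finset.card_univ]; exact hcN))
    (frac_bad (n := n) (r := r) (M := M) (g := g) (B := B₀) hr0 hrn (by positivity) hcN
      (Nat.le_ceil _))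
    (frac_hit (n := n) (r := r) (M := M) hζ0 hζ1 (by omega) hM1)
  simp only [Finset.mem_filter, Finset.mem_univ, true_and, not_exists, not_and, not_le,
    not_lt, Finset.subset_univ, not_forall, not_not] at w1 w2 w3 w4
  refine ⟨r, M, ω.1, ω.2, hr1, ?_, ?_, ?_⟩
  · intro Z hZ hc
    refine w4 Z ?_
    set A := (Z ×ˢ (univ : Finset (Fin 3))).image ω.1 with hA
    have hZ1 : 1 ≤ Z.card := Finset.card_pos.2 hZ
    have hWc : (Ex_W (M := M) A Z).card = A.card + Z.card := Ex_W_card A Z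
    have heW : 3 * Z.card ≤ eW ω.1 ω.2 (Ex_W A Z) := Ex_eW ω.1 ω.2 Z
    by_cases hsm : ((Ex_W (M := M) A Z).card : ℝ) ≤ δ₁ * r
    · exfalso
      have h1 := w1 (Ex_W A Z) (Ex_W_sub A Z) (by omega) hsm
      omega
    · push Not at hsm
      rw [hWc] at hsm
      push_cast at hsm
      have h1 : (2 : ℝ) * A.card ≤ 3 * Z.card := by exact_mod_cast hc
      have h2 : δ₁ * (β * n / 2) ≤ δ₁ * r := mul_le_mul_of_nonneg_left hr2 hδ₁.le
      have h3 : ζ * n = 2 / 5 * (δ₁ * (β * n / 2)) := by rw [hζ]; ring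
      rw [h3]
      linarith
  · intro W hW
    rcases Nat.eq_zero_or_pos W.card with h0 | h0
    · rw [Finset.card_eq_zero] at h0
      subst h0
      simp [eW]
    · have h1 : (W.card : ℝ) ≤ δ₂ * r := by
        refine hW.trans ?_
        have h2 : δ₂ * (β * n / 2) ≤ δ₂ * r := mul_le_mul_of_nonneg_left hr2 hδ₂.le
        calc δ₂ * β / 2 * n = δ₂ * (β * n / 2) := by ring
          _ ≤ _ := h2
      exact (w2 W h0 h1).le
  · classical
    refine ⟨((univ : Finset (Finset (Node n r M))).filter fun W =>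
        1 ≤ W.card ∧ W.card ≤ g ∧ W.card ≤ eW ω.1 ω.2 W).biUnion fun W =>
        univ.filter fun v => (Sum.inr (Sum.inr v) : Node n r M) ∈ W, ?_, ?_⟩
    · refine (Finset.card_biUnion_le_card_mul _ _ g fun W hW => ?_).trans
        (Nat.mul_le_mul_right g w3)
      rw [Finset.mem_filter] at hW
      refine le_trans ?_ hW.2.2.1
      refine Finset.card_le_card_of_injOn (fun v => (Sum.inr (Sum.inr v) : Node n r M)) ?_ ?_
      · intro v hv
        simp only [Finset.coe_filter, Finset.mem_univ, true_and, Set.mem_ofPred_eq] at hv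
        exact hv
      · intro v _ v' _ hvv
        simpa using hvv
    · intro W hW1 hWg hWe v hv
      rw [Finset.mem_biUnion]
      exact ⟨W, Finset.mem_filter.2 ⟨Finset.mem_univ _, hW1, hWg, hWe⟩,
        Finset.mem_filter.2 ⟨Finset.mem_univ _, hv⟩⟩

end Pool.Agent.H13.PZ

end S_Ex

section S_Grp

/-!
# Cutting the colour classes into groups of at most `k` slots

Order the slots linearly (for example by `3 * p.1 + p.2`, which is injective). The rank of `p` is
the number of slots `p'` before `p` with `f p' = f p`; `γ p = (f p, rank p / k)`. Slots of one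
colour have different ranks, so a group has at most `k` slots (their ranks lie in
`[q k, (q + 1) k)`). If the colour `c` has `m c` slots then the ranks are less than `m c`, so at most
`(m c - 1) / k + 1 ≤ m c / k + 1` groups have the colour `c` (none if `m c = 0`), and
`∑ c, (m c / k + 1) ≤ (∑ c, m c) / k + r = 3 n / k + r`.
-/

namespace Pool.Agent.H13.PZ

open Finset

/-- number the slots -/
def Grp_e {n : ℕ} (p : Fin n × Fin 3) : ℕ := 3 * (p.1 : ℕ) + (p.2 : ℕ)

theorem Grp_inj {n : ℕ} {p p' : Fin n × Fin 3} (h : Grp_e p = Grp_e p') : p = p' := by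
  unfold Grp_e at h
  have h1 := p.2.2
  have h2 := p'.2.2
  apply Prod.ext
  · apply Fin.ext
    omega
  · apply Fin.ext
    omega

/-- the rank of a slot -/
def Grp_rk {n r : ℕ} (f : Fin n × Fin 3 → Fin r) (p : Fin n × Fin 3) : ℕ :=
  (univ.filter fun p' => f p' = f p ∧ Grp_e p' < Grp_e p).card

theorem Grp_lt {n r : ℕ} {f : Fin n × Fin 3 → Fin r} {p p' : Fin n × Fin 3} (hf : f p = f p')
    (h : Grp_e p < Grp_e p') : Grp_rk f p < Grp_rk f p' := by
  unfold Grp_rk
  apply card_lt_card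
  rw [ssubset_iff_of_subset]
  · refine ⟨p, ?_, ?_⟩
    · rw [mem_filter]
      exact ⟨mem_univ _, hf, h⟩
    · rw [mem_filter]
      intro h3
      exact lt_irrefl _ h3.2.2
  · intro x hx
    rw [mem_filter] at hx ⊢
    exact ⟨mem_univ _, hx.2.1.trans hf, hx.2.2.trans h⟩

theorem Grp_rkinj {n r : ℕ} {f : Fin n × Fin 3 → Fin r} {p p' : Fin n × Fin 3} (hf : f p = f p')
    (h : Grp_rk f p = Grp_rk f p') : p = p' := by
  rcases lt_trichotomy (Grp_e p) (Grp_e p') with h1 | h1 | h1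
  · exact absurd h (Grp_lt hf h1).ne
  · exact Grp_inj h1
  · exact absurd h (Grp_lt hf.symm h1).ne'

theorem Grp_rklt {n r : ℕ} (f : Fin n × Fin 3 → Fin r) (p : Fin n × Fin 3) :
    Grp_rk f p < (univ.filter fun p' => f p' = f p).card := by
  unfold Grp_rk
  apply card_lt_card
  rw [ssubset_iff_of_subset]
  · refine ⟨p, ?_, ?_⟩
    · rw [mem_filter]
      exact ⟨mem_univ _, rfl⟩
    · rw [mem_filter]
      intro h3
      exact lt_irrefl _ h3.2.2
  · intro x hx
    rw [mem_filter] at hx ⊢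
    exact ⟨mem_univ _, hx.2.1⟩

theorem exists_groups {n r k : ℕ} (hk : 1 ≤ k) (f : Fin n × Fin 3 → Fin r) :
    ∃ γ : Fin n × Fin 3 → Fin r × ℕ, (∀ p, (γ p).1 = f p) ∧
      (∀ c, (univ.filter fun p => γ p = c).card ≤ k) ∧
      (univ.image γ).card ≤ 3 * n / k + r := by
  refine ⟨fun p => (f p, Grp_rk f p / k), fun _ => rfl, ?_, ?_⟩
  · rintro ⟨c, q⟩
    have h1 : ∀ p ∈ univ.filter (fun p => (f p, Grp_rk f p / k) = (c, q)),
        Grp_rk f p ∈ Ico (q * k) (q * k + k) := by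
      intro p hp
      rw [mem_filter] at hp
      have h2 : Grp_rk f p / k = q := (Prod.mk.inj hp.2).2
      rw [mem_Ico, ← h2]
      have h3 := Nat.div_add_mod (Grp_rk f p) k
      have h4 := Nat.mod_lt (Grp_rk f p) hk
      have h5 : k * (Grp_rk f p / k) = Grp_rk f p / k * k := mul_comm _ _
      omega
    have h2 := card_le_card_of_injOn (Grp_rk f) h1 (fun p hp p' hp' h => by
      rw [mem_coe, mem_filter] at hp hp'
      have h3 : f p = c := (Prod.mk.inj hp.2).1
      have h4 : f p' = c := (Prod.mk.inj hp'.2).1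
      exact Grp_rkinj (h3.trans h4.symm) h)
    rw [Nat.card_Ico, Nat.add_sub_cancel_left] at h2
    exact h2
  · have hsub : univ.image (fun p => (f p, Grp_rk f p / k)) ⊆
        (univ : Finset (Fin r)).biUnion (fun c =>
          (range ((univ.filter fun p' => f p' = c).card / k + 1)).image (fun q => (c, q))) := by
      intro x hx
      rw [mem_image] at hx
      obtain ⟨p, _, rfl⟩ := hx
      rw [mem_biUnion]
      refine ⟨f p, mem_univ _, ?_⟩
      rw [mem_image]
      refine ⟨Grp_rk f p / k, ?_, rfl⟩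
      rw [mem_range]
      have := Nat.div_le_div_right (c := k) (Grp_rklt f p).le
      omega
    refine (card_le_card hsub).trans ?_
    refine card_biUnion_le.trans ?_
    have h1 : ∀ c ∈ (univ : Finset (Fin r)),
        ((range ((univ.filter fun p' => f p' = c).card / k + 1)).image
          (fun q => (c, q))).card ≤ (univ.filter fun p' => f p' = c).card / k + 1 := by
      intro c _
      refine card_image_le.trans ?_
      rw [card_range]
    refine (sum_le_sum h1).trans ?_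
    rw [sum_add_distrib, sum_const, card_univ, Fintype.card_fin, smul_eq_mul, mul_one]
    refine Nat.add_le_add_right ?_ r
    rw [Nat.le_div_iff_mul_le hk, sum_mul]
    have h2 : ∑ c : Fin r, (univ.filter fun p' => f p' = c).card = 3 * n := by
      have h3 := card_eq_sum_card_fiberwise (s := (univ : Finset (Fin n × Fin 3)))
        (t := (univ : Finset (Fin r))) (f := f) (fun x _ => mem_coe.2 (mem_univ (f x)))
      rw [← h3, card_univ, Fintype.card_prod, Fintype.card_fin, Fintype.card_fin]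
      ring
    rw [← h2]
    exact sum_le_sum fun c _ => Nat.div_mul_le_self _ _

end Pool.Agent.H13.PZ

end S_Grp

section S_Mk

/-!
# The system of rows and triples made from slots

`rows`: for every group `c` in the image of `γ` the set of variables with a slot in `c`, and `{v}`
for `v ∈ Bad`. `trips`: for every `b` the set `{h (b, j)}`. `δ n` is replaced by `N₀`.
* `row_card`: a group in the image is nonempty and has at most `k` slots. `trip_card`: at most
  three elements, nonempty. If it has less than three, `h (b, j) = h (b, j') = v` with `j ≠ j'`;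
  `W = {b, v}` (tags) has two elements and `eW ≥ 2`, so `v ∈ Bad` (`2 ≤ g`) and `{v} ∈ rows`.
* `uniq`: let `Z` be nonempty with `(ρ ∩ Z).card ≠ 1` for all rows. Every group that contains a slot
  of a variable of `Z` gives a row that meets `Z`, so at least two variables of `Z`, so at least two
  slots of `Z`; as `Z` has `3 |Z|` slots there are at most `(3/2) |Z|` such groups, and at most as
  many colours (different colours have different groups, `(γ p).1 = f p`). So `hu` applies.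
* `sparse`: let `S ⊆ rows` with all cards at least `2`, `T ⊆ trips`, `X`. A row in `S` is not `{v}`,
  so it comes from a group `c_ρ` (choose one); different rows have different groups. Let `W` consist
  of the colours of these groups, of one index `b_t` for every `t ∈ T`, and of `X`. Then
  `|W| ≤ |S| + |T| + |X|`. `∑ ρ ∈ S, |ρ ∩ X| + ∑ t ∈ T, |t ∩ X| ≤ eW f h W`: for `v ∈ ρ ∩ X` choose a
  slot `(v, j)` in the group `c_ρ`, its colour is in `W`; different pairs `(ρ, v)` give different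
  slots. For `v ∈ t ∩ X` choose `j` with `h (b_t, j) = v`; again different pairs give different slots.
  Now use `hs`.
* `forest`: the same `W`. If `∑ ... ≥ |S| + |T| + |X| ≥ |W|` then `|W| ≤ eW f h W` and `|W| ≤ g`. If
  `|W| ≥ 1` every `v ∈ X` is in `Bad`, so `{v} ∈ rows`, so `X = ∅` by hypothesis and the sum is `0`,
  a contradiction to `0 < |S| + |T| + |X|`. If `W = ∅` then `X = ∅` and again the sum is `0`.
* number of rows: at most the number of groups plus `|Bad|`.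
-/

namespace Pool.Agent.H13.PZ

open Finset

/-- The variables with a slot in the group `c`. -/
def Mk_grp {n r : ℕ} (γ : Fin n × Fin 3 → Fin r × ℕ) (c : Fin r × ℕ) : Finset (Fin n) :=
  univ.filter fun v => ∃ j, γ (v, j) = c

/-- The values of the slots of `b`. -/
def Mk_tr {n M : ℕ} (h : Fin M × Fin 3 → Fin n) (b : Fin M) : Finset (Fin n) :=
  univ.image fun j : Fin 3 => h (b, j)

/-- The node set of `S`, `T`, `X`. -/
def Mk_W {n r M : ℕ} (S T : Finset (Finset (Fin n))) (cρ : {ρ // ρ ∈ S} → Fin r × ℕ)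
    (bt : {t // t ∈ T} → Fin M) (X : Finset (Fin n)) : Finset (Node n r M) :=
  (S.attach.image fun ρ => Sum.inl (cρ ρ).1) ∪
    ((T.attach.image fun t => Sum.inr (Sum.inl (bt t))) ∪
    (X.image fun v => Sum.inr (Sum.inr v)))

theorem Mk_W_card {n r M : ℕ} (S T : Finset (Finset (Fin n))) (cρ : {ρ // ρ ∈ S} → Fin r × ℕ)
    (bt : {t // t ∈ T} → Fin M) (X : Finset (Fin n)) :
    (Mk_W S T cρ bt X).card ≤ S.card + T.card + X.card := by
  unfold Mk_W
  have h1 := card_union_le (S.attach.image fun ρ => (Sum.inl (cρ ρ).1 : Node n r M))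
    ((T.attach.image fun t => Sum.inr (Sum.inl (bt t))) ∪ (X.image fun v => Sum.inr (Sum.inr v)))
  have h2 := card_union_le (T.attach.image fun t => (Sum.inr (Sum.inl (bt t)) : Node n r M))
    (X.image fun v => Sum.inr (Sum.inr v))
  have h3 : (S.attach.image fun ρ => (Sum.inl (cρ ρ).1 : Node n r M)).card ≤ S.card :=
    card_image_le.trans card_attach.le
  have h4 : (T.attach.image fun t => (Sum.inr (Sum.inl (bt t)) : Node n r M)).card ≤ T.card :=
    card_image_le.trans card_attach.le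
  have h5 : (X.image fun v => (Sum.inr (Sum.inr v) : Node n r M)).card ≤ X.card := card_image_le
  omega

theorem Mk_key {n r M : ℕ} (f : Fin n × Fin 3 → Fin r) (h : Fin M × Fin 3 → Fin n)
    (γ : Fin n × Fin 3 → Fin r × ℕ) (hγf : ∀ p, (γ p).1 = f p)
    (S T : Finset (Finset (Fin n))) (cρ : {ρ // ρ ∈ S} → Fin r × ℕ)
    (bt : {t // t ∈ T} → Fin M) (X : Finset (Fin n))
    (hc : ∀ ρ, Mk_grp γ (cρ ρ) = ρ.1) (ht : ∀ t, Mk_tr h (bt t) = t.1) :
    ∑ ρ ∈ S, (ρ ∩ X).card + ∑ t ∈ T, (t ∩ X).card ≤ eW f h (Mk_W S T cρ bt X) := by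
  rw [← sum_attach S, ← sum_attach T]
  unfold eW
  apply Nat.add_le_add
  · have h1 : ∀ ρ : {ρ // ρ ∈ S}, ∀ v ∈ ρ.1 ∩ X, ∃ j, γ (v, j) = cρ ρ := by
      intro ρ v hv
      have h2 : v ∈ Mk_grp γ (cρ ρ) := by
        rw [hc ρ]
        exact (mem_inter.1 hv).1
      simpa [Mk_grp] using h2
    choose! j hj using h1
    rw [← card_sigma]
    apply card_le_card_of_injOn (fun p : (_ : {ρ // ρ ∈ S}) × Fin n => (p.2, j p.1 p.2))
    · rintro ⟨ρ, v⟩ hp
      have hp' := mem_sigma.1 (mem_coe.1 hp)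
      simp only at hp'
      have h3 := hj ρ v hp'.2
      simp only [coe_filter, mem_univ, true_and, Set.mem_ofPred_eq]
      constructor
      · unfold Mk_W
        apply mem_union_right
        apply mem_union_right
        exact mem_image.2 ⟨v, (mem_inter.1 hp'.2).2, rfl⟩
      · unfold Mk_W
        apply mem_union_left
        refine mem_image.2 ⟨ρ, mem_attach _ _, ?_⟩
        rw [← h3, hγf]
    · rintro ⟨ρ, v⟩ hp ⟨ρ', v'⟩ hp' he
      have hp1 := mem_sigma.1 (mem_coe.1 hp)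
      have hp2 := mem_sigma.1 (mem_coe.1 hp')
      simp only at hp1 hp2
      have hv : v = v' := congrArg Prod.fst he
      have hj' : j ρ v = j ρ' v' := congrArg Prod.snd he
      subst hv
      have h3 := hj ρ v hp1.2
      have h4 := hj ρ' v hp2.2
      rw [hj', h4] at h3
      have h5 : ρ = ρ' := by
        apply Subtype.ext
        rw [← hc ρ, ← hc ρ', h3]
      subst h5
      rfl
  · have h1 : ∀ t : {t // t ∈ T}, ∀ v ∈ t.1 ∩ X, ∃ j, h (bt t, j) = v := by
      intro t v hv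
      have h2 : v ∈ Mk_tr h (bt t) := by
        rw [ht t]
        exact (mem_inter.1 hv).1
      simpa [Mk_tr] using h2
    choose! j hj using h1
    rw [← card_sigma]
    apply card_le_card_of_injOn (fun p : (_ : {t // t ∈ T}) × Fin n => (bt p.1, j p.1 p.2))
    · rintro ⟨t, v⟩ hp
      have hp' := mem_sigma.1 (mem_coe.1 hp)
      simp only at hp'
      have h3 := hj t v hp'.2
      simp only [coe_filter, mem_univ, true_and, Set.mem_ofPred_eq]
      constructor
      · unfold Mk_W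
        apply mem_union_right
        apply mem_union_left
        exact mem_image.2 ⟨t, mem_attach _ _, rfl⟩
      · rw [h3]
        unfold Mk_W
        apply mem_union_right
        apply mem_union_right
        exact mem_image.2 ⟨v, (mem_inter.1 hp'.2).2, rfl⟩
    · rintro ⟨t, v⟩ hp ⟨t', v'⟩ hp' he
      have hp1 := mem_sigma.1 (mem_coe.1 hp)
      have hp2 := mem_sigma.1 (mem_coe.1 hp')
      simp only at hp1 hp2
      have hv : bt t = bt t' := congrArg Prod.fst he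
      have hj' : j t v = j t' v' := congrArg Prod.snd he
      have h3 := hj t v hp1.2
      have h4 := hj t' v' hp2.2
      have h5 : t = t' := by
        apply Subtype.ext
        rw [← ht t, ← ht t', hv]
      subst h5
      rw [hj', h4] at h3
      subst h3
      rfl

theorem Mk_uniq {n r : ℕ} (f : Fin n × Fin 3 → Fin r)
    (γ : Fin n × Fin 3 → Fin r × ℕ) (hγf : ∀ p, (γ p).1 = f p) (Z : Finset (Fin n))
    (hZ : ∀ c ∈ univ.image γ, (Mk_grp γ c ∩ Z).card ≠ 1) :
    2 * ((Z ×ˢ (univ : Finset (Fin 3))).image f).card ≤ 3 * Z.card := by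
  have h1 : ((Z ×ˢ (univ : Finset (Fin 3))).image f).card ≤
      ((Z ×ˢ (univ : Finset (Fin 3))).image γ).card := by
    have h2 : (Z ×ˢ (univ : Finset (Fin 3))).image f =
        ((Z ×ˢ (univ : Finset (Fin 3))).image γ).image Prod.fst := by
      rw [image_image]
      apply image_congr
      intro p _
      simp [hγf]
    rw [h2]
    exact card_image_le
  have h3 : ∀ c ∈ (Z ×ˢ (univ : Finset (Fin 3))).image γ,
      2 ≤ ((Z ×ˢ (univ : Finset (Fin 3))).filter fun p => γ p = c).card := by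
    intro c hc
    obtain ⟨p, hp, hpc⟩ := mem_image.1 hc
    have hp1 : p.1 ∈ Z := (mem_product.1 hp).1
    have h4 := hZ c (mem_image.2 ⟨p, mem_univ _, hpc⟩)
    have h5 : p.1 ∈ Mk_grp γ c ∩ Z := by
      rw [mem_inter]
      refine ⟨?_, hp1⟩
      simp only [Mk_grp, mem_filter, mem_univ, true_and]
      exact ⟨p.2, hpc⟩
    have h6 : 1 < (Mk_grp γ c ∩ Z).card := by
      have := card_pos.2 ⟨_, h5⟩
      omega
    obtain ⟨u, hu, v, hv, huv⟩ := one_lt_card.1 h6
    obtain ⟨hu1, hu2⟩ := mem_inter.1 hu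
    obtain ⟨hv1, hv2⟩ := mem_inter.1 hv
    simp only [Mk_grp, mem_filter, mem_univ, true_and] at hu1 hv1
    obtain ⟨i, hi⟩ := hu1
    obtain ⟨j, hj⟩ := hv1
    apply one_lt_card.2
    refine ⟨(u, i), ?_, (v, j), ?_, ?_⟩
    · simp [hu2, hi]
    · simp [hv2, hj]
    · intro he
      exact huv (congrArg Prod.fst he)
  have h4 : (Z ×ˢ (univ : Finset (Fin 3))).card = ∑ c ∈ (Z ×ˢ (univ : Finset (Fin 3))).image γ,
      ((Z ×ˢ (univ : Finset (Fin 3))).filter fun p => γ p = c).card :=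
    card_eq_sum_card_image γ _
  have h5 := sum_le_sum h3
  rw [← h4, sum_const, card_product, card_univ, Fintype.card_fin, smul_eq_mul] at h5
  omega

theorem exists_sys_of_slots {n r M k q g N₀ : ℕ} (hg : 2 ≤ g)
    (f : Fin n × Fin 3 → Fin r) (h : Fin M × Fin 3 → Fin n) (γ : Fin n × Fin 3 → Fin r × ℕ)
    (Bad : Finset (Fin n)) (hk : 1 ≤ k) (hγf : ∀ p, (γ p).1 = f p)
    (hγk : ∀ c, (univ.filter fun p => γ p = c).card ≤ k)
    (hu : ∀ Z : Finset (Fin n), Z.Nonempty →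
      2 * ((Z ×ˢ (univ : Finset (Fin 3))).image f).card ≤ 3 * Z.card → ∃ b, ∀ j, h (b, j) ∈ Z)
    (hs : ∀ W : Finset (Node n r M), W.card ≤ N₀ → q * eW f h W ≤ (q + 1) * W.card)
    (hb : ∀ W : Finset (Node n r M), 1 ≤ W.card → W.card ≤ g → W.card ≤ eW f h W →
      ∀ v, Sum.inr (Sum.inr v) ∈ W → v ∈ Bad) :
    ∃ rows trips : Finset (Finset (Fin n)), Sys rows trips k q g N₀ ∧
      rows.card ≤ (univ.image γ).card + Bad.card := by
  set R : Finset (Finset (Fin n)) :=
    (univ.image γ).image (Mk_grp γ) ∪ Bad.image fun v => ({v} : Finset (Fin n)) with hR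
  have hbad : ∀ v ∈ Bad, ({v} : Finset (Fin n)) ∈ R := by
    intro v hv
    apply mem_union_right
    exact mem_image.2 ⟨v, hv, rfl⟩
  have hrow : ∀ ρ ∈ R, 2 ≤ ρ.card → ∃ c, Mk_grp γ c = ρ := by
    intro ρ hρ h2
    rcases mem_union.1 hρ with h3 | h3
    · obtain ⟨c, _, hc⟩ := mem_image.1 h3
      exact ⟨c, hc⟩
    · obtain ⟨v, _, hv⟩ := mem_image.1 h3
      rw [← hv, card_singleton] at h2
      omega
  have htrip : ∀ t ∈ univ.image (Mk_tr h), ∃ b, Mk_tr h b = t := by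
    intro t ht
    obtain ⟨b, _, hb⟩ := mem_image.1 ht
    exact ⟨b, hb⟩
  have hW : ∀ S ⊆ R, ∀ T ⊆ univ.image (Mk_tr h), ∀ X : Finset (Fin n), (∀ ρ ∈ S, 2 ≤ ρ.card) →
      ∃ W : Finset (Node n r M), W.card ≤ S.card + T.card + X.card ∧
        ∑ ρ ∈ S, (ρ ∩ X).card + ∑ t ∈ T, (t ∩ X).card ≤ eW f h W ∧
        ∀ v ∈ X, Sum.inr (Sum.inr v) ∈ W := by
    intro S hS T hT X h2
    have h3 : ∀ ρ : {ρ // ρ ∈ S}, ∃ c, Mk_grp γ c = ρ.1 := fun ρ =>
      hrow ρ.1 (hS ρ.2) (h2 ρ.1 ρ.2)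
    have h4 : ∀ t : {t // t ∈ T}, ∃ b, Mk_tr h b = t.1 := fun t => htrip t.1 (hT t.2)
    choose cρ hc using h3
    choose bt ht using h4
    refine ⟨Mk_W S T cρ bt X, Mk_W_card S T cρ bt X, Mk_key f h γ hγf S T cρ bt X hc ht, ?_⟩
    intro v hv
    unfold Mk_W
    apply mem_union_right
    apply mem_union_right
    exact mem_image.2 ⟨v, hv, rfl⟩
  refine ⟨R, univ.image (Mk_tr h), ⟨?_, ?_, ?_, ?_, ?_⟩, ?_⟩
  · intro ρ hρ
    rcases mem_union.1 hρ with h3 | h3
    · obtain ⟨c, hc, hcρ⟩ := mem_image.1 h3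
      obtain ⟨p, _, hp⟩ := mem_image.1 hc
      rw [← hcρ]
      refine ⟨⟨p.1, ?_⟩, ?_⟩
      · simp only [Mk_grp, mem_filter, mem_univ, true_and]
        exact ⟨p.2, hp⟩
      · refine le_trans ?_ (hγk c)
        have h5 : Mk_grp γ c ⊆ (univ.filter fun p => γ p = c).image Prod.fst := by
          intro v hv
          simp only [Mk_grp, mem_filter, mem_univ, true_and] at hv
          obtain ⟨j, hj⟩ := hv
          exact mem_image.2 ⟨(v, j), by simp [hj], rfl⟩
        exact (card_le_card h5).trans card_image_le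
    · obtain ⟨v, _, hv⟩ := mem_image.1 h3
      rw [← hv]
      exact ⟨singleton_nonempty _, by rw [card_singleton]; exact hk⟩
  · intro t ht
    obtain ⟨b, _, hbt⟩ := mem_image.1 ht
    have h3 : t.card ≤ 3 := by
      rw [← hbt]
      refine card_image_le.trans ?_
      simp
    refine ⟨?_, h3, ?_⟩
    · rw [← hbt]
      exact ⟨h (b, 0), mem_image.2 ⟨0, mem_univ _, rfl⟩⟩
    · by_cases h4 : t.card = 3
      · exact Or.inl h4
      · right
        have h5 : ¬ Function.Injective fun j : Fin 3 => h (b, j) := by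
          intro h6
          apply h4
          rw [← hbt]
          unfold Mk_tr
          rw [card_image_of_injective _ h6]
          simp
        unfold Function.Injective at h5
        push Not at h5
        obtain ⟨i, j, hij, hne⟩ := h5
        refine ⟨h (b, i), ?_, ?_⟩
        · rw [← hbt]
          exact mem_image.2 ⟨i, mem_univ _, rfl⟩
        · apply hbad
          have hcard : ({Sum.inr (Sum.inl b), Sum.inr (Sum.inr (h (b, i)))} :
              Finset (Node n r M)).card = 2 := by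
            rw [card_pair]
            simp
          refine hb {Sum.inr (Sum.inl b), Sum.inr (Sum.inr (h (b, i)))} (by rw [hcard]; norm_num)
            (by rw [hcard]; exact hg) ?_ (h (b, i)) (by simp)
          rw [hcard]
          unfold eW
          refine le_trans ?_ (Nat.le_add_left _ _)
          apply one_lt_card.2
          refine ⟨(b, i), ?_, (b, j), ?_, ?_⟩
          · simp
          · simp only [mem_filter, mem_univ, true_and]
            constructor
            · simp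
            · have h7 : h (b, j) = h (b, i) := hij.symm
              rw [h7]
              simp
          · intro he
            exact hne (congrArg Prod.snd he)
  · intro Z hZ h1
    obtain ⟨b, hb1⟩ := hu Z hZ (Mk_uniq f γ hγf Z (fun c hc => h1 _ (mem_union_left _
      (mem_image.2 ⟨c, hc, rfl⟩))))
    refine ⟨Mk_tr h b, mem_image.2 ⟨b, mem_univ _, rfl⟩, ?_⟩
    intro v hv
    obtain ⟨j, _, hj⟩ := mem_image.1 hv
    rw [← hj]
    exact hb1 j
  · intro S hS T hT X h2 hN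
    obtain ⟨W, hW1, hW2, _⟩ := hW S hS T hT X h2
    calc q * (∑ ρ ∈ S, (ρ ∩ X).card + ∑ t ∈ T, (t ∩ X).card) ≤ q * eW f h W :=
          Nat.mul_le_mul_left _ hW2
      _ ≤ (q + 1) * W.card := hs W (hW1.trans hN)
      _ ≤ _ := Nat.mul_le_mul_left _ hW1
  · intro S hS T hT X h2 hX h0 hg'
    obtain ⟨W, hW1, hW2, hW3⟩ := hW S hS T hT X h2
    by_contra hcon
    push Not at hcon
    have hX0 : X = ∅ := by
      by_contra hne
      obtain ⟨v, hv⟩ := nonempty_iff_ne_empty.2 hne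
      have h3 := hW3 v hv
      exact hX v hv (hbad v (hb W (card_pos.2 ⟨_, h3⟩) (hW1.trans hg') (by omega) v h3))
    subst hX0
    simp only [inter_empty, card_empty, sum_const_zero, Nat.add_zero] at hcon h0
    omega
  · refine (card_union_le _ _).trans ?_
    exact Nat.add_le_add card_image_le card_image_le

end Pool.Agent.H13.PZ

end S_Mk

section S_SysEx

/-!
# Existence of sparse systems with few rows
-/

namespace Pool.Agent.H13.PZ

open Finset

theorem exists_sys (k q g : ℕ) (hk : 1 ≤ k) (hq : 1 ≤ q) (hg : 2 ≤ g) (τ : ℝ) (hτ : 0 < τ) :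
    ∃ δ : ℝ, 0 < δ ∧ ∃ n₀ : ℕ, ∀ n ≥ n₀, ∃ rows trips : Finset (Finset (Fin n)),
      Sys rows trips k q g ⌊δ * n⌋₊ ∧ (rows.card : ℝ) ≤ 3 * n / k + τ * n := by
  obtain ⟨δ, hδ, B, n₀, h⟩ := exists_slots (min 1 (τ / 2)) (by positivity) (min_le_left _ _) q g hq
  refine ⟨δ, hδ, max n₀ ⌈2 * B / τ⌉₊, fun n hn => ?_⟩
  obtain ⟨r, M, f, hh, hr, hu, hs, Bad, hB, hb⟩ := h n (le_trans (le_max_left _ _) hn)
  obtain ⟨γ, h1, h2, h3⟩ := exists_groups hk f
  obtain ⟨rows, trips, hS, hc⟩ := exists_sys_of_slots (k := k) (q := q) (g := g)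
    (N₀ := ⌊δ * n⌋₊) hg f hh γ Bad hk h1 h2 hu
    (fun W hW => hs W (le_trans (by exact_mod_cast hW) (Nat.floor_le (by positivity)))) hb
  refine ⟨rows, trips, hS, ?_⟩
  have e1 : (rows.card : ℝ) ≤ ((3 * n / k : ℕ) : ℝ) + r + Bad.card := by
    have : rows.card ≤ 3 * n / k + r + Bad.card := by omega
    exact_mod_cast this
  have e2 : ((3 * n / k : ℕ) : ℝ) ≤ 3 * n / k := by
    refine le_trans Nat.cast_div_le ?_
    push_cast
    exact le_refl _
  have e3 : (r : ℝ) ≤ τ / 2 * n :=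
    le_trans hr (mul_le_mul_of_nonneg_right (min_le_right _ _) (by positivity))
  have e4 : (Bad.card : ℝ) ≤ τ / 2 * n := by
    have : (⌈2 * B / τ⌉₊ : ℝ) ≤ n := by exact_mod_cast le_trans (le_max_right _ _) hn
    have h5 : 2 * B / τ ≤ (n : ℝ) := le_trans (Nat.le_ceil _) this
    have h6 : (Bad.card : ℝ) ≤ B := by exact_mod_cast hB
    rw [div_le_iff₀ hτ] at h5
    nlinarith
  nlinarith

end Pool.Agent.H13.PZ

end S_SysEx
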