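import Mathlib
import Pool.Agent.H13.PP.Sys

/-! Solvers of PPSZ type, part Sum (sums of squares and the count of good random strings): this file joins several modules to save build time. -/

section S_Psd

/-!
# Matrices with entries 0, 1, -1 from an equivalence relation with signs are positive semidefinite

`M a a = 1`, `M` symmetric, entries in `{0, 1, -1}`, and `M a b ≠ 0`, `M b c ≠ 0` imply
`M a c = M a b * M b c`. So `M a b ≠ 0` is an equivalence relation on `P`. Choose a representative
`r a` of the class of `a` (a function with `M a (r a) ≠ 0` and `r a = r b` whenever `M a b ≠ 0`, for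
example from `Quotient.out` of the setoid) and put `ε a = M a (r a)`. Then
`M a b = if r a = r b then ε a * ε b else 0` (if `r a = r b = z` then `M a b = M a z * M z b`; if
`M a b ≠ 0` then `r a = r b`). So the sum is `∑ z, (∑ a with r a = z, c a * ε a) ^ 2 ≥ 0`.
-/

namespace Pool.Agent.H13.PZ

open Finset

open Classical in
/-- the size of a class -/
noncomputable def Psd_N {T : Type} (P : Finset T) (M : T → T → ℝ) (z : T) : ℝ :=
  ((P.filter (fun b => M z b ≠ 0)).card : ℝ)

theorem psd_of_sign {T : Type} [DecidableEq T] (P : Finset T) (M : T → T → ℝ)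
    (h1 : ∀ a ∈ P, M a a = 1) (h2 : ∀ a ∈ P, ∀ b ∈ P, M a b = M b a)
    (h3 : ∀ a ∈ P, ∀ b ∈ P, M a b = 0 ∨ M a b = 1 ∨ M a b = -1)
    (h4 : ∀ a ∈ P, ∀ b ∈ P, ∀ c ∈ P, M a b ≠ 0 → M b c ≠ 0 → M a c = M a b * M b c)
    (c : T → ℝ) : 0 ≤ ∑ a ∈ P, ∑ b ∈ P, c a * c b * M a b := by
  classical
  have hN0 : ∀ z, 0 ≤ Psd_N P M z := fun z => Nat.cast_nonneg _
  have hNp : ∀ z ∈ P, 0 < Psd_N P M z := by
    intro z hz
    unfold Psd_N
    rw [Nat.cast_pos, card_pos]
    refine ⟨z, mem_filter.2 ⟨hz, ?_⟩⟩
    rw [h1 z hz]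
    exact one_ne_zero
  have hNe : ∀ a ∈ P, ∀ z ∈ P, M a z ≠ 0 → Psd_N P M z = Psd_N P M a := by
    intro a ha z hz haz
    unfold Psd_N
    have : P.filter (fun b => M z b ≠ 0) = P.filter (fun b => M a b ≠ 0) := by
      refine filter_congr fun y hy => ⟨fun h => ?_, fun h => ?_⟩
      · rw [h4 a ha z hz y hy haz h]
        exact mul_ne_zero haz h
      · have hza : M z a ≠ 0 := by rw [h2 z hz a ha]; exact haz
        rw [h4 z hz a ha y hy hza h]
        exact mul_ne_zero hza h
    rw [this]
  have key : ∀ a ∈ P, ∀ b ∈ P, ∑ z ∈ P, (Psd_N P M z)⁻¹ * (M a z * M b z) = M a b := by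
    intro a ha b hb
    by_cases hab : M a b = 0
    · rw [hab]
      refine sum_eq_zero fun z hz => ?_
      by_cases haz : M a z = 0
      · rw [haz]
        ring
      by_cases hbz : M b z = 0
      · rw [hbz]
        ring
      exfalso
      have hzb : M z b ≠ 0 := by rw [h2 z hz b hb]; exact hbz
      have := h4 a ha z hz b hb haz hzb
      rw [hab] at this
      exact mul_ne_zero haz hzb this.symm
    · have hba : M b a ≠ 0 := by rw [h2 b hb a ha]; exact hab
      have e1 : ∀ z ∈ P, (Psd_N P M z)⁻¹ * (M a z * M b z) =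
          if M a z ≠ 0 then (Psd_N P M a)⁻¹ * M a b else 0 := by
        intro z hz
        by_cases haz : M a z = 0
        · rw [if_neg (not_not.2 haz), haz]
          ring
        · rw [if_pos haz, hNe a ha z hz haz, h4 b hb a ha z hz hba haz, h2 b hb a ha]
          have hsq : M a z * M a z = 1 := by
            rcases h3 a ha z hz with h | h | h
            · exact absurd h haz
            · rw [h]; ring
            · rw [h]; ring
          linear_combination (Psd_N P M a)⁻¹ * M a b * hsq
      rw [sum_congr rfl e1, ← sum_filter, sum_const, nsmul_eq_mul]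
      have e2 : ((P.filter (fun z => M a z ≠ 0)).card : ℝ) = Psd_N P M a := rfl
      rw [e2, ← mul_assoc, mul_inv_cancel₀ (hNp a ha).ne', one_mul]
  have main : ∑ a ∈ P, ∑ b ∈ P, c a * c b * M a b =
      ∑ z ∈ P, (Psd_N P M z)⁻¹ * (∑ a ∈ P, c a * M a z) ^ 2 := by
    have e1 : ∀ z ∈ P, (Psd_N P M z)⁻¹ * (∑ a ∈ P, c a * M a z) ^ 2 =
        ∑ a ∈ P, ∑ b ∈ P, c a * c b * ((Psd_N P M z)⁻¹ * (M a z * M b z)) := by
      intro z _
      rw [pow_two, sum_mul_sum, mul_sum]
      refine sum_congr rfl fun a _ => ?_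
      rw [mul_sum]
      refine sum_congr rfl fun b _ => ?_
      ring
    rw [sum_congr rfl e1]
    symm
    rw [sum_comm]
    refine sum_congr rfl fun a ha => ?_
    rw [sum_comm]
    refine sum_congr rfl fun b hb => ?_
    rw [← mul_sum, key a ha b hb]
  rw [main]
  exact sum_nonneg fun z _ => mul_nonneg (inv_nonneg.2 (hN0 z)) (sq_nonneg _)

end Pool.Agent.H13.PZ

end S_Psd

section S_SosA

/-!
# Parity constraints implied by few constraints

`supp V J`: the points in an odd number of the `V i`, `i ∈ J`. `supp V (J ∆ J') =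
supp V J ∆ supp V J'` (`∆` is `symmDiff`; the number of `i ∈ J ∆ J'` with `v ∈ V i` has the parity of
the sum of the numbers for `J` and `J'`), `bdry V J ⊆ supp V J`.
`Rel T s`: some `J ⊆ I` with at most `m` elements has `(supp V J).erase x = T`, and `s` is `-1` if
`x ∈ supp V J`, and `1` otherwise. Let `Γ * (W + 1) ≤ m`.
* `rel_unique`: if `J`, `J'` belong to the same `T` then `supp V (J ∆ J') ⊆ {x}`, so
  `bdry V (J ∆ J')` has at most one element; `J ∆ J' ⊆ I` has at most `2 m` elements, so by
  `ParSys.bd` it is empty, `J = J'`, and `s = s'`.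
* `rel_mul`: `J ∆ J'` has at most `2 m` elements, and `(supp V (J ∆ J')).erase x = T ∆ T'`,
  `bdry V (J ∆ J') ⊆ supp` has at most `W + 1` elements; by `bd` `|J ∆ J'| ≤ Γ (W + 1) ≤ m` (or it is
  empty). The sign: `x ∈ supp V J ∆ supp V J'` iff exactly one of the memberships holds.
* `rel_empty`: `J = ∅`. `rel_single`: `J = {i}`, `supp V {i} = V i`, `1 ≤ m`.
-/

namespace Pool.Agent.H13.PZ

open Finset

/-- The points that lie in an odd number of the sets `V i`, `i ∈ J`. -/
def supp {n : ℕ} {ι : Type} (V : ι → Finset (Fin n)) (J : Finset ι) : Finset (Fin n) :=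
  univ.filter fun v => Odd (J.filter fun i => v ∈ V i).card

/-- The parity constraint on `T` with sign `s` follows from at most `m` constraints. -/
def Rel {n : ℕ} {ι : Type} (I : Finset ι) (V : ι → Finset (Fin n)) (m : ℕ) (x : Fin n)
    (T : Finset (Fin n)) (s : ℝ) : Prop :=
  ∃ J ⊆ I, J.card ≤ m ∧ (supp V J).erase x = T ∧ s = if x ∈ supp V J then -1 else 1

theorem SosA_sub {ι : Type} [DecidableEq ι] {I J J' : Finset ι} (hJ : J ⊆ I) (hJ' : J' ⊆ I) :
    symmDiff J J' ⊆ I := by
  intro i hi
  rw [Finset.mem_symmDiff] at hi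
  rcases hi with hi | hi
  · exact hJ hi.1
  · exact hJ' hi.1

theorem SosA_card {ι : Type} [DecidableEq ι] (J J' : Finset ι) :
    (symmDiff J J').card ≤ J.card + J'.card := by
  have h1 : symmDiff J J' ⊆ J ∪ J' := by
    intro i hi
    rw [Finset.mem_symmDiff] at hi
    rw [Finset.mem_union]
    rcases hi with hi | hi
    · exact Or.inl hi.1
    · exact Or.inr hi.1
  exact (Finset.card_le_card h1).trans (Finset.card_union_le _ _)

theorem supp_symmDiff {n : ℕ} {ι : Type} [DecidableEq ι] (V : ι → Finset (Fin n))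
    (J J' : Finset ι) : supp V (symmDiff J J') = symmDiff (supp V J) (supp V J') := by
  have hcard : ∀ A B : Finset ι, (symmDiff A B).card + 2 * (A ∩ B).card = A.card + B.card := by
    intro A B
    have h1 : (symmDiff A B).card = (A \ B).card + (B \ A).card := by
      rw [symmDiff_def, Finset.sup_eq_union]
      exact Finset.card_union_of_disjoint (disjoint_sdiff_sdiff)
    have h2 := Finset.card_sdiff_add_card_inter A B
    have h3 := Finset.card_sdiff_add_card_inter B A
    rw [Finset.inter_comm B A] at h3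
    omega
  ext v
  have hf : (symmDiff J J').filter (fun i => v ∈ V i) =
      symmDiff (J.filter fun i => v ∈ V i) (J'.filter fun i => v ∈ V i) := by
    ext i
    simp only [Finset.mem_filter, Finset.mem_symmDiff]
    tauto
  have hc := hcard (J.filter fun i => v ∈ V i) (J'.filter fun i => v ∈ V i)
  rw [Finset.mem_symmDiff]
  unfold supp
  simp only [Finset.mem_filter, Finset.mem_univ, true_and]
  rw [hf]
  simp only [Nat.odd_iff]
  omega

theorem bdry_subset_supp {n : ℕ} {ι : Type} (V : ι → Finset (Fin n)) (J : Finset ι) :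
    bdry V J ⊆ supp V J := by
  intro v hv
  unfold bdry at hv
  unfold supp
  rw [Finset.mem_filter] at hv ⊢
  refine ⟨hv.1, ?_⟩
  rw [hv.2]
  exact odd_one

theorem rel_sign {n : ℕ} {ι : Type} {I : Finset ι} {V : ι → Finset (Fin n)} {m : ℕ}
    {x : Fin n} {T : Finset (Fin n)} {s : ℝ} (h : Rel I V m x T s) : s = 1 ∨ s = -1 := by
  obtain ⟨J, _, _, _, hs⟩ := h
  rw [hs]
  split_ifs
  · exact Or.inr rfl
  · exact Or.inl rfl

theorem rel_unique {n : ℕ} {F : CNF n} {K : Finset (Fin n)} {x : Fin n} {ι : Type}
    {I : Finset ι} {V : ι → Finset (Fin n)} {m Γ : ℕ} (h : ParSys F K x I V m Γ)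
    {T : Finset (Fin n)} {s s' : ℝ} (h1 : Rel I V m x T s) (h2 : Rel I V m x T s') : s = s' := by
  classical
  obtain ⟨J, hJ, hJm, hJT, hs⟩ := h1
  obtain ⟨J', hJ', hJm', hJT', hs'⟩ := h2
  have hD : symmDiff J J' = ∅ := by
    by_contra hne
    have hne' : (symmDiff J J').Nonempty := Finset.nonempty_iff_ne_empty.2 hne
    obtain ⟨b1, _⟩ := h.bd _ (SosA_sub hJ hJ') hne' (by have := SosA_card J J'; omega)
    have hsub : bdry V (symmDiff J J') ⊆ {x} := by
      refine (bdry_subset_supp V _).trans ?_
      rw [supp_symmDiff]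
      intro v hv
      rw [Finset.mem_singleton]
      by_contra hvx
      have e1 : v ∈ supp V J ↔ v ∈ T := by
        rw [← hJT, Finset.mem_erase]
        exact ⟨fun q => ⟨hvx, q⟩, fun q => q.2⟩
      have e2 : v ∈ supp V J' ↔ v ∈ T := by
        rw [← hJT', Finset.mem_erase]
        exact ⟨fun q => ⟨hvx, q⟩, fun q => q.2⟩
      rw [Finset.mem_symmDiff, e1, e2] at hv
      tauto
    have := Finset.card_le_card hsub
    rw [Finset.card_singleton] at this
    omega
  have hJJ : J = J' := symmDiff_eq_bot.1 (hD.trans Finset.bot_eq_empty.symm)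
  subst hJJ
  rw [hs, hs']

theorem rel_mul {n : ℕ} {F : CNF n} {K : Finset (Fin n)} {x : Fin n} {ι : Type}
    {I : Finset ι} {V : ι → Finset (Fin n)} {m Γ W : ℕ} (h : ParSys F K x I V m Γ)
    (hW : Γ * (W + 1) ≤ m) {T T' : Finset (Fin n)} {s s' : ℝ}
    (h1 : Rel I V m x T s) (h2 : Rel I V m x T' s') (h3 : (symmDiff T T').card ≤ W) :
    Rel I V m x (symmDiff T T') (s * s') := by
  classical
  obtain ⟨J, hJ, hJm, hJT, hs⟩ := h1
  obtain ⟨J', hJ', hJm', hJT', hs'⟩ := h2
  have hsd : (supp V (symmDiff J J')).erase x = symmDiff T T' := by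
    rw [supp_symmDiff, ← hJT, ← hJT']
    ext v
    simp only [Finset.mem_erase, Finset.mem_symmDiff]
    tauto
  refine ⟨symmDiff J J', SosA_sub hJ hJ', ?_, hsd, ?_⟩
  · rcases Finset.eq_empty_or_nonempty (symmDiff J J') with h0 | h0
    · rw [h0, Finset.card_empty]
      exact Nat.zero_le _
    · obtain ⟨_, b2⟩ := h.bd _ (SosA_sub hJ hJ') h0 (by have := SosA_card J J'; omega)
      have hb : (bdry V (symmDiff J J')).card ≤ W + 1 := by
        have e1 : bdry V (symmDiff J J') ⊆ insert x (symmDiff T T') := by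
          refine (bdry_subset_supp V _).trans ?_
          rw [← hsd]
          intro v hv
          rw [Finset.mem_insert, Finset.mem_erase]
          by_cases hvx : v = x
          · exact Or.inl hvx
          · exact Or.inr ⟨hvx, hv⟩
        have e2 := Finset.card_le_card e1
        have e3 := Finset.card_insert_le x (symmDiff T T')
        omega
      calc (symmDiff J J').card ≤ Γ * (bdry V (symmDiff J J')).card := b2
        _ ≤ Γ * (W + 1) := Nat.mul_le_mul_left _ hb
        _ ≤ m := hW
  · rw [hs, hs', supp_symmDiff]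
    by_cases a1 : x ∈ supp V J <;> by_cases a2 : x ∈ supp V J' <;>
      simp [Finset.mem_symmDiff, a1, a2]

theorem rel_empty {n : ℕ} {ι : Type} (I : Finset ι) (V : ι → Finset (Fin n)) (m : ℕ)
    (x : Fin n) : Rel I V m x ∅ 1 := by
  have h0 : supp V (∅ : Finset ι) = ∅ := by
    unfold supp
    ext v
    simp
  refine ⟨∅, Finset.empty_subset _, by simp, ?_, ?_⟩
  · rw [h0]
    rfl
  · rw [h0]
    simp

theorem rel_single {n : ℕ} {ι : Type} {I : Finset ι} (V : ι → Finset (Fin n)) {m : ℕ}
    (x : Fin n) {i : ι} (hi : i ∈ I) (hm : 1 ≤ m) :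
    Rel I V m x ((V i).erase x) (if x ∈ V i then -1 else 1) := by
  have h0 : supp V {i} = V i := by
    unfold supp
    ext v
    rw [Finset.mem_filter, Finset.filter_singleton]
    by_cases hv : v ∈ V i
    · simp [hv]
    · simp [hv]
  refine ⟨{i}, Finset.singleton_subset_iff.2 hi, by rw [Finset.card_singleton]; exact hm, ?_, ?_⟩
  · rw [h0]
  · rw [h0]

end Pool.Agent.H13.PZ

end S_SosA

section S_SosB

/-!
# Characters on `InH K x`
-/

namespace Pool.Agent.H13.PZ

open Finset

/-- The character of the set `T`. -/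
def sg {n : ℕ} (T : Finset (Fin n)) (a : Fin n → Bool) : ℝ :=
  ∏ v ∈ T, (if a v = true then (1 : ℝ) else -1)

open Classical in
/-- The finite set of assignments in `InH K x`. -/
noncomputable def setH {n : ℕ} (K : Finset (Fin n)) (x : Fin n) : Finset (Fin n → Bool) :=
  univ.filter fun a => InH K x a

/-- `c` are the coefficients of `g`, of degree at most `d`, on `InH K x`. -/
def Deg {n : ℕ} (K : Finset (Fin n)) (x : Fin n) (d : ℕ) (c : Finset (Fin n) → ℝ)
    (g : (Fin n → Bool) → ℝ) : Prop :=
  (∀ T, c T ≠ 0 → T ⊆ K.erase x ∧ T.card ≤ d) ∧ ∀ a, InH K x a → g a = ∑ T, c T * sg T a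

theorem SosB_mem {n : ℕ} {K : Finset (Fin n)} {x : Fin n} {a : Fin n → Bool} :
    a ∈ setH K x ↔ InH K x a := by
  classical
  unfold setH
  rw [mem_filter]
  exact ⟨fun h => h.2, fun h => ⟨mem_univ _, h⟩⟩

theorem setH_nonempty {n : ℕ} (K : Finset (Fin n)) (x : Fin n) (hx : x ∈ K) :
    (setH K x).Nonempty := by
  refine ⟨fun v => decide (v ≠ x), ?_⟩
  rw [SosB_mem]
  refine ⟨fun v hv => ?_, by simp⟩
  have : v ≠ x := fun h => hv (h ▸ hx)
  simpa using this

theorem SosB_univ {n : ℕ} (T : Finset (Fin n)) (a : Fin n → Bool) :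
    sg T a = ∏ v, if v ∈ T then (if a v = true then (1 : ℝ) else -1) else 1 := by
  unfold sg
  rw [Finset.prod_ite_mem, univ_inter]

theorem sg_mul {n : ℕ} (T T' : Finset (Fin n)) (a : Fin n → Bool) :
    sg T a * sg T' a = sg (symmDiff T T') a := by
  rw [SosB_univ, SosB_univ, SosB_univ, ← prod_mul_distrib]
  refine prod_congr rfl fun v _ => ?_
  by_cases h1 : v ∈ T <;> by_cases h2 : v ∈ T' <;> by_cases h3 : a v = true <;>
    simp [Finset.mem_symmDiff, h1, h2, h3]

theorem SosB_empty {n : ℕ} (a : Fin n → Bool) : sg ∅ a = 1 := by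
  unfold sg
  rw [prod_empty]

theorem sg_sq {n : ℕ} (T : Finset (Fin n)) (a : Fin n → Bool) : sg T a = 1 ∨ sg T a = -1 := by
  have h := sg_mul T T a
  rw [symmDiff_self, Finset.bot_eq_empty, SosB_empty] at h
  exact mul_self_eq_one_iff.1 h

/-- an odd number of false variables in `T` means sign `-1` -/
theorem sg_odd {n : ℕ} (T : Finset (Fin n)) (a : Fin n → Bool)
    (h : Odd (T ∩ zeros a).card) : sg T a = -1 := by
  have e : T ∩ zeros a = T.filter fun v => ¬ a v = true := by
    ext v
    unfold zeros
    simp [mem_inter, mem_filter]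
  unfold sg
  rw [prod_ite, prod_const_one, one_mul, prod_const, ← e]
  exact h.neg_one_pow

theorem SosB_flip {n : ℕ} {T : Finset (Fin n)} {v : Fin n} (hv : v ∈ T) (a : Fin n → Bool) :
    sg T (Function.update a v (!a v)) = - sg T a := by
  unfold sg
  rw [← mul_prod_erase T _ hv, ← mul_prod_erase T _ hv]
  have h1 : ∏ w ∈ T.erase v, (if Function.update a v (!a v) w = true then (1 : ℝ) else -1) =
      ∏ w ∈ T.erase v, (if a w = true then (1 : ℝ) else -1) := by
    refine prod_congr rfl fun w hw => ?_
    rw [Function.update_of_ne (ne_of_mem_erase hw)]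
  rw [h1, Function.update_self]
  cases a v <;> simp

theorem SosB_flipH {n : ℕ} {K : Finset (Fin n)} {x v : Fin n} (hv : v ∈ K.erase x)
    {a : Fin n → Bool} (ha : InH K x a) : InH K x (Function.update a v (!a v)) := by
  rw [mem_erase] at hv
  refine ⟨fun w hw => ?_, ?_⟩
  · have : w ≠ v := fun h => hw (h ▸ hv.2)
    rw [Function.update_of_ne this]
    exact ha.1 w hw
  · rw [Function.update_of_ne (Ne.symm hv.1)]
    exact ha.2

theorem sum_sg {n : ℕ} {K : Finset (Fin n)} {x : Fin n} (hx : x ∈ K) {T : Finset (Fin n)}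
    (hT : T ⊆ K.erase x) :
    ∑ a ∈ setH K x, sg T a = if T = ∅ then ((setH K x).card : ℝ) else 0 := by
  split_ifs with h
  · subst h
    simp_rw [SosB_empty]
    rw [sum_const, nsmul_eq_mul, mul_one]
  · obtain ⟨v, hv⟩ := Finset.nonempty_iff_ne_empty.2 h
    refine Finset.sum_involution (fun a _ => Function.update a v (!a v)) ?_ ?_ ?_ ?_
    · intro a _
      rw [SosB_flip hv, add_neg_cancel]
    · intro a _ _ he
      have h2 := congrFun he v
      rw [Function.update_self] at h2
      cases hav : a v <;> rw [hav] at h2 <;> simp at h2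
    · intro a ha
      rw [SosB_mem] at ha ⊢
      exact SosB_flipH (hT hv) ha
    · intro a _
      simp

theorem sg_restrict {n : ℕ} {K : Finset (Fin n)} {x : Fin n} (hx : x ∈ K)
    (T : Finset (Fin n)) {a : Fin n → Bool} (ha : InH K x a) :
    sg T a = (if x ∈ T then -1 else 1) * sg ((T ∩ K).erase x) a := by
  have h1 : sg T a = sg (T ∩ K) a := by
    unfold sg
    symm
    refine prod_subset inter_subset_left fun v hv hv' => ?_
    have h2 : v ∉ K := fun h => hv' (mem_inter.2 ⟨hv, h⟩)
    rw [ha.1 v h2]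
    simp
  rw [h1]
  by_cases h : x ∈ T
  · rw [if_pos h]
    unfold sg
    rw [← mul_prod_erase (T ∩ K) _ (mem_inter.2 ⟨h, hx⟩), ha.2]
    simp
  · rw [if_neg h, one_mul, erase_eq_of_notMem]
    exact fun h' => h (mem_inter.1 h').1

theorem SosB_coef {n : ℕ} {K : Finset (Fin n)} {x : Fin n} (hx : x ∈ K) {d : ℕ}
    {c : Finset (Fin n) → ℝ} {g : (Fin n → Bool) → ℝ} (h : Deg K x d c g) {T₀ : Finset (Fin n)}
    (hT : T₀ ⊆ K.erase x) :
    ∑ a ∈ setH K x, g a * sg T₀ a = c T₀ * ((setH K x).card : ℝ) := by
  have h1 : ∑ a ∈ setH K x, g a * sg T₀ a =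
      ∑ T, c T * ∑ a ∈ setH K x, sg (symmDiff T T₀) a := by
    have h2 : ∀ a ∈ setH K x, g a * sg T₀ a = ∑ T, c T * sg (symmDiff T T₀) a := by
      intro a ha
      rw [h.2 a (SosB_mem.1 ha), sum_mul]
      refine sum_congr rfl fun T _ => ?_
      rw [mul_assoc, sg_mul]
    rw [sum_congr rfl h2, sum_comm]
    refine sum_congr rfl fun T _ => ?_
    rw [mul_sum]
  rw [h1]
  rw [Finset.sum_eq_single T₀]
  · rw [symmDiff_self, Finset.bot_eq_empty, sum_sg hx (empty_subset _), if_pos rfl]
  · intro T _ hne
    by_cases hc : c T = 0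
    · rw [hc, zero_mul]
    · have h3 := (h.1 T hc).1
      have h4 : symmDiff T T₀ ⊆ K.erase x := by
        intro v hv
        rw [Finset.mem_symmDiff] at hv
        rcases hv with hv | hv
        · exact h3 hv.1
        · exact hT hv.1
      have h5 : symmDiff T T₀ ≠ ∅ := by
        intro h6
        have h7 : symmDiff T T₀ = ⊥ := h6
        exact hne (symmDiff_eq_bot.1 h7)
      rw [sum_sg hx h4, if_neg h5, mul_zero]
  · intro h3
    exact absurd (mem_univ _) h3

theorem deg_unique {n : ℕ} {K : Finset (Fin n)} {x : Fin n} (hx : x ∈ K) {d d' : ℕ}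
    {c c' : Finset (Fin n) → ℝ} {g : (Fin n → Bool) → ℝ} (h : Deg K x d c g)
    (h' : Deg K x d' c' g) : c = c' := by
  funext T
  by_cases hT : T ⊆ K.erase x
  · have h1 := SosB_coef hx h hT
    have h2 := SosB_coef hx h' hT
    have h3 : ((setH K x).card : ℝ) ≠ 0 := by
      have := (setH_nonempty K x hx).card_pos
      positivity
    exact mul_right_cancel₀ h3 (h1.symm.trans h2)
  · have h1 : c T = 0 := by
      by_contra hc
      exact hT (h.1 T hc).1
    have h2 : c' T = 0 := by
      by_contra hc
      exact hT (h'.1 T hc).1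
    rw [h1, h2]

theorem SosB_mono {n : ℕ} (T : Finset (Fin n)) (a : Fin n → Bool) :
    ∏ v ∈ T, (if a v = true then (1 : ℝ) else 0) =
      ∑ T' ∈ T.powerset, (1 / 2 : ℝ) ^ T.card * sg T' a := by
  have h1 : ∀ v ∈ T, (if a v = true then (1 : ℝ) else 0) =
      (1 / 2) * (1 + if a v = true then (1 : ℝ) else -1) := by
    intro v _
    split_ifs <;> norm_num
  rw [prod_congr rfl h1, prod_mul_distrib, prod_const, prod_one_add, mul_sum]
  rfl

theorem deg_of_degLE {n : ℕ} {K : Finset (Fin n)} {x : Fin n} (hx : x ∈ K) {d : ℕ}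
    {g : (Fin n → Bool) → ℝ} (h : DegLE d g) : ∃ c, Deg K x d c g := by
  classical
  obtain ⟨c, hc, hg⟩ := h
  refine ⟨fun U => ∑ T, ∑ T' ∈ T.powerset, if (T' ∩ K).erase x = U then
    c T * (1 / 2 : ℝ) ^ T.card * (if x ∈ T' then -1 else 1) else 0, ?_, ?_⟩
  · intro U hU
    obtain ⟨T, _, hT⟩ := exists_ne_zero_of_sum_ne_zero hU
    obtain ⟨T', hT', hne⟩ := exists_ne_zero_of_sum_ne_zero hT
    rw [mem_powerset] at hT'
    by_cases he : (T' ∩ K).erase x = U
    · rw [if_pos he] at hne
      have h1 : c T ≠ 0 := by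
        intro h0
        rw [h0] at hne
        simp at hne
      have h2 : T.card ≤ d := by
        by_contra h3
        push Not at h3
        exact h1 (hc T h3)
      rw [← he]
      refine ⟨erase_subset_erase x inter_subset_right, ?_⟩
      refine le_trans (card_le_card (erase_subset _ _)) ?_
      exact (card_le_card (inter_subset_left.trans hT')).trans h2
    · rw [if_neg he] at hne
      exact absurd rfl hne
  · intro a ha
    rw [hg a]
    have h1 : ∀ T : Finset (Fin n), c T * ∏ v ∈ T, (if a v = true then (1 : ℝ) else 0) =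
        ∑ T' ∈ T.powerset, c T * (1 / 2 : ℝ) ^ T.card * (if x ∈ T' then -1 else 1) *
          sg ((T' ∩ K).erase x) a := by
      intro T
      rw [SosB_mono, mul_sum]
      refine sum_congr rfl fun T' _ => ?_
      rw [sg_restrict hx T' ha]
      ring
    rw [sum_congr rfl fun T _ => h1 T]
    have h2 : ∀ U : Finset (Fin n), (∑ T, ∑ T' ∈ T.powerset, if (T' ∩ K).erase x = U then
        c T * (1 / 2 : ℝ) ^ T.card * (if x ∈ T' then -1 else 1) else 0) * sg U a =
        ∑ T, ∑ T' ∈ T.powerset, if (T' ∩ K).erase x = U then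
          c T * (1 / 2 : ℝ) ^ T.card * (if x ∈ T' then -1 else 1) * sg ((T' ∩ K).erase x) a
          else 0 := by
      intro U
      rw [sum_mul]
      refine sum_congr rfl fun T _ => ?_
      rw [sum_mul]
      refine sum_congr rfl fun T' _ => ?_
      by_cases h3 : (T' ∩ K).erase x = U
      · rw [if_pos h3, if_pos h3, h3]
      · rw [if_neg h3, if_neg h3, zero_mul]
    rw [sum_congr rfl fun U _ => h2 U, sum_comm]
    refine sum_congr rfl fun T _ => ?_
    rw [sum_comm]
    refine sum_congr rfl fun T' _ => ?_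
    rw [Finset.sum_ite_eq, if_pos (mem_univ _)]

end Pool.Agent.H13.PZ

end S_SosB

section S_SosC

/-!
# Sums of squares do not infer `x`

`W = 2 d`, `Γ (W + 1) ≤ m`. Let `e T` be the `s` with `Rel I V m x T s` if there is one (it is
unique, `rel_unique`), and `0` otherwise. Define `E g = ∑ T, c T * e T` for a function `g` with
coefficients `c` on `InH K x` (unique, `deg_unique`; degree at most `W`). Facts:
* `E` is additive (coefficients of a finite sum are the sums of the coefficients);
* `E (-1) = -1`: coefficients `c ∅ = -1`, `e ∅ = 1` (`rel_empty`).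
* `E (q ^ 2) ≥ 0` if `q` has degree at most `d`, coefficients `c`: on `InH K x`
  `q ^ 2 = ∑ T, ∑ T', c T * c T' * sg (T ∆ T')`, so the coefficient of `q ^ 2` at `U` is
  `∑ T, T' with T ∆ T' = U, c T * c T'` and `E (q ^ 2) = ∑ T, ∑ T', c T * c T' * e (T ∆ T')`, where only
  `T`, `T' ⊆ K.erase x` of card at most `d` count. Use `psd_of_sign` with `M T T' = e (T ∆ T')` on
  these sets: `M T T = e ∅ = 1`; entries `0, 1, -1` by `rel_sign`; if `M T T' ≠ 0` and
  `M T' T'' ≠ 0` then `rel_mul` (the set `T ∆ T''` has card at most `2 d = W`) gives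
  `Rel (T ∆ T'') (M T T' * M T' T'')`, because `(T ∆ T') ∆ (T' ∆ T'') = T ∆ T''`.
* `E g = 0` if `g` has degree at most `W` and vanishes wherever the clause `C ∈ F` is satisfied. If
  `C` is satisfied on all of `InH K x` then `g = 0` there and `c = 0`. Otherwise let `i ∈ I` be as in
  `ParSys.cl`, `T₁ = (V i).erase x`, `σ = if x ∈ V i then -1 else 1`. For `a` in `InH K x`:
  if `g a ≠ 0` then `C` is falsified, `(V i ∩ zeros a).card` is odd, `sg (V i) a = -1`
  (`sg_odd`), i.e. `σ * sg T₁ a = -1` (`sg_restrict`, `V i ⊆ K`). So `g a = - σ * sg T₁ a * g a` for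
  all `a` in `InH K x`, and by uniqueness of coefficients `c T = - σ * c (T ∆ T₁)` for all `T`
  (apply `deg_unique` with the coefficients `T ↦ - σ * c (T ∆ T₁)`, of degree at most `W + |T₁|`).
  Moreover `e (T ∆ T₁) = σ * e T` if `|T| ≤ W` and `|T ∆ T₁| ≤ W`: `rel_mul` with `rel_single`
  in both directions (`(T ∆ T₁) ∆ T₁ = T`, `σ * σ = 1`). So
  `E g = ∑ T, c T * e T = - σ * ∑ T, c (T ∆ T₁) * e T = - σ * ∑ T', c T' * e (T' ∆ T₁)`, and for
  `c T' ≠ 0` also `c (T' ∆ T₁) ≠ 0`, so both sets have card at most `W` and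
  `E g = - σ * σ * ∑ T', c T' * e T' = - E g`.
Conclusion: `α` and `x ≠ true` hold for all `a` in `InH K x`, so there
`-1 = ∑ j, q j ^ 2 + ∑ C ∈ F, g C`. Apply `E`: `-1 = ∑ j, E (q j ^ 2) + 0 ≥ 0`, a contradiction.
(`1 ≤ m`: otherwise `Γ = 0`, and `ParSys.bd` for `J = {i}` is impossible, so `I = ∅` and the last
fact is only needed when `C` is satisfied on all of `InH K x`.)
-/

namespace Pool.Agent.H13.PZ

open Finset

open Classical in
/-- the pseudo-expectation of the character of `T` -/
noncomputable def SosC_e {n : ℕ} {ι : Type} (I : Finset ι) (V : ι → Finset (Fin n)) (m : ℕ)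
    (x : Fin n) (T : Finset (Fin n)) : ℝ :=
  if hT : ∃ s, Rel I V m x T s then hT.choose else 0

theorem SosC_e_eq {n : ℕ} {F : CNF n} {K : Finset (Fin n)} {x : Fin n} {ι : Type}
    {I : Finset ι} {V : ι → Finset (Fin n)} {m Γ : ℕ} (h : ParSys F K x I V m Γ)
    {T : Finset (Fin n)} {s : ℝ} (hT : Rel I V m x T s) : SosC_e I V m x T = s := by
  have h1 : ∃ s, Rel I V m x T s := ⟨s, hT⟩
  unfold SosC_e
  rw [dif_pos h1]
  exact rel_unique h h1.choose_spec hT

theorem SosC_e_rel {n : ℕ} {ι : Type} {I : Finset ι} {V : ι → Finset (Fin n)} {m : ℕ}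
    {x : Fin n} {T : Finset (Fin n)} (hT : SosC_e I V m x T ≠ 0) :
    Rel I V m x T (SosC_e I V m x T) := by
  by_cases h1 : ∃ s, Rel I V m x T s
  · have h2 : SosC_e I V m x T = h1.choose := by
      unfold SosC_e
      rw [dif_pos h1]
    rw [h2]
    exact h1.choose_spec
  · exfalso
    apply hT
    unfold SosC_e
    rw [dif_neg h1]

theorem SosC_card_symm {n : ℕ} (T T' : Finset (Fin n)) :
    (symmDiff T T').card ≤ T.card + T'.card := by
  have h1 : symmDiff T T' ⊆ T ∪ T' := symmDiff_le_sup
  exact (card_le_card h1).trans (card_union_le _ _)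

theorem SosC_cancel {n : ℕ} (T T' : Finset (Fin n)) : symmDiff (symmDiff T T') T' = T :=
  symmDiff_symmDiff_cancel_right T' T

theorem SosC_reindex {n : ℕ} (T₁ : Finset (Fin n)) (f : Finset (Fin n) → ℝ) :
    ∑ T, f (symmDiff T T₁) = ∑ T, f T := by
  refine Fintype.sum_bijective (fun T => symmDiff T T₁) ?_ _ _ (fun T => rfl)
  refine Function.bijective_iff_has_inverse.2 ⟨fun T => symmDiff T T₁, ?_, ?_⟩
  · intro T
    exact SosC_cancel T T₁
  · intro T
    exact SosC_cancel T T₁

/-- coefficients of the square -/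
noncomputable def SosC_sq {n : ℕ} (c : Finset (Fin n) → ℝ) (U : Finset (Fin n)) : ℝ :=
  ∑ T, ∑ T', if symmDiff T T' = U then c T * c T' else 0

theorem SosC_sum_sq {n : ℕ} (c : Finset (Fin n) → ℝ) (f : Finset (Fin n) → ℝ) :
    ∑ U, SosC_sq c U * f U = ∑ T, ∑ T', c T * c T' * f (symmDiff T T') := by
  unfold SosC_sq
  have h1 : ∀ U : Finset (Fin n), (∑ T, ∑ T', if symmDiff T T' = U then c T * c T' else 0) * f U =
      ∑ T, ∑ T', if symmDiff T T' = U then c T * c T' * f (symmDiff T T') else 0 := by
    intro U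
    rw [sum_mul]
    refine sum_congr rfl (fun T _ => ?_)
    rw [sum_mul]
    refine sum_congr rfl (fun T' _ => ?_)
    by_cases h : symmDiff T T' = U
    · rw [if_pos h, if_pos h, h]
    · rw [if_neg h, if_neg h, zero_mul]
  simp only [h1]
  rw [sum_comm]
  refine sum_congr rfl (fun T _ => ?_)
  rw [sum_comm]
  refine sum_congr rfl (fun T' _ => ?_)
  rw [sum_ite_eq]
  simp

theorem SosC_deg_sq {n : ℕ} {K : Finset (Fin n)} {x : Fin n} {d : ℕ}
    {c : Finset (Fin n) → ℝ} {g : (Fin n → Bool) → ℝ} (h : Deg K x d c g) :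
    Deg K x (2 * d) (SosC_sq c) (fun a => g a ^ 2) := by
  refine ⟨fun U hU => ?_, fun a ha => ?_⟩
  · unfold SosC_sq at hU
    obtain ⟨T, -, hT⟩ := exists_ne_zero_of_sum_ne_zero hU
    obtain ⟨T', -, hT'⟩ := exists_ne_zero_of_sum_ne_zero hT
    have h1 : symmDiff T T' = U := by
      by_contra h2
      rw [if_neg h2] at hT'
      exact hT' rfl
    rw [if_pos h1] at hT'
    have h2 := h.1 T (left_ne_zero_of_mul hT')
    have h3 := h.1 T' (right_ne_zero_of_mul hT')
    rw [← h1]
    refine ⟨?_, ?_⟩
    · have h4 : symmDiff T T' ⊆ T ∪ T' := symmDiff_le_sup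
      exact h4.trans (union_subset h2.1 h3.1)
    · have := SosC_card_symm T T'
      omega
  · simp only
    rw [SosC_sum_sq c (fun U => sg U a), h.2 a ha, pow_two, sum_mul_sum]
    refine sum_congr rfl (fun T _ => sum_congr rfl (fun T' _ => ?_))
    rw [← sg_mul]
    ring

theorem SosC_sq_nonneg {n : ℕ} {F : CNF n} {K : Finset (Fin n)} {x : Fin n} {ι : Type}
    {I : Finset ι} {V : ι → Finset (Fin n)} {m Γ d : ℕ} (h : ParSys F K x I V m Γ)
    (hm : Γ * (2 * d + 1) ≤ m) {c : Finset (Fin n) → ℝ} {g : (Fin n → Bool) → ℝ}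
    (hc : Deg K x d c g) : 0 ≤ ∑ U, SosC_sq c U * SosC_e I V m x U := by
  rw [SosC_sum_sq]
  have hsub : ∀ T : Finset (Fin n), T ∉ (univ.filter fun T : Finset (Fin n) => T.card ≤ d) →
      c T = 0 := by
    intro T hT
    by_contra h1
    exact hT (mem_filter.2 ⟨mem_univ _, (hc.1 T h1).2⟩)
  have h1 : ∑ T, ∑ T', c T * c T' * SosC_e I V m x (symmDiff T T') =
      ∑ T ∈ (univ.filter fun T : Finset (Fin n) => T.card ≤ d),
        ∑ T' ∈ (univ.filter fun T : Finset (Fin n) => T.card ≤ d),
          c T * c T' * SosC_e I V m x (symmDiff T T') := by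
    symm
    refine (sum_subset (subset_univ _) (fun T _ hT => ?_)).trans
      (sum_congr rfl (fun T _ => sum_subset (subset_univ _) (fun T' _ hT' => ?_)))
    · refine sum_eq_zero (fun T' _ => ?_)
      rw [hsub T hT]; ring
    · rw [hsub T' hT']; ring
  rw [h1]
  refine psd_of_sign _ (fun T T' => SosC_e I V m x (symmDiff T T')) ?_ ?_ ?_ ?_ c
  · intro T _
    rw [symmDiff_self]
    exact SosC_e_eq h (rel_empty I V m x)
  · intro T _ T' _
    simp only [symmDiff_comm T T']
  · intro T _ T' _
    by_cases h2 : SosC_e I V m x (symmDiff T T') = 0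
    · exact Or.inl h2
    · exact Or.inr (rel_sign (SosC_e_rel h2))
  · intro T hT T' _ T'' hT'' h2 h3
    have h4 := rel_mul h hm (SosC_e_rel h2) (SosC_e_rel h3) (by
      rw [symmDiff_assoc, symmDiff_symmDiff_cancel_left]
      have h5 := SosC_card_symm T T''
      have h6 := (mem_filter.1 hT).2
      have h7 := (mem_filter.1 hT'').2
      omega)
    rw [symmDiff_assoc, symmDiff_symmDiff_cancel_left] at h4
    exact SosC_e_eq h h4

theorem SosC_clause {n : ℕ} {F : CNF n} {K : Finset (Fin n)} {x : Fin n} {ι : Type}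
    {I : Finset ι} {V : ι → Finset (Fin n)} {m Γ d : ℕ} (h : ParSys F K x I V m Γ)
    (hm : Γ * (2 * d + 1) ≤ m) {C : Clause n} (hC : C ∈ F) {c : Finset (Fin n) → ℝ}
    {g : (Fin n → Bool) → ℝ} (hc : Deg K x (2 * d) c g)
    (hg : ∀ a, ClauseSat a C → g a = 0) : ∑ T, c T * SosC_e I V m x T = 0 := by
  rcases h.cl C hC with h1 | ⟨i, hi, h1⟩
  · have h2 : Deg K x 0 (fun _ => 0) g := by
      refine ⟨fun T hT => absurd rfl hT, fun a ha => ?_⟩
      rw [hg a (h1 a ha)]
      simp
    have h3 := deg_unique h.hx hc h2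
    rw [h3]
    simp
  · have hi1 : 1 ≤ m := by
      have h2 := h.bd {i} (singleton_subset_iff.2 hi) (singleton_nonempty i) (by simp)
      have h3 := h2.2
      rw [card_singleton] at h3
      have h4 : 1 ≤ Γ := by
        by_contra h5
        have h6 : Γ = 0 := by omega
        rw [h6, zero_mul] at h3
        omega
      calc 1 ≤ Γ * (2 * d + 1) := Nat.mul_pos h4 (by omega)
        _ ≤ m := hm
    set T₁ := (V i).erase x with hT₁
    set σ : ℝ := if x ∈ V i then -1 else 1 with hσ
    have hσ2 : σ * σ = 1 := by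
      rw [hσ]; split_ifs <;> norm_num
    have hrel : Rel I V m x T₁ σ := rel_single V x hi hi1
    have hVK : V i ∩ K = V i := inter_eq_left.2 (h.sub i hi)
    have hkey : ∀ a, InH K x a → g a = -σ * sg T₁ a * g a := by
      intro a ha
      by_cases h2 : ClauseSat a C
      · rw [hg a h2]; ring
      · have h3 := sg_odd (V i) a (h1 a ha h2)
        rw [sg_restrict h.hx (V i) ha, hVK] at h3
        have h4 : σ * sg T₁ a = -1 := h3
        have h5 : -σ * sg T₁ a * g a = -(σ * sg T₁ a) * g a := by ring
        rw [h5, h4]; ring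
    have hT₁K : T₁ ⊆ K.erase x := erase_subset_erase x (h.sub i hi)
    have hdeg : Deg K x (2 * d + T₁.card) (fun T => -σ * c (symmDiff T T₁)) g := by
      refine ⟨fun T hT => ?_, fun a ha => ?_⟩
      · have h2 := hc.1 _ (right_ne_zero_of_mul hT)
        have h3 : T = symmDiff (symmDiff T T₁) T₁ := (SosC_cancel T T₁).symm
        refine ⟨?_, ?_⟩
        · rw [h3]
          have h4 : symmDiff (symmDiff T T₁) T₁ ⊆ symmDiff T T₁ ∪ T₁ := symmDiff_le_sup
          exact h4.trans (union_subset h2.1 hT₁K)
        · rw [h3]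
          exact (SosC_card_symm _ _).trans (Nat.add_le_add_right h2.2 _)
      · rw [hkey a ha, hc.2 a ha, mul_sum,
          ← SosC_reindex T₁ (fun T => -σ * sg T₁ a * (c T * sg T a))]
        refine sum_congr rfl (fun T _ => ?_)
        rw [← sg_mul]
        have h2 : sg T₁ a * sg T₁ a = 1 := by
          rcases sg_sq T₁ a with h | h <;> rw [h] <;> norm_num
        calc -σ * sg T₁ a * (c (symmDiff T T₁) * (sg T a * sg T₁ a))
            = -σ * c (symmDiff T T₁) * sg T a * (sg T₁ a * sg T₁ a) := by ring
          _ = -σ * c (symmDiff T T₁) * sg T a := by rw [h2, mul_one]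
    have huniq := deg_unique h.hx hc hdeg
    have hcT : ∀ T, c T = -σ * c (symmDiff T T₁) := fun T => congrFun huniq T
    have he : ∀ T, c T ≠ 0 → SosC_e I V m x (symmDiff T T₁) = σ * SosC_e I V m x T := by
      intro T hT
      have h2 : T.card ≤ 2 * d := (hc.1 T hT).2
      have h3 : c (symmDiff T T₁) ≠ 0 := by
        rw [hcT T] at hT
        exact right_ne_zero_of_mul hT
      have h4 : (symmDiff T T₁).card ≤ 2 * d := (hc.1 _ h3).2
      by_cases h5 : SosC_e I V m x T = 0
      · rw [h5, mul_zero]
        by_contra h6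
        have h7 := rel_mul h hm (SosC_e_rel h6) hrel (by rw [SosC_cancel]; exact h2)
        rw [SosC_cancel] at h7
        have h8 := SosC_e_eq h h7
        rw [h5] at h8
        have h9 : σ ≠ 0 := by
          intro h10
          rw [h10] at hσ2
          norm_num at hσ2
        exact (mul_ne_zero h6 h9) h8.symm
      · have h7 := rel_mul h hm (SosC_e_rel h5) hrel h4
        rw [SosC_e_eq h h7]
        ring
    have hE : ∑ T, c T * SosC_e I V m x T = -∑ T, c T * SosC_e I V m x T := by
      calc ∑ T, c T * SosC_e I V m x T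
          = ∑ T, c (symmDiff T T₁) * SosC_e I V m x (symmDiff T T₁) :=
            (SosC_reindex T₁ (fun T => c T * SosC_e I V m x T)).symm
        _ = ∑ T, -(c T * SosC_e I V m x T) := by
            refine sum_congr rfl (fun T _ => ?_)
            by_cases h2 : c T = 0
            · have h3 : c (symmDiff T T₁) = 0 := by
                have h4 := hcT (symmDiff T T₁)
                rw [SosC_cancel, h2, mul_zero] at h4
                exact h4
              rw [h2, h3]; ring
            · have h3 : c (symmDiff T T₁) = -σ * c T := by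
                have h4 := hcT (symmDiff T T₁)
                rw [SosC_cancel] at h4
                exact h4
              rw [he T h2, h3]
              calc -σ * c T * (σ * SosC_e I V m x T)
                  = -(σ * σ) * (c T * SosC_e I V m x T) := by ring
                _ = -(c T * SosC_e I V m x T) := by rw [hσ2]; ring
        _ = -∑ T, c T * SosC_e I V m x T := by rw [sum_neg_distrib]
    linarith

theorem not_sos {n : ℕ} {F : CNF n} {K : Finset (Fin n)} {x : Fin n} {ι : Type}
    {I : Finset ι} {V : ι → Finset (Fin n)} {m Γ d : ℕ} (h : ParSys F K x I V m Γ)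
    {α : PAss n} (hα : ∀ a, InH K x a → Ext α a) (hm : Γ * (2 * d + 1) ≤ m) :
    ¬ Sos F α d x true := by
  rintro ⟨M, q, g, hq, hg, heq⟩
  choose cq hcq using fun j => deg_of_degLE h.hx (hq j)
  have hg' : ∀ C : Clause n, ∃ c : Finset (Fin n) → ℝ, C ∈ F → Deg K x (2 * d) c (g C) := by
    intro C
    by_cases hC : C ∈ F
    · obtain ⟨c, hc⟩ := deg_of_degLE h.hx (hg C hC).1
      exact ⟨c, fun _ => hc⟩
    · exact ⟨fun _ => 0, fun h1 => absurd h1 hC⟩
  choose cg hcg using hg'
  have hR : Deg K x (2 * d) (fun T => ∑ j, SosC_sq (cq j) T + ∑ C ∈ F, cg C T)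
      (fun _ => (-1 : ℝ)) := by
    refine ⟨fun T hT => ?_, fun a ha => ?_⟩
    · by_cases h1 : ∑ j, SosC_sq (cq j) T = 0
      · have h2 : ∑ C ∈ F, cg C T ≠ 0 := by
          intro h3
          apply hT
          simp only
          rw [h1, h3, add_zero]
        obtain ⟨C, hC, h3⟩ := exists_ne_zero_of_sum_ne_zero h2
        exact (hcg C hC).1 T h3
      · obtain ⟨j, -, h3⟩ := exists_ne_zero_of_sum_ne_zero h1
        exact (SosC_deg_sq (hcq j)).1 T h3
    · have h1 := heq a (hα a ha) (by rw [ha.2]; simp)
      rw [h1]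
      have h2 : ∀ j, q j a ^ 2 = ∑ T, SosC_sq (cq j) T * sg T a :=
        fun j => (SosC_deg_sq (hcq j)).2 a ha
      have h3 : ∀ C ∈ F, g C a = ∑ T, cg C T * sg T a := fun C hC => (hcg C hC).2 a ha
      rw [sum_congr rfl (fun j _ => h2 j), sum_congr rfl h3, sum_comm, sum_comm (s := F),
        ← sum_add_distrib]
      refine sum_congr rfl (fun T _ => ?_)
      rw [add_mul, sum_mul, sum_mul]
  have hL : Deg K x 0 (fun T => if T = ∅ then (-1 : ℝ) else 0) (fun _ => (-1 : ℝ)) := by
    refine ⟨fun T hT => ?_, fun a _ => ?_⟩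
    · by_cases h1 : T = ∅
      · rw [h1]; simp
      · exact absurd (if_neg h1) hT
    · simp only [ite_mul, zero_mul]
      rw [sum_ite_eq']
      simp [sg]
  have huniq := deg_unique h.hx hL hR
  have h1 : ∑ T, (if T = ∅ then (-1 : ℝ) else 0) * SosC_e I V m x T =
      ∑ T, (∑ j, SosC_sq (cq j) T + ∑ C ∈ F, cg C T) * SosC_e I V m x T := by
    refine sum_congr rfl (fun T _ => ?_)
    have h2 : (if T = ∅ then (-1 : ℝ) else 0) = ∑ j, SosC_sq (cq j) T + ∑ C ∈ F, cg C T :=
      congrFun huniq T
    rw [h2]
  have h2 : ∑ T, (if T = ∅ then (-1 : ℝ) else 0) * SosC_e I V m x T = -1 := by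
    simp only [ite_mul, zero_mul]
    rw [sum_ite_eq']
    simp only [mem_univ, if_true]
    rw [SosC_e_eq h (rel_empty I V m x)]
    norm_num
  have h3 : ∑ T, (∑ j, SosC_sq (cq j) T + ∑ C ∈ F, cg C T) * SosC_e I V m x T =
      ∑ j, ∑ T, SosC_sq (cq j) T * SosC_e I V m x T +
        ∑ C ∈ F, ∑ T, cg C T * SosC_e I V m x T := by
    rw [sum_comm (s := (univ : Finset (Fin M))), sum_comm (s := F), ← sum_add_distrib]
    refine sum_congr rfl (fun T _ => ?_)
    rw [add_mul, sum_mul, sum_mul]
  have h4 : 0 ≤ ∑ j, ∑ T, SosC_sq (cq j) T * SosC_e I V m x T :=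
    sum_nonneg (fun j _ => SosC_sq_nonneg h hm (hcq j))
  have h5 : ∑ C ∈ F, ∑ T, cg C T * SosC_e I V m x T = 0 :=
    sum_eq_zero (fun C hC => SosC_clause h hm hC (hcg C hC) (hg C hC).2)
  rw [h2, h3, h5] at h1
  linarith

end Pool.Agent.H13.PZ

end S_SosC

section S_Cnt

/-!
# Success probability of solvers

`F` is satisfied only by the constant `true`. `c` assigns to every set `U` of variables a set `c U`,
and if exactly the variables of `U` have no value and the others are true, then no value of an
`x ∈ c U`, `x ∈ U`, can be inferred. `badCount c l ≤ D` for every list `l` without repetitions.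
Let `s 0 = none`, `s (i + 1) = update (s i) (next (s i)) (some true)`, `x i = next (s i)`, and `U i`
the set of `v` with `s i v = none`. Then for `i ≤ n`: `|U i| = n - i` and
`s i = fun v => if v ∈ U i then none else some true`; for `i < n`, `x i ∈ U i` (`next_none`, `U i` is
nonempty) and `U (i + 1) = (U i).erase (x i)`. For the list `l = [x 0, ..., x (n - 1)]` (no
repetitions) the set of the entries from the `i`-th on is `U i`. Let `G` be the set of `x i` with
`infer (s i) = none`. If `x i ∈ c (U i)` then `infer (s i) = none` (`infer_sound` and the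
hypothesis), so the number of `i` with `infer (s i) ≠ none` is at most `badCount c l ≤ D`, i.e.
`n ≤ |G| + D`.
Let `y` be such that `out y` satisfies `F`; then `out y` is constantly `true`. In `run y` the number
of variables without value after `i ≤ n` steps is `n - i`, so for `i < n` the next variable has no
value yet, and a value once given is never changed. By induction `run y i = s i` for `i ≤ n`: if
`run y i = s i`, the value given to `x i` is its final value, which is `out y (x i) = true` (the
final value exists, it is `some true` as `getD false = true`); if moreover `infer (s i) = none` then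
this value is `y (x i)`. So `y v = true` for all `v ∈ G`. There are `2 ^ (n - |G|) ≤ 2 ^ D` such `y`.
-/

namespace Pool.Agent.H13.PZ

open Finset

/-- the variables without value -/
def Cnt_U {n : ℕ} (σ : ℕ → PAss n) (i : ℕ) : Finset (Fin n) := univ.filter fun v => σ i v = none

theorem Cnt_mem_U {n : ℕ} {σ : ℕ → PAss n} {i : ℕ} {v : Fin n} : v ∈ Cnt_U σ i ↔ σ i v = none := by
  unfold Cnt_U
  rw [Finset.mem_filter]
  exact ⟨fun h => h.2, fun h => ⟨Finset.mem_univ _, h⟩⟩

section
variable {n w : ℕ} {F : CNF n} (S : Solver F w) {σ : ℕ → PAss n} {b : ℕ → Bool}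
  (h0 : σ 0 = fun _ => none)
  (h1 : ∀ i, σ (i + 1) = Function.update (σ i) (S.next (σ i)) (some (b i)))

include h1 in
theorem Cnt_erase (i : ℕ) : Cnt_U σ (i + 1) = (Cnt_U σ i).erase (S.next (σ i)) := by
  ext v
  rw [Finset.mem_erase, Cnt_mem_U, Cnt_mem_U, h1, Function.update_apply]
  by_cases hv : v = S.next (σ i)
  · rw [if_pos hv]
    simp [hv]
  · rw [if_neg hv]
    simp [hv]

include h0 h1 in
theorem Cnt_card (i : ℕ) (hi : i ≤ n) : (Cnt_U σ i).card = n - i ∧
    (i < n → S.next (σ i) ∈ Cnt_U σ i) := by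
  have step : ∀ i, (Cnt_U σ i).card = n - i → (i < n → S.next (σ i) ∈ Cnt_U σ i) := by
    intro i hc hlt
    have hpos : 0 < (Cnt_U σ i).card := by omega
    obtain ⟨v, hv⟩ := Finset.card_pos.1 hpos
    rw [Cnt_mem_U] at hv ⊢
    exact S.next_none (σ i) ⟨v, hv⟩
  induction i with
  | zero =>
    have hc : (Cnt_U σ 0).card = n - 0 := by
      have : Cnt_U σ 0 = Finset.univ := by
        ext v
        rw [Cnt_mem_U, h0]
        simp
      rw [this, Finset.card_univ, Fintype.card_fin, Nat.sub_zero]
    exact ⟨hc, step 0 hc⟩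
  | succ i ih =>
    obtain ⟨i1, i2⟩ := ih (by omega)
    have hc : (Cnt_U σ (i + 1)).card = n - (i + 1) := by
      rw [Cnt_erase S h1, Finset.card_erase_of_mem (i2 (by omega)), i1]
      omega
    exact ⟨hc, step _ hc⟩

include h1 in
theorem Cnt_anti {i j : ℕ} (hij : i ≤ j) : Cnt_U σ j ⊆ Cnt_U σ i := by
  induction hij with
  | refl => exact Finset.Subset.refl _
  | step _ ih =>
    rw [Nat.succ_eq_add_one, Cnt_erase S h1]
    exact (Finset.erase_subset _ _).trans ih

include h0 h1 in
theorem Cnt_persist {i : ℕ} {v : Fin n} {c : Bool} (hv : σ i v = some c) (j : ℕ) (hj : i + j ≤ n) :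
    σ (i + j) v = some c := by
  induction j with
  | zero => exact hv
  | succ j ih =>
    have h2 := ih (by omega)
    have h3 := (Cnt_card S h0 h1 (i + j) (by omega)).2 (by omega)
    rw [Cnt_mem_U] at h3
    rw [← add_assoc, h1, Function.update_apply, if_neg, h2]
    intro h4
    rw [← h4, h2] at h3
    exact absurd h3 (by simp)

end

/-- the list of the last variables -/
def Cnt_L {n : ℕ} (x : ℕ → Fin n) : ℕ → List (Fin n)
  | 0 => []
  | j + 1 => x (n - (j + 1)) :: Cnt_L x j

theorem success_le {n w D : ℕ} {F : CNF n} (S : Solver F w)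
    (c : Finset (Fin n) → Finset (Fin n)) (hF : ∀ a, Sat F a → a = fun _ => true)
    (hD : ∀ l : List (Fin n), l.Nodup → badCount c l ≤ D)
    (hI : ∀ U : Finset (Fin n), ∀ x ∈ c U, x ∈ U → ∀ b,
      ¬ Infer F (fun v => if v ∈ U then none else some true) w x b) :
    S.success ≤ (2 : ℝ) ^ D / 2 ^ n := by
  classical
  -- the sequence
  set s : ℕ → PAss n := fun i => Nat.rec (fun _ => none)
    (fun _ α => Function.update α (S.next α) (some true)) i with hs
  have s0 : s 0 = fun _ => none := rfl
  have s1 : ∀ i, s (i + 1) = Function.update (s i) (S.next (s i)) (some ((fun _ => true) i)) := fun i => rfl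
  set x : ℕ → Fin n := fun i => S.next (s i) with hx
  have hcard := fun i hi => (Cnt_card S s0 s1 i hi).1
  have hmem := fun i hi => (Cnt_card S s0 s1 i (le_of_lt hi)).2 hi
  have hval : ∀ i v, s i v = none ∨ s i v = some true := by
    intro i
    induction i with
    | zero => intro v; exact Or.inl rfl
    | succ i ih =>
      intro v
      rw [s1, Function.update_apply]
      by_cases hv : v = S.next (s i)
      · rw [if_pos hv]; exact Or.inr rfl
      · rw [if_neg hv]; exact ih v
  have hform : ∀ i, s i = fun v => if v ∈ Cnt_U s i then none else some true := by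
    intro i
    funext v
    by_cases hv : v ∈ Cnt_U s i
    · rw [if_pos hv]
      exact Cnt_mem_U.1 hv
    · rw [if_neg hv]
      rcases hval i v with h | h
      · exact absurd (Cnt_mem_U.2 h) hv
      · exact h
  have hinj : ∀ i j, i < j → j < n → x i ≠ x j := by
    intro i j hij hj h
    have h2 := Cnt_anti S s1 (Nat.succ_le_of_lt hij) (hmem j hj)
    rw [Nat.succ_eq_add_one, Cnt_erase S s1, Finset.mem_erase] at h2
    exact h2.1 h.symm
  -- the list
  have hL : ∀ j, j ≤ n → (Cnt_L x j).toFinset = Cnt_U s (n - j) ∧ (Cnt_L x j).Nodup := by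
    intro j
    induction j with
    | zero =>
      intro _
      refine ⟨?_, List.nodup_nil⟩
      have h3 := hcard n le_rfl
      rw [Nat.sub_self, Finset.card_eq_zero] at h3
      rw [Nat.sub_zero, h3]
      rfl
    | succ j ih =>
      intro hj
      obtain ⟨i1, i2⟩ := ih (by omega)
      have e : n - j = n - (j + 1) + 1 := by omega
      have h4 := Cnt_erase S s1 (n - (j + 1))
      rw [← e] at h4
      have h5 := hmem (n - (j + 1)) (by omega)
      constructor
      · change (x (n - (j + 1)) :: Cnt_L x j).toFinset = _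
        rw [List.toFinset_cons, i1, h4]
        exact Finset.insert_erase h5
      · change (x (n - (j + 1)) :: Cnt_L x j).Nodup
        rw [List.nodup_cons]
        refine ⟨?_, i2⟩
        rw [← List.mem_toFinset, i1, h4]
        exact Finset.notMem_erase _ _
  -- the number of inferred values
  have hbad : ∀ j, j ≤ n → ((Finset.range n).filter (fun i => n - j ≤ i ∧ S.infer (s i) ≠ none)).card ≤
      badCount c (Cnt_L x j) := by
    intro j
    induction j with
    | zero =>
      intro _
      have : (Finset.range n).filter (fun i => n - 0 ≤ i ∧ S.infer (s i) ≠ none) = ∅ := by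
        rw [Finset.filter_eq_empty_iff]
        intro i hi h
        rw [Finset.mem_range] at hi
        omega
      rw [this]
      exact Nat.zero_le _
    | succ j ih =>
      intro hj
      have ih' := ih (by omega)
      change _ ≤ badCount c (Cnt_L x j) + if x (n - (j + 1)) ∈ c (x (n - (j + 1)) :: Cnt_L x j).toFinset then 0 else 1
      have hT : (x (n - (j + 1)) :: Cnt_L x j).toFinset = Cnt_U s (n - (j + 1)) := (hL (j + 1) hj).1
      rw [hT]
      have hsub : (Finset.range n).filter (fun i => n - (j + 1) ≤ i ∧ S.infer (s i) ≠ none) ⊆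
          (Finset.range n).filter (fun i => n - j ≤ i ∧ S.infer (s i) ≠ none) ∪
          (if S.infer (s (n - (j + 1))) ≠ none then {n - (j + 1)} else ∅) := by
        intro i hi
        rw [Finset.mem_filter] at hi
        rw [Finset.mem_union]
        by_cases h6 : n - j ≤ i
        · left
          rw [Finset.mem_filter]
          exact ⟨hi.1, h6, hi.2.2⟩
        · right
          have h7 : i = n - (j + 1) := by omega
          rw [← h7, if_pos hi.2.2]
          exact Finset.mem_singleton_self _
      refine (Finset.card_le_card hsub).trans ((Finset.card_union_le _ _).trans (add_le_add ih' ?_))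
      by_cases h8 : S.infer (s (n - (j + 1))) ≠ none
      · rw [if_pos h8, Finset.card_singleton]
        rw [if_neg]
        intro h9
        obtain ⟨b, hb⟩ := Option.ne_none_iff_exists'.1 h8
        have h10 := S.infer_sound _ _ hb
        rw [hform (n - (j + 1))] at h10
        refine hI (Cnt_U s (n - (j + 1))) (x (n - (j + 1))) h9 (hmem _ (by omega)) b ?_
        have h11 : S.next (fun v => if v ∈ Cnt_U s (n - (j + 1)) then none else some true) = x (n - (j + 1)) := by
          rw [← hform]
        rw [h11] at h10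
        exact h10
      · rw [if_neg h8, Finset.card_empty]
        exact Nat.zero_le _
  have hbadn := (hbad n le_rfl).trans (hD _ (hL n le_rfl).2)
  set G : Finset (Fin n) := ((Finset.range n).filter (fun i => S.infer (s i) = none)).image x with hG
  have hGcard : n ≤ G.card + D := by
    have e1 : G.card = ((Finset.range n).filter (fun i => S.infer (s i) = none)).card := by
      rw [hG]
      apply Finset.card_image_of_injOn
      intro i hi j hj hij
      rw [Finset.mem_coe, Finset.mem_filter, Finset.mem_range] at hi hj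
      by_contra hne
      rcases Nat.lt_or_gt_of_ne hne with h | h
      · exact hinj i j h hj.1 hij
      · exact hinj j i h hi.1 hij.symm
    have e2 := Finset.card_filter_add_card_filter_not (s := Finset.range n) (fun i => S.infer (s i) = none)
    rw [Finset.card_range] at e2
    have e3 : ((Finset.range n).filter (fun i => ¬ S.infer (s i) = none)).card ≤ D := by
      refine le_trans (le_of_eq ?_) hbadn
      congr 1
      apply Finset.filter_congr
      intro i _
      rw [Nat.sub_self]
      simp
    omega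
  -- the successful random strings
  have hy : ∀ y : Fin n → Bool, Sat F (S.out y) → ∀ v ∈ G, y v = true := by
    intro y hsat
    have hout := hF _ hsat
    have r0 : S.run y 0 = fun _ => none := rfl
    have r1 : ∀ i, S.run y (i + 1) = Function.update (S.run y i) (S.next (S.run y i))
      (some ((fun i => (S.infer (S.run y i)).getD (y (S.next (S.run y i)))) i)) := fun i => rfl
    have hb : ∀ i, i < n → (S.infer (S.run y i)).getD (y (S.next (S.run y i))) = true := by
      intro i hi
      have h2 : S.run y (i + 1) (S.next (S.run y i)) =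
          some ((S.infer (S.run y i)).getD (y (S.next (S.run y i)))) := by
        rw [r1, Function.update_self]
      have h3 := Cnt_persist S r0 r1 h2 (n - (i + 1)) (by omega)
      have h4 : i + 1 + (n - (i + 1)) = n := by omega
      rw [h4] at h3
      have h5 := congrFun hout (S.next (S.run y i))
      unfold Solver.out at h5
      rw [h3] at h5
      exact h5
    have hrun : ∀ i, i ≤ n → S.run y i = s i := by
      intro i
      induction i with
      | zero => intro _; rfl
      | succ i ih =>
        intro hi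
        have h2 := ih (by omega)
        have h3 := hb i (by omega)
        rw [r1, s1]
        simp only
        rw [h3, h2]
    intro v hv
    rw [hG, Finset.mem_image] at hv
    obtain ⟨i, hi, rfl⟩ := hv
    rw [Finset.mem_filter, Finset.mem_range] at hi
    have h2 := hb i hi.1
    rw [hrun i hi.1.le, hi.2] at h2
    exact h2
  have hcount : Nat.card {y : Fin n → Bool // Sat F (S.out y)} ≤ 2 ^ D := by
    have h2 : Nat.card {y : Fin n → Bool // Sat F (S.out y)} ≤ Nat.card {y : Fin n → Bool // ∀ v ∈ G, y v = true} := by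
      refine Nat.card_le_card_of_injective (fun y => ⟨y.1, hy y.1 y.2⟩) ?_
      intro y y' h
      simp only [Subtype.mk.injEq] at h
      exact Subtype.ext h
    refine h2.trans ?_
    have h3 : Nat.card {y : Fin n → Bool // ∀ v ∈ G, y v = true} ≤ Nat.card ({v : Fin n // v ∉ G} → Bool) := by
      refine Nat.card_le_card_of_injective (fun y => fun v => y.1 v.1) ?_
      intro y y' h
      apply Subtype.ext
      funext v
      by_cases hv : v ∈ G
      · rw [y.2 v hv, y'.2 v hv]
      · exact congrFun h ⟨v, hv⟩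
    refine h3.trans ?_
    rw [Nat.card_fun, Nat.card_eq_fintype_card, Nat.card_eq_fintype_card, Fintype.card_bool,
      Fintype.card_subtype_compl, Fintype.card_fin, Fintype.card_coe]
    exact Nat.pow_le_pow_right (by norm_num) (by omega)
  unfold Solver.success
  refine div_le_div_of_nonneg_right ?_ (by positivity)
  exact_mod_cast hcount

end Pool.Agent.H13.PZ

end S_Cnt
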